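import Pool.Agent.Work.MP_69fea5_lc.TJ.Stmts
import Pool.Agent.Work.MP_69fea5_lc.Comp

set_option autoImplicit false

/-! The third jump: the decision procedure which only uses single elements. -/

namespace Pool.Agent.Work.MP_69fea5_lc.TJ

open Pool.Agent.Work.MP_69fea5_lc.DJ (bits lo hi S V Bl lam mu chi seg testBit_seg pp_forall
  pp_exists pp_imp pp_bool pr_testBit pr_bits pr_lo pr_hi search)

/-- F7: `X` decides the facts, if the best letters of its elements extend `σ`. -/
def StF7 : Prop := ∀ X : Set ℕ, Two X → (∀ B, ∃ x ∈ X, B ≤ x ∧ 2 ^ B ∣ x) → 0 ∉ X →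
  (∀ l σ, Sig R₀ l σ → ∀ x ∈ X, lo (bits x) = l → ∀ e, IsBest R₀ l (hi (bits x)) e → Pre σ e) →
  Nat.RecursiveIn {chi X} (chi {q | ∃ v, Inf R₀ v ∧ v.unpair.1 = q})

namespace F7_aux

/-- The certificate: `u = pair (pair (pair x e) t) N`; the element `x`, its best letter `e` and the
answer `t`. -/
def P (q u s : ℕ) : Bool :=
  decide (q < lo (bits u.unpair.1.unpair.1.unpair.1) ∧
    s.testBit (3 * u.unpair.1.unpair.1.unpair.1) = true ∧
    s.testBit (3 * Nat.pair (lo (bits u.unpair.1.unpair.1.unpair.1))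
      (Nat.pair (hi (bits u.unpair.1.unpair.1.unpair.1)) u.unpair.1.unpair.1.unpair.2) + 1) = true ∧
    (3 * u.unpair.1.unpair.1.unpair.2 + 2 < u.unpair.2) ∧
    (u.unpair.1.unpair.2 = if ∃ v < u.unpair.1.unpair.1.unpair.2,
      u.unpair.1.unpair.1.unpair.2.testBit v = true ∧ v.unpair.1 = q ∧
      s.testBit (3 * v + 2) = true then 1 else 0))

lemma pr_P : Primrec fun t : ℕ × ℕ × ℕ => P t.1 t.2.1 t.2.2 := by
  have u1 : Primrec fun t : ℕ => t.unpair.1 := Primrec.fst.comp Primrec.unpair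
  have u2 : Primrec fun t : ℕ => t.unpair.2 := Primrec.snd.comp Primrec.unpair
  have q : Primrec fun t : ℕ × ℕ × ℕ => t.1 := Primrec.fst
  have u : Primrec fun t : ℕ × ℕ × ℕ => t.2.1 := Primrec.fst.comp Primrec.snd
  have s : Primrec fun t : ℕ × ℕ × ℕ => t.2.2 := Primrec.snd.comp Primrec.snd
  have x : Primrec fun t : ℕ × ℕ × ℕ => t.2.1.unpair.1.unpair.1.unpair.1 :=
    u1.comp (u1.comp (u1.comp u))
  have e : Primrec fun t : ℕ × ℕ × ℕ => t.2.1.unpair.1.unpair.1.unpair.2 :=
    u2.comp (u1.comp (u1.comp u))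
  have ans : Primrec fun t : ℕ × ℕ × ℕ => t.2.1.unpair.1.unpair.2 := u2.comp (u1.comp u)
  have N : Primrec fun t : ℕ × ℕ × ℕ => t.2.1.unpair.2 := u2.comp u
  have lx : Primrec fun t : ℕ × ℕ × ℕ => lo (bits t.2.1.unpair.1.unpair.1.unpair.1) :=
    pr_lo.comp (pr_bits.comp x)
  have hx : Primrec fun t : ℕ × ℕ × ℕ => hi (bits t.2.1.unpair.1.unpair.1.unpair.1) :=
    pr_hi.comp (pr_bits.comp x)
  have c1 : PrimrecPred fun t : ℕ × ℕ × ℕ => t.1 < lo (bits t.2.1.unpair.1.unpair.1.unpair.1) :=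
    Primrec.nat_lt.comp q lx
  have c2 : PrimrecPred fun t : ℕ × ℕ × ℕ =>
      t.2.2.testBit (3 * t.2.1.unpair.1.unpair.1.unpair.1) = true :=
    pp_bool (pr_testBit.comp s (Primrec.nat_mul.comp (Primrec.const 3) x))
  have c3 : PrimrecPred fun t : ℕ × ℕ × ℕ =>
      t.2.2.testBit (3 * Nat.pair (lo (bits t.2.1.unpair.1.unpair.1.unpair.1))
      (Nat.pair (hi (bits t.2.1.unpair.1.unpair.1.unpair.1)) t.2.1.unpair.1.unpair.1.unpair.2) + 1)
        = true :=
    pp_bool (pr_testBit.comp s (Primrec.succ.comp (Primrec.nat_mul.comp (Primrec.const 3)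
      (Primrec₂.natPair.comp lx (Primrec₂.natPair.comp hx e)))))
  have c4 : PrimrecPred fun t : ℕ × ℕ × ℕ =>
      3 * t.2.1.unpair.1.unpair.1.unpair.2 + 2 < t.2.1.unpair.2 :=
    Primrec.nat_lt.comp (Primrec.nat_add.comp (Primrec.nat_mul.comp (Primrec.const 3) e)
      (Primrec.const 2)) N
  have c5 : PrimrecPred fun t : ℕ × ℕ × ℕ => ∃ v < t.2.1.unpair.1.unpair.1.unpair.2,
      t.2.1.unpair.1.unpair.1.unpair.2.testBit v = true ∧ v.unpair.1 = t.1 ∧
      t.2.2.testBit (3 * v + 2) = true := by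
    refine pp_exists (R := fun (t : ℕ × ℕ × ℕ) v =>
      t.2.1.unpair.1.unpair.1.unpair.2.testBit v = true ∧ v.unpair.1 = t.1 ∧
      t.2.2.testBit (3 * v + 2) = true) ?_ e
    have d1 : PrimrecPred fun t : (ℕ × ℕ × ℕ) × ℕ =>
        t.1.2.1.unpair.1.unpair.1.unpair.2.testBit t.2 = true :=
      pp_bool (pr_testBit.comp (e.comp Primrec.fst) Primrec.snd)
    have d2 : PrimrecPred fun t : (ℕ × ℕ × ℕ) × ℕ => t.2.unpair.1 = t.1.1 :=
      Primrec.eq.comp (u1.comp Primrec.snd) (q.comp Primrec.fst)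
    have d3 : PrimrecPred fun t : (ℕ × ℕ × ℕ) × ℕ => t.1.2.2.testBit (3 * t.2 + 2) = true :=
      pp_bool (pr_testBit.comp (s.comp Primrec.fst) (Primrec.nat_add.comp
        (Primrec.nat_mul.comp (Primrec.const 3) Primrec.snd) (Primrec.const 2)))
    exact d1.and (d2.and d3)
  have c6 : PrimrecPred fun t : ℕ × ℕ × ℕ => t.2.1.unpair.1.unpair.2 =
      if ∃ v < t.2.1.unpair.1.unpair.1.unpair.2,
      t.2.1.unpair.1.unpair.1.unpair.2.testBit v = true ∧ v.unpair.1 = t.1 ∧
      t.2.2.testBit (3 * v + 2) = true then 1 else 0 :=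
    Primrec.eq.comp ans (Primrec.ite c5 (Primrec.const 1) (Primrec.const 0))
  exact (c1.and (c2.and (c3.and (c4.and c6)))).decide

lemma lt_of_testBit {e v : ℕ} (h : e.testBit v = true) : v < e := by
  by_contra hc
  rw [DJ.testBit_false_of_le (not_lt.mp hc)] at h
  exact Bool.noConfusion h

end F7_aux

open F7_aux in
open Classical in
theorem iF7 (_h1 : StL1) (h3 : StL3) (h4 : StL4) (f1 : StF1) (f2 : StF2) (f3 : StF3) : StF7 := by
  intro X h2 far h0 hcl
  obtain ⟨hB, hI⟩ := f2 X h2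
  obtain ⟨W, hW, hWm⟩ := f3 X BestSet {v | Inf R₀ v} hB hI
  -- the characteristic function relative to `W`
  have key : Nat.RecursiveIn {chi W}
      (fun q => Part.some (if ∃ v, Inf R₀ v ∧ v.unpair.1 = q then 1 else 0)) := by
    refine search W P pr_P (fun _ u => u.unpair.1.unpair.2) ?_ _ ?_ ?_
    · exact (Primrec.snd.comp (Primrec.unpair.comp (Primrec.fst.comp (Primrec.unpair.comp
        Primrec.snd))))
    · intro q
      obtain ⟨x, hxX, hxB, hxd⟩ := far (q + 1)
      have hx0 : 0 < x := by omega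
      have hlo : q + 1 ≤ lo (bits x) := DJ.le_of_mem_bits hxd (DJ.lo_mem (DJ.bits_ne_nil hx0))
      obtain ⟨σ, hσ⟩ := h3 R₀ (lo (bits x))
      obtain ⟨g1, -, -⟩ := h4 R₀ f1.1 (lo (bits x)) σ (by omega) hσ
      obtain ⟨e, he⟩ := g1 (hi (bits x))
      set p := Nat.pair (lo (bits x)) (Nat.pair (hi (bits x)) e) with hp
      set N := 3 * x + (3 * p + 1) + (3 * e + 2) + 1 with hN
      set t := (if ∃ v < e, e.testBit v = true ∧ v.unpair.1 = q ∧ v ∈ {v | Inf R₀ v}
        then 1 else 0) with ht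
      refine ⟨Nat.pair (Nat.pair (Nat.pair x e) t) N, ?_⟩
      unfold P
      simp only [Nat.unpair_pair]
      rw [decide_eq_true_eq]
      have hpB : p ∈ BestSet := by
        unfold BestSet
        rw [Set.mem_ofPred_eq, hp]
        simpa using he
      refine ⟨by omega, ?_, ?_, by omega, ?_⟩
      · rw [testBit_seg]
        exact ⟨by omega, (hWm x).1.2 hxX⟩
      · rw [← hp, testBit_seg]
        exact ⟨by omega, (hWm p).2.1.2 hpB⟩
      · rw [ht]
        congr 1
        apply propext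
        refine exists_congr (fun v => and_congr_right (fun hv => and_congr_right (fun _ =>
          and_congr_right (fun _ => ?_))))
        rw [testBit_seg]
        constructor
        · intro h
          exact ⟨by omega, (hWm v).2.2.2 h⟩
        · rintro ⟨-, h⟩
          exact (hWm v).2.2.1 h
    · intro q u hP
      unfold P at hP
      rw [decide_eq_true_eq] at hP
      set x := u.unpair.1.unpair.1.unpair.1 with hx
      set e := u.unpair.1.unpair.1.unpair.2 with he
      obtain ⟨c1, c2, c3, c4, c5⟩ := hP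
      rw [testBit_seg] at c2 c3
      have hxX : x ∈ X := (hWm x).1.1 c2.2
      have hb : IsBest R₀ (lo (bits x)) (hi (bits x)) e := by
        have := (hWm _).2.1.1 c3.2
        unfold BestSet at this
        rw [Set.mem_ofPred_eq] at this
        simpa using this
      obtain ⟨σ, hσ⟩ := h3 R₀ (lo (bits x))
      have hpre := hcl _ σ hσ x hxX rfl e hb
      show u.unpair.1.unpair.2 = _
      rw [c5]
      congr 1
      apply propext
      constructor
      · rintro ⟨v, -, -, hq, hs⟩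
        rw [testBit_seg] at hs
        exact ⟨v, (hWm v).2.2.1 hs.2, hq⟩
      · rintro ⟨v, hv, hq⟩
        obtain ⟨v', hv', hq', -⟩ := hσ.least v hv (by omega)
        have hv'' : σ.testBit v' = true := DJ.mem_bits.mp hv'
        have hev : e.testBit v' = true := by
          rw [hpre v' hv'' v' le_rfl]
          exact hv''
        have hlt := lt_of_testBit hev
        refine ⟨v', hlt, hev, by omega, ?_⟩
        rw [testBit_seg]
        exact ⟨by omega, (hWm v').2.2.2 (hσ.inf v' hv')⟩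
  have key2 : Nat.RecursiveIn {chi W} (chi {q | ∃ v, Inf R₀ v ∧ v.unpair.1 = q}) := by
    refine key.of_eq (fun q => ?_)
    unfold chi
    rfl
  refine key2.subst (fun g hg => ?_)
  rw [Set.mem_singleton_iff.mp hg]
  exact hW

end Pool.Agent.Work.MP_69fea5_lc.TJ
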