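import Pool.Agent.Work.MP_69fea5_lc.TJ.V_CL

set_option autoImplicit false

/-! The third jump: the claim, for the painter with 16 colours, with a parameter for the number of
terms. -/

namespace Pool.Agent.Work.MP_69fea5_lc.TJ

open Pool.Agent.Work.MP_69fea5_lc.DJ (bits lo hi S V Bl lam mu chi seg)

/-- The hypothesis on `X`, 16 colours, sums of at most `n + 4` terms. -/
structure HypVn (n : ℕ) (R : ℕ → ℕ → ℕ → Bool) (X : Set ℕ) : Prop where
  pos : 0 ∉ X
  far : ∀ B, ∃ x ∈ X, B ≤ x ∧ 2 ^ B ∣ x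
  hom : ∃ c₀, ∀ f, V X f → (bits f).length ≤ n + 4 → colV R (S f) = c₀

open VCL in
open Pool.Agent.Work.MP_69fea5_lc.DJ (bits_add bits_ne_nil lo_mem hi_mem le_of_mem_bits
  lt_of_mem_bits mem_bits bits_two_pow lo_append S_add S_pos V_add testBit_false_of_le) in
/-- CL with 16 colours, for sums of at most `n` terms; sums of at most `n + 4` terms have the same
colour. -/
theorem iCLVn (n : ℕ) (h1 : StL1) (h4 : StL4) (h5 : StL5) (hW : StW) (hS : StCS)
    (R : ℕ → ℕ → ℕ → Bool) (X : Set ℕ) (hdum : Dummy R) (hyp : HypVn n R X)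
    (l σ : ℕ) (hσ : Sig R l σ) (f : ℕ) (hf : V X f) (hf2 : (bits f).length ≤ n) (hl : lam f = l)
    (e : ℕ) (he : IsBest R l (mu f) e) : Pre σ e := by
  by_contra hpre
  -- `1 ≤ l`
  have hl1 : 1 ≤ l := by
    obtain ⟨⟨b, hv, hne, -⟩, -⟩ := he
    have h2 := lo_mem (bits_ne_nil (Nat.pos_of_ne_zero hne))
    have := hv.1 _ h2
    omega
  have hil : (bits σ).length ≤ l := by
    have hinj : ((bits σ).map (fun v => v.unpair.1)).Nodup := by
      refine List.Nodup.map_on ?_ (Pool.Agent.Work.MP_69fea5_lc.DJ.nodup_bits σ)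
      intro v hv v' hv' h
      exact hσ.vld.2 v hv v' hv' h
    have hsub : (bits σ).map (fun v => v.unpair.1) ⊆ List.range l := by
      intro q hq
      rw [List.mem_map] at hq
      obtain ⟨v, hv, rfl⟩ := hq
      exact List.mem_range.mpr (hσ.vld.1 v hv)
    have h2 := (List.subperm_of_subset hinj hsub).length_le
    simpa using h2
  obtain ⟨a1, -, a3⟩ := h4 R hdum l σ hl1 hσ
  obtain ⟨a₀, ha₀⟩ := a3 0
  obtain ⟨p1, p2, p3, p4⟩ := h5 R hdum l σ hl1 hσ
  obtain ⟨j, hj, b₀, hb₀⟩ := p3 _ _ he hpre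
  obtain ⟨b₁, hb₁⟩ := p1 _ _ he
  choose bst hbst using a1
  have hβ : ∀ a, ∃ β, (∀ b, β ≤ b → letter R l a b = bst a) ∧
      (a₀ ≤ a → ∀ b, β ≤ b → ∀ e', IsBest R l b e' →
        gt (bst a) e' = true ∧ dl (bst a) e' = (bits σ).length) := by
    intro a
    obtain ⟨β1, q1⟩ := p1 a (bst a) (hbst a)
    by_cases ha : a₀ ≤ a
    · obtain ⟨β2, q2⟩ := p2 a (bst a) (hbst a) (ha₀ a ha (bst a) (hbst a)).1
      exact ⟨max β1 β2, fun b hb => q1 b (by omega), fun _ b hb => q2 b (by omega)⟩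
    · exact ⟨β1, q1, fun h => absurd h ha⟩
  choose β hβ1 hβ2 using hβ
  -- a monotone version of `β`
  have hβs : ∀ x a, a ≤ x → β a ≤ ((List.range (x + 1)).map β).sum := by
    intro x a ha
    exact List.single_le_sum (by simp) _
      (List.mem_map.mpr ⟨a, List.mem_range.mpr (by omega), rfl⟩)
  obtain ⟨x, hxX, hxB, hx⟩ := hS X hyp.far (max (max a₀ (max b₀ b₁)) (max f (S f)) + 1)
    (fun x => ((List.range (x + 1)).map β).sum)
  have hpos : ∀ a, 0 < x a := fun a => by have := (hxB a).1; omega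
  have hlt : ∀ a b, a < b → x a < x b := fun a b hab =>
    lt_of_lt_of_le Nat.lt_two_pow_self (hx a b hab).1
  have hne : ∀ a, bits (x a) ≠ [] := fun a => bits_ne_nil (hpos a)
  have hmem : ∀ a, ∀ i ∈ bits (x a), max (max a₀ (max b₀ b₁)) (max f (S f)) + 1 ≤ i := fun a i hi =>
    le_of_mem_bits (hxB a).2 hi
  have hhi : ∀ a, hi (bits (x a)) ≤ x a := fun a => by
    have := lt_of_mem_bits (x := x a) (k := x a) Nat.lt_two_pow_self (hi_mem (hne a))
    omega
  have hfar : ∀ a b, a < b → ∀ i ∈ bits (x b), β (hi (bits (x a))) ≤ i := fun a b hab i hi =>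
    (hβs _ _ (hhi a)).trans (le_of_mem_bits (hx a b hab).2.2.2 hi)
  have hge : ∀ a, a₀ ≤ hi (bits (x a)) := fun a => by have := hmem a _ (hi_mem (hne a)); omega
  -- the family
  have hF : FamS gt dl e j (bits σ).length (fun a => word R l (bits (x a)))
      (fun a => bst (hi (bits (x a)))) := by
    refine ⟨hj, fun a => ?_, fun a b hab => ?_, fun a b hab y hy => ?_⟩
    · exact hb₀ _ (by have := hmem a _ (hi_mem (hne a)); omega) _ (hbst _)
    · exact hβ2 _ (hge a) _ (hfar a b hab _ (hi_mem (hne b))) _ (hbst _)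
    · obtain ⟨a', ha', b', hb', rfl⟩ := (hW R l).2 _ _ hy
      have q1 := (hβ2 _ (hge a) _ (hfar a b hab _ ha') _ (hbst a')).1
      rcases p4 a' (bst a') a' b' (hbst a') le_rfl with q2 | q2
      · rw [q2]; exact q1
      · exact h1.1.trans _ _ _ q1 q2
  obtain ⟨s, s1, s2, s3, s4⟩ := T1V h1.1 l e j _ _ _ hil hF (word R l (bits (S f)))
  obtain ⟨c₀, hc₀⟩ := hyp.hom
  have hSf := S_pos hyp.pos hf
  have hflt : f < 2 ^ (max (max a₀ (max b₀ b₁)) (max f (S f)) + 1) :=
    lt_of_lt_of_le Nat.lt_two_pow_self (Nat.pow_le_pow_right (by norm_num) (by omega))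
  have hSlt : S f < 2 ^ (max (max a₀ (max b₀ b₁)) (max f (S f)) + 1) :=
    lt_of_lt_of_le Nat.lt_two_pow_self (Nat.pow_le_pow_right (by norm_num) (by omega))
  have hGd : 2 ^ (max (max a₀ (max b₀ b₁)) (max f (S f)) + 1) ∣ G x s :=
    dvd_G (fun a _ => (hxB a).1)
  have hTd : 2 ^ (max (max a₀ (max b₀ b₁)) (max f (S f)) + 1) ∣ T x s :=
    dvd_T (fun a _ => (hxB a).2)
  have hbF : bits (f + G x s) = bits f ++ s.map x := by
    rw [bits_add hflt hGd, bits_G hlt s3]
  have hSF : S (f + G x s) = S f + T x s := by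
    rw [S_add hflt hGd, S_G hlt s3]
  have hVF : V X (f + G x s) := by
    refine ⟨by have := hf.1; omega, fun i hi => ?_⟩
    rw [hbF, List.mem_append, List.mem_map] at hi
    rcases hi with hi | ⟨a, -, rfl⟩
    · exact hf.2 i hi
    · exact hxX a
  have hc : ∀ a b, a < b → letter R l (hi (bits (x a))) (lo (bits (x b))) =
      bst (hi (bits (x a))) := fun a b hab => hβ1 _ _ (hfar a b hab _ (lo_mem (hne b)))
  cases s with
  | nil => exact s1 rfl
  | cons a s =>
    obtain ⟨t1, t2, t3⟩ := word_T hW (R := R) (l := l) (c := fun a => bst (hi (bits (x a))))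
      hpos (fun a b hab => (hx a b hab).2.2.1) hc a s s3
    have hb := bits_add hSlt hTd
    have hlam : lo (bits (S f)) = l := hl
    have e1 : colV R (S (f + G x (a :: s))) =
        colM l (word R l (bits (S f)) ++ e :: join (fun a => word R l (bits (x a)))
          (fun a => bst (hi (bits (x a)))) (a :: s)) := by
      unfold colV
      rw [hSF, hb, lo_append (bits_ne_nil hSf), hlam,
        (hW R l).1 _ _ (bits_ne_nil hSf) (bits_ne_nil t1), t2, t3]
      have e2 : letter R l (hi (bits (S f))) (lo (bits (x a))) = e := by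
        refine hb₁ _ ?_
        have := hmem a _ (lo_mem (hne a))
        omega
      rw [e2]
    have e3 : colV R (S f) = colM l (word R l (bits (S f))) := by
      unfold colV
      rw [hlam]
    apply s4
    rw [← e1, ← e3, hc₀ f hf (by omega), hc₀ _ hVF (by
      rw [hbF, List.length_append, List.length_map]
      omega)]

end Pool.Agent.Work.MP_69fea5_lc.TJ
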