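import Pool.Agent.Work.MP_69fea5_lc.TJ.V_Main
import Pool.Agent.Work.MP_69fea5_lc.TJ.V_CL5
import Pool.Agent.Work.MP_69fea5_lc.TJ.I_F7

set_option autoImplicit false

/-! The third jump, 96 colours, sums of at most five terms. -/

namespace Pool.Agent.Work.MP_69fea5_lc.TJ

open Pool.Agent.Work.MP_69fea5_lc.DJ (bits lo hi S V Bl lam mu chi seg Mono4)
open Pool.Agent.Work.MP_69fea5_lc.S4 (d6 d6_lt pr_d6 d6_inj Concl six)

open Pool.Agent.Work.MP_69fea5_lc.DJ (nodup_bits bits_ne_nil comp_rec bits_two_pow) in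
/-- The theorem. -/
theorem mainV5 (l1 : StL1) (l3 : StL3) (l4 : StL4) (l5 : StL5) (hw : StW) (cs : StCS)
    (f1 : StF1) (f2 : StF2) (f3 : StF3) {X : Set ℕ} (hX : X.Infinite) (hpos : ∀ x ∈ X, 0 < x) :
    ((∃ b, ∀ F : Finset ℕ, F.Nonempty → F.card ≤ 5 → (↑F : Set ℕ) ⊆ X →
      c96 (∑ x ∈ F, x) = b) → ∀ (T : Set ℕ) (Q : ℕ → ℕ → ℕ → ℕ → Bool),
      (Computable fun t : ℕ × ℕ × ℕ × ℕ => Q t.1 t.2.1 t.2.2.1 t.2.2.2) →
      (∀ n, n ∈ T ↔ ∃ s, ∀ t, ∃ u, Q n s t u = true) → Nat.RecursiveIn {chi X} (chi T)) ∧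
    ((∃ b, ∀ F : Finset ℕ, F.Nonempty → F.card ≤ 4 → (↑F : Set ℕ) ⊆ X →
      c96 (∑ x ∈ F, x) = b) →
      (∀ S : Set ℕ, (∃ R : ℕ → ℕ → ℕ → Bool,
        (Computable fun t : ℕ × ℕ × ℕ => R t.1 t.2.1 t.2.2) ∧
        ∀ n, n ∈ S ↔ ∃ s, ∀ t, R n s t = true) → Nat.RecursiveIn {chi X} (chi S)) ∧
      Concl X) := by
  classical
  have key : (∃ b, ∀ F : Finset ℕ, F.Nonempty → F.card ≤ 4 → (↑F : Set ℕ) ⊆ X →
      c96 (∑ x ∈ F, x) = b) → Mono4 d6 X := by
    rintro ⟨b, hb⟩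
    obtain ⟨x₀, hx₀⟩ := hX.nonempty
    have hb₀ : c96 x₀ = b := by
      have := hb {x₀} (by simp) (by simp) (by simpa using hx₀)
      simpa using this
    exact ⟨d6 x₀, fun F h1 h2 h3 => (c96_inj ((hb F h1 h2 h3).trans hb₀.symm)).1⟩
  refine ⟨?_, fun h => six hX hpos (key h)⟩
  rintro ⟨b, hb⟩ T Q hQ hT
  have hm : Mono4 d6 X := key ⟨b, fun F h1 h2 h3 => hb F h1 (by omega) h3⟩
  have hS := six hX hpos hm
  have two : Two X := fun T Q hQ hT => hS.1 T ⟨Q, hQ, hT⟩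
  have far := far_of hX hpos (fib hpos hm)
  have h0 : 0 ∉ X := fun h => lt_irrefl _ (hpos 0 h)
  obtain ⟨x₀, hx₀⟩ := hX.nonempty
  have hb₀ : c96 x₀ = b := by
    have := hb {x₀} (by simp) (by simp) (by simpa using hx₀)
    simpa using this
  have hyp : HypVn 1 R₀ X := by
    refine ⟨h0, far, colV R₀ x₀, fun f hf hf5 => ?_⟩
    have e : ∑ x ∈ (bits f).toFinset, x = S f := by
      rw [List.sum_toFinset _ (nodup_bits f)]
      simp [S]
    have h1 := hb (bits f).toFinset (by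
      rw [List.toFinset_nonempty_iff]
      exact bits_ne_nil hf.1) (by
      rw [List.toFinset_card_of_nodup (nodup_bits f)]
      exact hf5) (by
      intro i hi
      rw [List.coe_toFinset] at hi
      exact hf.2 i hi)
    rw [e] at h1
    exact (c96_inj (h1.trans hb₀.symm)).2
  have hcl := iCLVn 1 l1 l4 l5 hw cs R₀ X f1.1 hyp
  have h5 := iF7 l1 l3 l4 f1 f2 f3 X two far h0 (fun l σ hσ x hx hl e he => by
    have e1 : S (2 ^ x) = x := by
      unfold S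
      rw [bits_two_pow]
      simp
    refine hcl l σ hσ (2 ^ x) ⟨by positivity, fun i hi => ?_⟩ ?_ ?_ e ?_
    · rw [bits_two_pow, List.mem_singleton] at hi
      rw [hi]
      exact hx
    · rw [bits_two_pow]
      simp
    · unfold lam
      rw [e1]
      exact hl
    · unfold mu
      rw [e1]
      exact he)
  obtain ⟨e, he⟩ := f1.2.2 T Q hQ hT
  have h6 := comp_rec h5 (g := fun n => Nat.pair e n + 1)
    (Primrec.succ.comp (Primrec₂.natPair.comp (Primrec.const e) Primrec.id))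
  refine h6.of_eq (fun n => ?_)
  unfold chi
  simp only [he n, Set.mem_ofPred_eq]

end Pool.Agent.Work.MP_69fea5_lc.TJ
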