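import Pool.Agent.Work.MP_69fea5_lc.TJ.Stmts

set_option autoImplicit false

/-! Item PA: the recursion equations of the painter. -/

namespace Pool.Agent.Work.MP_69fea5_lc.TJ

namespace PA_aux

variable {g : ℕ → ℕ → Bool} {δ : ℕ → ℕ → ℕ}

lemma spl_none (w : List ℕ) : spl g w = none ↔ w = [] := by
  cases w with
  | nil => simp [spl]
  | cons a w =>
    rw [spl]
    cases hw : spl g w with
    | none => simp
    | some z =>
      obtain ⟨u, y, v⟩ := z
      simp only
      split_ifs <;> simp

lemma spl_dec (hg : Good g δ) {w u v : List ℕ} {y : ℕ} (h : spl g w = some (u, y, v)) :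
    Dec g w u y v := by
  induction w generalizing u v y with
  | nil => simp [spl] at h
  | cons a w ih =>
    rw [spl] at h
    cases hw : spl g w with
    | none =>
      rw [hw] at h
      simp only [Option.some.injEq, Prod.mk.injEq] at h
      obtain ⟨rfl, rfl, rfl⟩ := h
      rw [spl_none] at hw
      subst hw
      exact ⟨rfl, by simp, by simp⟩
    | some z =>
      obtain ⟨u', y', v'⟩ := z
      rw [hw] at h
      obtain ⟨h1, h2, h3⟩ := ih hw
      simp only at h
      split_ifs at h with hgy
      · simp only [Option.some.injEq, Prod.mk.injEq] at h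
        obtain ⟨rfl, rfl, rfl⟩ := h
        refine ⟨rfl, by simp, ?_⟩
        intro x hx
        rw [h1] at hx
        rcases List.mem_append.1 hx with hx | hx
        · have hxy := h2 x hx
          by_cases hxe : x = y'
          · rw [hxe]; exact hgy
          · rcases hg.total x y' hxe with h4 | h4
            · rw [hxy] at h4; cases h4
            · exact hg.trans _ _ _ hgy h4
        · rcases List.mem_cons.1 hx with hx | hx
          · rw [hx]; exact hgy
          · exact hg.trans _ _ _ hgy (h3 x hx)
      · simp only [Option.some.injEq, Prod.mk.injEq] at h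
        obtain ⟨rfl, rfl, rfl⟩ := h
        refine ⟨by rw [h1]; rfl, ?_, h3⟩
        intro x hx
        rcases List.mem_cons.1 hx with hx | hx
        · rw [hx]
          cases hb : g a y' with
          | false => rfl
          | true => exact absurd hb hgy
        · exact h2 x hx

lemma dec_unique {w u v u' v' : List ℕ} {y y' : ℕ} (h : Dec g w u y v) (h' : Dec g w u' y' v') :
    u = u' ∧ y = y' ∧ v = v' := by
  obtain ⟨h1, h2, h3⟩ := h
  obtain ⟨h1', h2', h3'⟩ := h'
  have he : u ++ y :: v = u' ++ y' :: v' := by rw [← h1, ← h1']
  rcases List.append_eq_append_iff.1 he with ⟨as, ha, hb⟩ | ⟨as, ha, hb⟩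
  · cases as with
    | nil =>
      simp only [List.append_nil] at ha
      simp only [List.nil_append, List.cons.injEq] at hb
      exact ⟨ha.symm, hb.1, hb.2⟩
    | cons b as =>
      simp only [List.cons_append, List.cons.injEq] at hb
      obtain ⟨rfl, hb⟩ := hb
      have e1 : g y y' = false := h2' y (by rw [ha]; simp)
      have e2 : g y y' = true := h3 y' (by rw [hb]; simp)
      rw [e1] at e2
      cases e2
  · cases as with
    | nil =>
      simp only [List.append_nil] at ha
      simp only [List.nil_append, List.cons.injEq] at hb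
      exact ⟨ha, hb.1.symm, hb.2.symm⟩
    | cons b as =>
      simp only [List.cons_append, List.cons.injEq] at hb
      obtain ⟨rfl, hb⟩ := hb
      have e1 : g y' y = false := h2 y' (by rw [ha]; simp)
      have e2 : g y' y = true := h3' y (by rw [hb]; simp)
      rw [e1] at e2
      cases e2

lemma spl_iff (hg : Good g δ) (w u : List ℕ) (y : ℕ) (v : List ℕ) :
    spl g w = some (u, y, v) ↔ Dec g w u y v := by
  constructor
  · exact spl_dec hg
  · intro h
    cases hw : spl g w with
    | none =>
      rw [spl_none] at hw
      subst hw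
      exact absurd h.1 (by simp)
    | some z =>
      obtain ⟨u', y', v'⟩ := z
      obtain ⟨rfl, rfl, rfl⟩ := dec_unique (spl_dec hg hw) h
      rfl

lemma M_nil : M g δ [] = 0 := by
  rw [M]
  split
  · rfl
  · next h => simp [spl] at h

lemma U_nil : U g δ [] = 0 := by
  rw [U]
  split
  · rfl
  · next h => simp [spl] at h

lemma M_some {w u v : List ℕ} {y : ℕ} (h : spl g w = some (u, y, v)) :
    M g δ w = M g δ u + node g δ y v := by
  rw [M]
  split
  · next h' => rw [h] at h'; cases h'
  · next u1 y1 v1 h' =>
    rw [h] at h'
    simp only [Option.some.injEq, Prod.mk.injEq] at h'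
    obtain ⟨rfl, rfl, rfl⟩ := h'
    congr 1
    unfold node
    split
    · next h2 => rw [h2]
    · next a1 b1 c1 h2 => rw [h2]

lemma U_some {w u v : List ℕ} {y : ℕ} (h : spl g w = some (u, y, v)) :
    U g δ w = U g δ u + M g δ v := by
  rw [U]
  split
  · next h' => rw [h] at h'; cases h'
  · next u1 y1 v1 h' =>
    rw [h] at h'
    simp only [Option.some.injEq, Prod.mk.injEq] at h'
    obtain ⟨rfl, rfl, rfl⟩ := h'
    rfl

end PA_aux

open PA_aux in
theorem iPA : StPA := by
  intro g δ hg
  refine ⟨spl_iff hg, spl_none, M_nil, ?_, U_nil, ?_, ?_, ?_⟩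
  · intro w u y v h
    exact M_some ((spl_iff hg w u y v).2 h)
  · intro w u y v h
    exact U_some ((spl_iff hg w u y v).2 h)
  · intro y
    unfold node
    rw [(spl_none []).2 rfl]
  · intro y v u' y' v' h
    unfold node
    rw [(spl_iff hg v u' y' v').2 h]

end Pool.Agent.Work.MP_69fea5_lc.TJ
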