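import Pool.Agent.Work.MP_69fea5_lc.TJ.Stmts

set_option autoImplicit false

/-! The third jump: open letters (item PO). -/

namespace Pool.Agent.Work.MP_69fea5_lc.TJ

namespace PO_aux

variable {g : ℕ → ℕ → Bool} {δ : ℕ → ℕ → ℕ}

lemma tf {a b : ℕ} (h : ¬ g a b = true) : g a b = false := by simpa using h

/-- `a > b`, `c ≤ b` give `a > c`. -/
lemma lt_of (hG : Good g δ) {a b c : ℕ} (h : g a b = true) (h' : g c b = false) :
    g a c = true := by
  by_cases hac : a = c
  · subst hac; rw [h] at h'; exact absurd h' (by simp)
  · rcases hG.total a c hac with h1 | h1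
    · exact h1
    · have := hG.trans c a b h1 h
      rw [this] at h'; exact absurd h' (by simp)

lemma ntrans (hG : Good g δ) {a b c : ℕ} (h : g a b = false) (h' : g b c = false) :
    g a c = false := by
  apply tf
  intro hac
  have := lt_of hG hac h'
  rw [this] at h; exact absurd h (by simp)

lemma dec_exists (hG : Good g δ) : ∀ w : List ℕ, w = [] ∨ ∃ u y v, Dec g w u y v := by
  intro w
  induction w with
  | nil => exact Or.inl rfl
  | cons a w ih =>
    right
    rcases ih with rfl | ⟨u, y, v, hw, hu, hv⟩
    · exact ⟨[], a, [], rfl, by simp, by simp⟩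
    · by_cases hg : g a y = true
      · refine ⟨[], a, w, rfl, by simp, ?_⟩
        intro x hx
        rw [hw] at hx
        rcases List.mem_append.1 hx with hx | hx
        · exact lt_of hG hg (hu x hx)
        · rcases List.mem_cons.1 hx with rfl | hx
          · exact hg
          · exact hG.trans _ _ _ hg (hv x hx)
      · refine ⟨a :: u, y, v, by rw [hw]; rfl, ?_, hv⟩
        intro x hx
        rcases List.mem_cons.1 hx with rfl | hx
        · exact tf hg
        · exact hu x hx

lemma opn_zero (D : ℕ) (w : List ℕ) (h : ∀ x ∈ w, g x D = false) : opn g D w = 0 := by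
  induction w with
  | nil => rfl
  | cons a w ih =>
    have ha : g a D = false := h a (by simp)
    rw [opn, ih (fun x hx => h x (List.mem_cons_of_mem _ hx)), if_neg]
    rintro ⟨h1, -⟩
    rw [ha] at h1; exact absurd h1 (by simp)

lemma opn_skip (D y : ℕ) (v u : List ℕ) (h : ∀ x ∈ u, g x y = false) :
    opn g D (u ++ y :: v) = opn g D (y :: v) := by
  induction u with
  | nil => rfl
  | cons a u ih =>
    have ha : g a y = false := h a (by simp)
    rw [List.cons_append, opn, ih (fun x hx => h x (List.mem_cons_of_mem _ hx)), if_neg, zero_add]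
    rintro ⟨-, h1⟩
    have := h1 y (by simp)
    rw [ha] at this; exact absurd this (by simp)

lemma opn_head (D y : ℕ) (v : List ℕ) (h : g y D = true) (hv : ∀ x ∈ v, g y x = true) :
    opn g D (y :: v) = 1 + opn g D v := by
  rw [opn, if_pos ⟨h, hv⟩]

lemma opn_joint (hG : Good g δ) (c c' : ℕ) (v : List ℕ) (hc : g c c' = true)
    (hv : ∀ x ∈ v, g c x = true) (w : List ℕ) :
    opn g c' (w ++ c :: v) = opn g c w + 1 + opn g c' v := by
  induction w with
  | nil =>
    rw [List.nil_append, opn_head c' c v hc hv, opn, zero_add]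
  | cons a w ih =>
    have hiff : (g a c' = true ∧ ∀ x ∈ w ++ c :: v, g a x = true) ↔
        (g a c = true ∧ ∀ x ∈ w, g a x = true) := by
      constructor
      · rintro ⟨-, h⟩
        exact ⟨h c (by simp), fun x hx => h x (by simp [hx])⟩
      · rintro ⟨h1, h2⟩
        refine ⟨hG.trans _ _ _ h1 hc, ?_⟩
        intro x hx
        rcases List.mem_append.1 hx with hx | hx
        · exact h2 x hx
        · rcases List.mem_cons.1 hx with rfl | hx
          · exact h1
          · exact hG.trans _ _ _ h1 (hv x hx)
    rw [List.cons_append, opn, ih, opn]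
    by_cases hP : g a c = true ∧ ∀ x ∈ w, g a x = true
    · rw [if_pos hP, if_pos (hiff.2 hP)]; omega
    · rw [if_neg hP, if_neg (fun h => hP (hiff.1 h))]; omega

end PO_aux

open PO_aux in
theorem iPO : StPO := by
  intro g δ hG
  refine ⟨dec_exists hG, fun D w h => opn_zero D w h, ?_, ?_, ?_, ?_, ?_⟩
  · rintro D w u y v ⟨rfl, hu, hv⟩ hy
    rw [opn_skip D y v u hu, opn_head D y v hy hv, add_comm]
  · intro D w
    rcases dec_exists hG w with rfl | ⟨u, y, v, hw, hu, hv⟩
    · left; simp
    · by_cases hy : g y D = true
      · right; exact ⟨u, y, v, ⟨hw, hu, hv⟩, hy⟩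
      · left
        intro x hx
        rw [hw] at hx
        rcases List.mem_append.1 hx with hx | hx
        · exact ntrans hG (hu x hx) (tf hy)
        · rcases List.mem_cons.1 hx with rfl | hx
          · exact tf hy
          · apply tf
            intro h
            exact hy (hG.trans _ _ _ (hv x hx) h)
  · intro D t W hW ht
    exact ⟨rfl, ht, hW⟩
  · rintro D t W u y v hW ⟨rfl, hu, hv⟩ hy
    refine ⟨by simp, hu, ?_⟩
    intro x hx
    rcases List.mem_append.1 hx with hx | hx
    · exact hv x hx
    · rcases List.mem_cons.1 hx with rfl | hx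
      · exact hy
      · exact hG.trans _ _ _ hy (hW x hx)
  · intro c c' w v hc hv
    exact opn_joint hG c c' v hc hv w

end Pool.Agent.Work.MP_69fea5_lc.TJ
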