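import Pool.Agent.Work.MP_69fea5_lc.TJ.Stmts

set_option autoImplicit false

/-! The third jump, item PR1: the painter is primitive recursive. -/

namespace Pool.Agent.Work.MP_69fea5_lc.TJ

namespace PR1_aux

open Primrec

/-- The results of `spl`. -/
abbrev Sp := Option (List ℕ × ℕ × List ℕ)

variable {g : ℕ → ℕ → Bool} {δ : ℕ → ℕ → ℕ}

lemma pr_spl (hg : Primrec₂ g) : Primrec (spl g) := by
  have h : Primrec₂ (fun (_ : List ℕ) (t : ℕ × List ℕ × Sp) =>
      (Option.casesOn t.2.2 (some ([], t.1, []))
        (fun s : List ℕ × ℕ × List ℕ => bif g t.1 s.2.1 then some ([], t.1, t.2.1)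
          else some (t.1 :: s.1, s.2.1, s.2.2)) : Sp)) := by
    refine Primrec.option_casesOn (snd.comp (snd.comp snd)) ?_ ?_
    · exact option_some.comp (pair (const []) (pair (fst.comp snd) (const [])))
    · refine Primrec.cond ?_ ?_ ?_
      · exact hg.comp (fst.comp (snd.comp fst)) (fst.comp (snd.comp snd))
      · exact option_some.comp (pair (const []) (pair (fst.comp (snd.comp fst))
          (fst.comp (snd.comp (snd.comp fst)))))
      · exact option_some.comp (pair (list_cons.comp (fst.comp (snd.comp fst)) (fst.comp snd))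
          (pair (fst.comp (snd.comp snd)) (snd.comp (snd.comp snd))))
  refine (Primrec.list_rec Primrec.id (Primrec.const (none : Sp)) h).of_eq ?_
  intro w
  induction w with
  | nil => rfl
  | cons a w ih =>
    simp only [id_eq] at ih ⊢
    rw [spl, ih]
    cases spl g w with
    | none => rfl
    | some s =>
      obtain ⟨u, y, v⟩ := s
      simp only
      cases g a y <;> simp

lemma M_eq (w : List ℕ) : M g δ w = (match spl g w with
    | none => 0
    | some (u, y, v) => M g δ u + (match spl g v with
      | none => 0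
      | some (_, y', v') => FT (δ y y') (M g δ v')) : ℕ → A) := by
  rw [M]
  split
  · rename_i h
    rw [h]
  · rename_i u y v h
    rw [h]
    simp only
    congr 1
    split
    · rename_i h'
      rw [h']
    · rename_i z y' v' h'
      rw [h']

lemma U_eq (w : List ℕ) : U g δ w = (match spl g w with
    | none => 0
    | some (u, _, v) => U g δ u + M g δ v : ℕ → A) := by
  rw [U]
  split
  · rename_i h
    rw [h]
  · rename_i u y v h
    rw [h]

/-- the recursive calls of `M` -/
def lM (g : ℕ → ℕ → Bool) (δ : ℕ → ℕ → ℕ) (b : List ℕ × ℕ) : List (List ℕ × ℕ) :=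
  Option.casesOn (spl g b.1) [] fun s : List ℕ × ℕ × List ℕ =>
    Option.casesOn (spl g s.2.2) [(s.1, b.2)] fun s' : List ℕ × ℕ × List ℕ =>
      [(s.1, b.2), (s'.2.2, b.2), (s'.2.2, δ s.2.1 s'.2.1 + 1)]

/-- the combination -/
def cA (c : Bool) (x y z : A) : A := bif c then x + (y - z + eT (fT z)) else x

lemma pr_cA : Primrec fun t : Bool × A × A × A => cA t.1 t.2.1 t.2.2.1 t.2.2.2 :=
  Primrec.dom_finite _

/-- the step of `M` -/
def gM (g : ℕ → ℕ → Bool) (δ : ℕ → ℕ → ℕ) (b : List ℕ × ℕ) (L : List A) : Option A :=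
  some (Option.casesOn (spl g b.1) 0 fun s : List ℕ × ℕ × List ℕ =>
    Option.casesOn (spl g s.2.2) (L.getD 0 0) fun s' : List ℕ × ℕ × List ℕ =>
      cA (decide (b.2 ≤ δ s.2.1 s'.2.1)) (L.getD 0 0) (L.getD 1 0) (L.getD 2 0))

lemma pr_lM (hg : Primrec₂ g) (hδ : Primrec₂ δ) : Primrec (lM g δ) := by
  have hs := pr_spl hg
  refine Primrec.option_casesOn (hs.comp fst) (const []) ?_
  refine Primrec.option_casesOn (hs.comp (snd.comp (snd.comp snd))) ?_ ?_
  · exact list_cons.comp (pair (fst.comp snd) (snd.comp fst)) (const [])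
  · refine list_cons.comp (pair (fst.comp (snd.comp fst)) (snd.comp (fst.comp fst))) ?_
    refine list_cons.comp (pair (snd.comp (snd.comp snd)) (snd.comp (fst.comp fst))) ?_
    refine list_cons.comp (pair (snd.comp (snd.comp snd)) (succ.comp ?_)) (const [])
    exact hδ.comp (fst.comp (snd.comp (snd.comp fst))) (fst.comp (snd.comp snd))

lemma pr_gM (hg : Primrec₂ g) (hδ : Primrec₂ δ) : Primrec₂ (gM g δ) := by
  have hs := pr_spl hg
  refine option_some.comp ?_
  refine Primrec.option_casesOn (hs.comp (fst.comp fst)) (const 0) ?_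
  refine Primrec.option_casesOn (hs.comp (snd.comp (snd.comp snd))) ?_ ?_
  · exact (list_getD (0 : A)).comp (snd.comp fst) (const 0)
  · have h1 : Primrec (fun t : (((List ℕ × ℕ) × List A) × (List ℕ × ℕ × List ℕ)) ×
        (List ℕ × ℕ × List ℕ) => decide (t.1.1.1.2 ≤ δ t.1.2.2.1 t.2.2.1)) := by
      refine PrimrecPred.decide ?_
      exact nat_le.comp (snd.comp (fst.comp (fst.comp fst)))
        (hδ.comp (fst.comp (snd.comp (snd.comp fst))) (fst.comp (snd.comp snd)))
    have hL : ∀ n : ℕ, Primrec (fun t : (((List ℕ × ℕ) × List A) × (List ℕ × ℕ × List ℕ)) ×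
        (List ℕ × ℕ × List ℕ) => t.1.1.2.getD n 0) := fun n =>
      (list_getD (0 : A)).comp (snd.comp (fst.comp fst)) (const n)
    exact pr_cA.comp (pair h1 (pair (hL 0) (pair (hL 1) (hL 2))))

lemma pr_M (hg : Primrec₂ g) (hδ : Primrec₂ δ) :
    Primrec (fun t : List ℕ × ℕ => M g δ t.1 t.2) := by
  refine Primrec.nat_omega_rec' _ (m := fun b => b.1.length) (l := lM g δ) (g := gM g δ)
    (list_length.comp fst) (pr_lM hg hδ) (pr_gM hg hδ) ?_ ?_
  · rintro ⟨w, q⟩ b' hb'
    unfold lM at hb'
    simp only at hb'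
    cases h : spl g w with
    | none => rw [h] at hb'; simp at hb'
    | some s =>
      obtain ⟨u, y, v⟩ := s
      rw [h] at hb'
      simp only at hb'
      have h1 := spl_length g h
      cases h' : spl g v with
      | none =>
        rw [h'] at hb'
        simp only [List.mem_singleton] at hb'
        subst hb'
        exact h1.1
      | some s' =>
        obtain ⟨u', y', v'⟩ := s'
        rw [h'] at hb'
        have h2 := spl_length g h'
        simp only [List.mem_cons, List.not_mem_nil, or_false] at hb'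
        rcases hb' with rfl | rfl | rfl
        · exact h1.1
        · exact h2.2.trans h1.2
        · exact h2.2.trans h1.2
  · rintro ⟨w, q⟩
    unfold gM lM
    simp only
    rw [M_eq w]
    cases h : spl g w with
    | none => rfl
    | some s =>
      obtain ⟨u, y, v⟩ := s
      simp only
      cases h' : spl g v with
      | none => simp
      | some s' =>
        obtain ⟨u', y', v'⟩ := s'
        simp only [List.map_cons, List.map_nil, List.getD_cons_zero, List.getD_cons_succ,
          Pi.add_apply, FT, cA]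
        by_cases hq : q ≤ δ y y'
        · simp [hq]
        · simp [hq]

/-- the recursive calls of `U` -/
def lU (g : ℕ → ℕ → Bool) (b : List ℕ × ℕ) : List (List ℕ × ℕ) :=
  Option.casesOn (spl g b.1) [] fun s : List ℕ × ℕ × List ℕ => [(s.1, b.2)]

/-- the step of `U` -/
def gU (g : ℕ → ℕ → Bool) (δ : ℕ → ℕ → ℕ) (b : List ℕ × ℕ) (L : List A) : Option A :=
  some (Option.casesOn (spl g b.1) 0 fun s : List ℕ × ℕ × List ℕ => L.getD 0 0 + M g δ s.2.2 b.2)

lemma pr_U (hg : Primrec₂ g) (hδ : Primrec₂ δ) :
    Primrec (fun t : List ℕ × ℕ => U g δ t.1 t.2) := by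
  have hs := pr_spl hg
  have hM := pr_M hg hδ
  have hadd : Primrec₂ (fun x y : A => x + y) := Primrec.dom_finite _
  have hl : Primrec (lU g) := by
    refine Primrec.option_casesOn (hs.comp fst) (const []) ?_
    exact list_cons.comp (pair (fst.comp snd) (snd.comp fst)) (const [])
  have hgU : Primrec₂ (gU g δ) := by
    refine option_some.comp ?_
    refine Primrec.option_casesOn (hs.comp (fst.comp fst)) (const 0) ?_
    refine hadd.comp ?_ ?_
    · exact (list_getD (0 : A)).comp (snd.comp fst) (const 0)
    · exact hM.comp (pair (snd.comp (snd.comp snd)) (snd.comp (fst.comp fst)))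
  refine Primrec.nat_omega_rec' _ (m := fun b => b.1.length) (l := lU g) (g := gU g δ)
    (list_length.comp fst) hl hgU ?_ ?_
  · rintro ⟨w, q⟩ b' hb'
    unfold lU at hb'
    simp only at hb'
    cases h : spl g w with
    | none => rw [h] at hb'; simp at hb'
    | some s =>
      obtain ⟨u, y, v⟩ := s
      rw [h] at hb'
      simp only [List.mem_singleton] at hb'
      subst hb'
      exact (spl_length g h).1
  · rintro ⟨w, q⟩
    unfold gU lU
    simp only
    rw [U_eq w]
    cases h : spl g w with
    | none => rfl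
    | some s =>
      obtain ⟨u, y, v⟩ := s
      simp

end PR1_aux

open PR1_aux

theorem iPR1 : StPR1 := by
  intro g δ hg hδ
  refine ⟨pr_M hg hδ, ?_⟩
  have hf : Primrec fT := Primrec.dom_finite _
  have h1 : Primrec (fun w : List ℕ => M g δ w 0) :=
    (pr_M hg hδ).comp (Primrec.pair Primrec.id (Primrec.const 0))
  have h2 : Primrec (fun w : List ℕ => U g δ w 0) :=
    (pr_U hg hδ).comp (Primrec.pair Primrec.id (Primrec.const 0))
  exact Primrec.pair (hf.comp h1) (hf.comp h2)

end Pool.Agent.Work.MP_69fea5_lc.TJ
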