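import Pool.Agent.Work.MP_69fea5_lc.DJMain

set_option autoImplicit false

/-! The third jump: definitions (painter, letters, colouring). -/

namespace Pool.Agent.Work.MP_69fea5_lc.TJ

open Pool.Agent.Work.MP_69fea5_lc.DJ (bits lo hi S V Bl lam mu chi seg)

/-! ### The table -/

/-- The group of the register values, an elementary abelian group of order 16. -/
abbrev A := Fin 2 × Fin 2 × Fin 2 × Fin 2

/-- The colour of a register value. -/
def fT (x : A) : Fin 8 :=
  (![![![![0, 4], ![6, 7]], ![![3, 2], ![5, 1]]], ![![![1, 6], ![7, 5]], ![![2, 0], ![4, 3]]]] :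
    Fin 2 → Fin 2 → Fin 2 → Fin 2 → Fin 8) x.1 x.2.1 x.2.2.1 x.2.2.2

/-- The receipts. -/
def eT (a : Fin 8) : A :=
  (![0, 1, 0, 1, 0, 1, 0, 1] a, ![0, 0, 1, 1, 0, 0, 1, 1] a, ![0, 0, 0, 0, 1, 1, 1, 1] a, 1)

/-- The colours allowed as a top receipt. -/
def R1 (a : Fin 8) : Prop := a = 0 ∨ a = 2 ∨ a = 4 ∨ a = 6

instance (a : Fin 8) : Decidable (R1 a) := by unfold R1; infer_instance

lemma table_a : ∀ (x : A) (a b : Fin 8), a ≠ b → fT (x + (eT a - eT b)) ≠ fT x := by decide

lemma table_b : ∀ (x : A) (a : Fin 8), R1 a → fT (x + eT a) ≠ fT x := by decide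

lemma table_c : ∀ x : A, R1 (fT (x - eT (fT x))) := by decide

lemma table_2 : ∀ x : A, x + x = 0 := by decide

/-! ### Words and the painter -/

section painter

variable (g : ℕ → ℕ → Bool) (δ : ℕ → ℕ → ℕ)

/-- `spl g w = some (u, y, v)` iff `w = u ++ y :: v` and `y` is the last occurrence of the maximum of
`w` (for the strict order `g`: `g a b = true` means that `a` is larger than `b`). -/
def spl : List ℕ → Option (List ℕ × ℕ × List ℕ)
  | [] => none
  | a :: w => match spl w with
    | none => some ([], a, [])
    | some (u, y, v) => if g a y = true then some ([], a, w) else some (a :: u, y, v)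

/-- Execution at coordinate `p` in a register vector. The vectors are given by their tail sums:
`G q` is the sum of all the registers with index `≥ q`. -/
def FT (p : ℕ) (G : ℕ → A) (q : ℕ) : A :=
  if q ≤ p then G q - G (p + 1) + eT (fT (G (p + 1))) else 0

lemma spl_length {w u v : List ℕ} {y : ℕ} (h : spl g w = some (u, y, v)) :
    u.length < w.length ∧ v.length < w.length := by
  induction w generalizing u v y with
  | nil => simp [spl] at h
  | cons a w ih =>
    rw [spl] at h
    cases hw : spl g w with
    | none =>
      rw [hw] at h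
      simp only [Option.some.injEq, Prod.mk.injEq] at h
      obtain ⟨rfl, -, rfl⟩ := h
      simp
    | some z =>
      obtain ⟨u', y', v'⟩ := z
      rw [hw] at h
      have := ih hw
      simp only at h
      split_ifs at h with hg
      · simp only [Option.some.injEq, Prod.mk.injEq] at h
        obtain ⟨rfl, -, rfl⟩ := h
        simp
      · simp only [Option.some.injEq, Prod.mk.injEq] at h
        obtain ⟨rfl, -, rfl⟩ := h
        simp
        omega

set_option linter.unusedVariables false in
/-- The state of the root, all children of which are marked nodes. -/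
def M (w : List ℕ) : ℕ → A :=
  match h : spl g w with
  | none => 0
  | some (u, y, v) => M u + (match h' : spl g v with
    | none => 0
    | some (_, y', v') => FT (δ y y') (M v'))
termination_by w.length
decreasing_by
  · exact (spl_length g h).1
  · exact (spl_length g h').2.trans (spl_length g h).2

set_option linter.unusedVariables false in
/-- The state of the root, all children of which are unmarked nodes. -/
def U (w : List ℕ) : ℕ → A :=
  match h : spl g w with
  | none => 0
  | some (u, _, v) => U u + M g δ v
termination_by w.length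
decreasing_by
  · exact (spl_length g h).1

/-- The value of a marked node with letter `y` and contents `v`. -/
def node (y : ℕ) (v : List ℕ) : ℕ → A :=
  match spl g v with
  | none => 0
  | some (_, y', v') => FT (δ y y') (M g δ v')

/-- The colour of a word. -/
def colW (w : List ℕ) : Fin 8 × Fin 8 := (fT (M g δ w 0), fT (U g δ w 0))

/-- `g` is a strict linear order and `δ` a scale function. -/
structure Good : Prop where
  irrefl : ∀ a, g a a = false
  trans : ∀ a b c, g a b = true → g b c = true → g a c = true
  total : ∀ a b, a ≠ b → g a b = true ∨ g b a = true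
  scale : ∀ a b c, g a b = true → g b c = true → δ a c = min (δ a b) (δ b c)

/-- `w = u ++ y :: v` and `y` is the last occurrence of the maximum of `w`. -/
def Dec (w u : List ℕ) (y : ℕ) (v : List ℕ) : Prop :=
  w = u ++ y :: v ∧ (∀ x ∈ u, g x y = false) ∧ ∀ x ∈ v, g y x = true

/-- The number of letters `> D` of the word which are open at its end (larger than all later
letters). -/
def opn (D : ℕ) : List ℕ → ℕ
  | [] => 0
  | a :: w => (if g a D = true ∧ ∀ x ∈ w, g a x = true then 1 else 0) + opn D w

end painter

/-- Blocks with their joints: `w a₁ ++ c a₁ :: w a₂ ++ c a₂ :: ⋯ ++ w aₙ`. -/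
def join (w : ℕ → List ℕ) (c : ℕ → ℕ) : List ℕ → List ℕ
  | [] => []
  | [a] => w a
  | a :: b :: s => w a ++ c a :: join w c (b :: s)

/-! ### Letters -/

/-- The order of the letters (masks of finite sets of numbers): at the least number in which they
differ the larger letter has it. -/
def gt (e e' : ℕ) : Bool :=
  decide (∃ v < e, e.testBit v = true ∧ e'.testBit v = false ∧ ∀ w < v, e.testBit w = e'.testBit w)

/-- The length of the common initial segment of two masks. -/
def dl (e e' : ℕ) : ℕ :=
  ((List.range e).filter (fun v => e.testBit v = true ∧ e'.testBit v = true ∧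
    ∀ w < v, e.testBit w = e'.testBit w)).length

section letters

variable (R : ℕ → ℕ → ℕ → Bool)

/-- All the members of `e` have reached `k` by stage `s`. -/
def rch (e k s : ℕ) : Prop := k ≤ s ∧ ∀ v ∈ bits e, ∀ b < k, ∃ c < s, R v b c = true

instance (e k s : ℕ) : Decidable (rch R e k s) := by unfold rch; infer_instance

/-- The members of `e` are codes of different facts below `l`. -/
def vld (l e : ℕ) : Prop :=
  (∀ v ∈ bits e, v.unpair.1 < l) ∧ ∀ v ∈ bits e, ∀ v' ∈ bits e, v.unpair.1 = v'.unpair.1 → v = v'

instance (l e : ℕ) : Decidable (vld l e) := by unfold vld; infer_instance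

/-- `e` is visited at a stage in `(a, b]`. -/
def vis (l e a b : ℕ) : Prop :=
  vld l e ∧ e ≠ 0 ∧ ∃ k < b + 1, e < 2 ^ k ∧ rch R e k b ∧ ¬ rch R e k a

instance (l e a b : ℕ) : Decidable (vis R l e a b) := by unfold vis; infer_instance

/-- The letter of the gap `(a, b)`: the largest mask visited in `(a, b]`, `0` if there is none. -/
def letter (l a b : ℕ) : ℕ :=
  (List.range (2 ^ b)).foldl (fun m e => if vis R l e a b ∧ gt e m = true then e else m) 0

/-- The word of a list of positions. -/
def word (l : ℕ) : List ℕ → List ℕ
  | [] => []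
  | [_] => []
  | a :: b :: L => letter R l a b :: word l (b :: L)

/-- The colouring. -/
def colT (n : ℕ) : Fin 8 × Fin 8 := colW gt dl (word R (lo (bits n)) (bits n))

/-- `e` is the best letter visited after stage `a`. -/
def IsBest (l a e : ℕ) : Prop :=
  (∃ b, vis R l e a b) ∧ ∀ e' b, vis R l e' a b → e' = e ∨ gt e e' = true

/-- `v` is infinitary. -/
def Inf (v : ℕ) : Prop := ∀ b, ∃ c, R v b c = true

/-- The fact `0` is false, its codes are dummies that reach `v + 1`. -/
def Dummy : Prop := ∀ v b c, v.unpair.1 = 0 → (R v b c = true ↔ b ≤ v)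

/-- `σ` is the set of the least infinitary codes of the true facts below `l`. -/
structure Sig (l σ : ℕ) : Prop where
  inf : ∀ v ∈ bits σ, Inf R v
  vld : vld l σ
  least : ∀ v, Inf R v → v.unpair.1 < l → ∃ v' ∈ bits σ, v'.unpair.1 = v.unpair.1 ∧ v' ≤ v

end letters

/-- `σ` is an initial segment of `e`. -/
def Pre (σ e : ℕ) : Prop := ∀ v, σ.testBit v = true → ∀ w ≤ v, e.testBit w = σ.testBit w

/-! ### The universal `Σ⁰₃` predicate -/

/-- A code `v` is a pair `(q, j)`, `q = 0` is the dummy fact and `q = pair e n + 1` stands for
`∀ b, ∃ c`: the program `e` halts on `(n, j, b)` in time `c`. -/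
def R₀ (v b c : ℕ) : Bool :=
  if v.unpair.1 = 0 then decide (b ≤ v) else
    (Nat.Partrec.Code.evaln c
      (Denumerable.ofNat Nat.Partrec.Code (v.unpair.1 - 1).unpair.1)
      (Nat.pair (v.unpair.1 - 1).unpair.2 (Nat.pair v.unpair.2 b))).isSome

end Pool.Agent.Work.MP_69fea5_lc.TJ
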