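import Pool.Agent.Work.MP_69fea5_lc.TJ.Stmts

set_option autoImplicit false

/-! F1: the universal `Σ⁰₃` predicate. -/

namespace Pool.Agent.Work.MP_69fea5_lc.TJ

open Pool.Agent.Work.MP_69fea5_lc.DJ (bits lo hi S V Bl lam mu chi seg)

namespace F1_aux

open Primrec Nat.Partrec
open Pool.Agent.Work.MP_69fea5_lc.DJ (pr_u1 pr_u2 exists_code_search)

lemma dummy : Dummy R₀ := by
  intro v b c h
  unfold R₀
  rw [if_pos h]
  simp

lemma prim : Primrec fun t : ℕ × ℕ × ℕ => R₀ t.1 t.2.1 t.2.2 := by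
  have hv : Primrec fun t : ℕ × ℕ × ℕ => t.1.unpair.1 := pr_u1.comp fst
  have hj : Primrec fun t : ℕ × ℕ × ℕ => t.1.unpair.2 := pr_u2.comp fst
  have hq : Primrec fun t : ℕ × ℕ × ℕ => t.1.unpair.1 - 1 := Primrec.nat_sub.comp hv (const 1)
  have hb : Primrec fun t : ℕ × ℕ × ℕ => t.2.1 := fst.comp snd
  have hc : Primrec fun t : ℕ × ℕ × ℕ => t.2.2 := snd.comp snd
  have he : Primrec fun t : ℕ × ℕ × ℕ => Code.evaln t.2.2
      (Denumerable.ofNat Code (t.1.unpair.1 - 1).unpair.1)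
      (Nat.pair (t.1.unpair.1 - 1).unpair.2 (Nat.pair t.1.unpair.2 t.2.1)) :=
    Code.primrec_evaln.comp ((hc.pair ((Primrec.ofNat Code).comp (pr_u1.comp hq))).pair
      (Primrec₂.natPair.comp (pr_u2.comp hq) (Primrec₂.natPair.comp hj hb)))
  have h1 : PrimrecPred fun t : ℕ × ℕ × ℕ => t.1.unpair.1 = 0 := Primrec.eq.comp hv (const 0)
  have h2 : Primrec fun t : ℕ × ℕ × ℕ => decide (t.2.1 ≤ t.1) :=
    (Primrec.nat_le.comp hb fst).decide
  exact Primrec.ite h1 h2 (option_isSome.comp he)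

lemma comp {Q : ℕ → ℕ → ℕ → ℕ → Bool}
    (hQ : Computable fun t : ℕ × ℕ × ℕ × ℕ => Q t.1 t.2.1 t.2.2.1 t.2.2.2) :
    Computable₂ fun (x u : ℕ) => Q x.unpair.1 x.unpair.2.unpair.1 x.unpair.2.unpair.2 u := by
  have g1 : Primrec fun u : ℕ × ℕ => u.1.unpair.1 := pr_u1.comp fst
  have g2 : Primrec fun u : ℕ × ℕ => u.1.unpair.2.unpair.1 := pr_u1.comp (pr_u2.comp fst)
  have g3 : Primrec fun u : ℕ × ℕ => u.1.unpair.2.unpair.2 := pr_u2.comp (pr_u2.comp fst)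
  have g4 : Computable fun u : ℕ × ℕ =>
      (u.1.unpair.1, u.1.unpair.2.unpair.1, u.1.unpair.2.unpair.2, u.2) :=
    (g1.pair (g2.pair (g3.pair snd))).to_comp
  exact Computable.comp (f := fun t : ℕ × ℕ × ℕ × ℕ => Q t.1 t.2.1 t.2.2.1 t.2.2.2)
    (g := fun u : ℕ × ℕ =>
      (u.1.unpair.1, u.1.unpair.2.unpair.1, u.1.unpair.2.unpair.2, u.2)) hQ g4

lemma inf_iff (cd : Code) (n s q : ℕ) (hq : q = Nat.pair (Encodable.encode cd) n + 1) :
    Inf R₀ (Nat.pair q s) ↔ ∀ t, (Code.eval cd (Nat.pair n (Nat.pair s t))).Dom := by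
  subst hq
  unfold Inf
  refine forall_congr' (fun t => ?_)
  unfold R₀
  simp only [Nat.unpair_pair, Nat.add_sub_cancel, Denumerable.ofNat_encode]
  rw [Part.dom_iff_mem]
  simp only [Nat.add_eq_zero_iff, one_ne_zero, and_false, if_false, Code.evaln_complete,
    Option.isSome_iff_exists, Option.mem_def]
  exact ⟨fun ⟨m, v, h⟩ => ⟨v, m, h⟩, fun ⟨v, m, h⟩ => ⟨m, v, h⟩⟩

end F1_aux

theorem iF1 : StF1 := by
  refine ⟨F1_aux.dummy, F1_aux.prim, fun T Q hQ hT => ?_⟩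
  obtain ⟨cd, hcd⟩ := Pool.Agent.Work.MP_69fea5_lc.DJ.exists_code_search (F1_aux.comp hQ)
  refine ⟨Encodable.encode cd, fun n => ?_⟩
  rw [hT]
  constructor
  · rintro ⟨s, hs⟩
    refine ⟨Nat.pair (Nat.pair (Encodable.encode cd) n + 1) s, ?_, by rw [Nat.unpair_pair]⟩
    rw [F1_aux.inf_iff cd n s _ rfl]
    intro t
    rw [hcd]
    simpa using hs t
  · rintro ⟨v, hv, hv1⟩
    have hv2 : v = Nat.pair (Nat.pair (Encodable.encode cd) n + 1) v.unpair.2 := by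
      rw [← hv1, Nat.pair_unpair]
    rw [hv2, F1_aux.inf_iff cd n _ _ rfl] at hv
    refine ⟨v.unpair.2, fun t => ?_⟩
    have := hv t
    rw [hcd] at this
    simpa using this

end Pool.Agent.Work.MP_69fea5_lc.TJ
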