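import Pool.Agent.Work.MP_69fea5_lc.TJ.Stmts
import Pool.Agent.Work.MP_69fea5_lc.Comp

set_option autoImplicit false

/-! F2: a set that computes all `Σ⁰₂` sets computes the best letters and the infinitary codes. -/

namespace Pool.Agent.Work.MP_69fea5_lc.TJ

open Pool.Agent.Work.MP_69fea5_lc.DJ (bits lo hi S V Bl lam mu chi seg prim_rec)

namespace F2b_aux

open Classical in
/-- The complement. -/
lemma cmpl {O : Set (ℕ →. ℕ)} {T : Set ℕ} (h : Nat.RecursiveIn O (chi Tᶜ)) :
    Nat.RecursiveIn O (chi T) := by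
  have h1 : chi Tᶜ = fun n => Part.some (if n ∈ T then 0 else 1) := by
    funext n
    by_cases hn : n ∈ T <;> simp [chi, hn]
  rw [h1] at h
  have h2 := comp_tot (prim_rec (O := O) (Primrec.nat_sub.comp (Primrec.const 1) Primrec.id)) h
  refine h2.of_eq (fun n => ?_)
  by_cases hn : n ∈ T <;> simp [chi, hn]

end F2b_aux

open F2b_aux in
theorem iF2 (h1 : StF1) (h2 : StPR2) : StF2 := by
  intro X hX
  have hR := h1.2.1
  obtain ⟨hgt, -, hr⟩ := h2
  obtain ⟨hvis, -, -⟩ := hr R₀ hR
  constructor
  · refine hX BestSet (fun n s t =>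
      decide (vis R₀ n.unpair.1 n.unpair.2.unpair.2 n.unpair.2.unpair.1 s) &&
      (!decide (vis R₀ n.unpair.1 t.unpair.1 n.unpair.2.unpair.1 t.unpair.2) ||
        (decide (t.unpair.1 = n.unpair.2.unpair.2) || gt n.unpair.2.unpair.2 t.unpair.1))) ?_ ?_
    · apply Primrec.to_comp
      have u1 : Primrec fun t : ℕ => t.unpair.1 := Primrec.fst.comp Primrec.unpair
      have u2 : Primrec fun t : ℕ => t.unpair.2 := Primrec.snd.comp Primrec.unpair
      have hn : Primrec fun t : ℕ × ℕ × ℕ => t.1 := Primrec.fst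
      have hs : Primrec fun t : ℕ × ℕ × ℕ => t.2.1 := Primrec.fst.comp Primrec.snd
      have ht : Primrec fun t : ℕ × ℕ × ℕ => t.2.2 := Primrec.snd.comp Primrec.snd
      have hl := u1.comp hn
      have ha := u1.comp (u2.comp hn)
      have he := u2.comp (u2.comp hn)
      have hvd : Primrec fun t : ℕ × ℕ × ℕ × ℕ =>
          decide (vis R₀ t.1 t.2.1 t.2.2.1 t.2.2.2) := hvis.decide
      have hA := hvd.comp (hl.pair (he.pair (ha.pair hs)))
      have hB := hvd.comp (hl.pair ((u1.comp ht).pair (ha.pair (u2.comp ht))))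
      have hC : Primrec fun t : ℕ × ℕ × ℕ => decide (t.2.2.unpair.1 = t.1.unpair.2.unpair.2) :=
        (Primrec.eq.comp (u1.comp ht) he).decide
      have hD := hgt.comp he (u1.comp ht)
      exact Primrec.and.comp hA (Primrec.or.comp (Primrec.not.comp hB) (Primrec.or.comp hC hD))
    · intro n
      simp only [BestSet, Set.mem_ofPred_eq, IsBest, Bool.and_eq_true, Bool.or_eq_true,
        decide_eq_true_eq, Bool.not_eq_true', decide_eq_false_iff_not]
      constructor
      · rintro ⟨⟨b, hb⟩, h⟩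
        refine ⟨b, fun t => ⟨hb, ?_⟩⟩
        by_cases hv : vis R₀ n.unpair.1 t.unpair.1 n.unpair.2.unpair.1 t.unpair.2
        · exact Or.inr (h _ _ hv)
        · exact Or.inl hv
      · rintro ⟨s, h⟩
        refine ⟨⟨s, (h 0).1⟩, fun e' b hv => ?_⟩
        have h3 := (h (Nat.pair e' b)).2
        simp only [Nat.unpair_pair] at h3
        rcases h3 with h3 | h3
        · exact absurd hv h3
        · exact h3
  · apply cmpl
    refine hX _ (fun v b c => !R₀ v b c) ?_ ?_
    · exact (Primrec.not.comp hR).to_comp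
    · intro n
      simp only [Set.mem_compl_iff, Set.mem_ofPred_eq, Inf, Bool.not_eq_true', not_forall,
        not_exists, Bool.not_eq_true]

end Pool.Agent.Work.MP_69fea5_lc.TJ
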