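import Pool.Agent.Work.MP_69fea5_lc.TJ.Stmts

set_option autoImplicit false

/-! L2: the letter of a gap and the best letter. -/

namespace Pool.Agent.Work.MP_69fea5_lc.TJ

open Pool.Agent.Work.MP_69fea5_lc.DJ (bits lo hi S V Bl lam mu chi seg)

namespace L2_aux

open Pool.Agent.Work.MP_69fea5_lc.DJ (mem_bits)

lemma rch_mono {R : ℕ → ℕ → ℕ → Bool} {e k s s' : ℕ} (h : rch R e k s) (hs : s ≤ s') :
    rch R e k s' := by
  refine ⟨h.1.trans hs, fun v hv b hb => ?_⟩
  obtain ⟨c, hc, hR⟩ := h.2 v hv b hb
  exact ⟨c, lt_of_lt_of_le hc hs, hR⟩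

lemma vis_mono {R : ℕ → ℕ → ℕ → Bool} {l e a b a' b' : ℕ} (h : vis R l e a b) (ha : a' ≤ a)
    (hb : b ≤ b') : vis R l e a' b' := by
  obtain ⟨hv, h0, k, hk, hek, h1, h2⟩ := h
  exact ⟨hv, h0, k, by omega, hek, rch_mono h1 hb, fun h => h2 (rch_mono h ha)⟩

lemma vis_lt {R : ℕ → ℕ → ℕ → Bool} {l e a b : ℕ} (h : vis R l e a b) : e < 2 ^ b := by
  obtain ⟨-, -, k, hk, hek, -, -⟩ := h
  exact lt_of_lt_of_le hek (Nat.pow_le_pow_right (by norm_num) (by omega))

/-- The fold of the maximum. -/
lemma fold_max (g : ℕ → ℕ → Bool) (p : ℕ → Prop) [DecidablePred p]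
    (htrans : ∀ a b c, g a b = true → g b c = true → g a c = true)
    (htotal : ∀ a b, a ≠ b → g a b = true ∨ g b a = true)
    (L : List ℕ) (m₀ : ℕ) :
    (L.foldl (fun m e => if p e ∧ g e m = true then e else m) m₀ = m₀ ∨
      p (L.foldl (fun m e => if p e ∧ g e m = true then e else m) m₀)) ∧
    (m₀ = L.foldl (fun m e => if p e ∧ g e m = true then e else m) m₀ ∨
      g (L.foldl (fun m e => if p e ∧ g e m = true then e else m) m₀) m₀ = true) ∧
    ∀ e ∈ L, p e → e = L.foldl (fun m e => if p e ∧ g e m = true then e else m) m₀ ∨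
      g (L.foldl (fun m e => if p e ∧ g e m = true then e else m) m₀) e = true := by
  induction L generalizing m₀ with
  | nil => simp
  | cons x L ih =>
    rw [List.foldl_cons]
    by_cases hx : p x ∧ g x m₀ = true
    · rw [if_pos hx]
      obtain ⟨h1, h2, h3⟩ := ih x
      refine ⟨?_, ?_, ?_⟩
      · right
        rcases h1 with h1 | h1
        · rw [h1]; exact hx.1
        · exact h1
      · right
        rcases h2 with h2 | h2
        · rw [← h2]; exact hx.2
        · exact htrans _ _ _ h2 hx.2
      · intro e he hpe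
        rcases List.mem_cons.mp he with rfl | he
        · exact h2
        · exact h3 e he hpe
    · rw [if_neg hx]
      obtain ⟨h1, h2, h3⟩ := ih m₀
      refine ⟨h1, h2, ?_⟩
      intro e he hpe
      rcases List.mem_cons.mp he with rfl | he
      · have hg : ¬ g e m₀ = true := fun h => hx ⟨hpe, h⟩
        by_cases hem : e = m₀
        · rw [hem]; exact h2
        · have hg' : g m₀ e = true := (htotal e m₀ hem).resolve_left hg
          rcases h2 with h2 | h2
          · right; rw [← h2]; exact hg'
          · right; exact htrans _ _ _ h2 hg'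
      · exact h3 e he hpe

/-- Existence of the greatest mask. -/
lemma exists_best (hgt : ∀ e e', gt e e' = true ↔
      ∃ v, e.testBit v = true ∧ e'.testBit v = false ∧ ∀ w < v, e.testBit w = e'.testBit w)
    (n : ℕ) : ∀ P : ℕ → Prop, (∃ e, P e) → (∀ e, P e → (bits e).toFinset.card ≤ n) →
      ∃ e, P e ∧ ∀ e', P e' → e' = e ∨ gt e e' = true := by
  classical
  induction n with
  | zero =>
    rintro P ⟨e, he⟩ hc
    have h0 : ∀ e, P e → e = 0 := by
      intro e he
      have := hc e he
      rw [Nat.le_zero, Finset.card_eq_zero] at this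
      refine Nat.eq_of_testBit_eq fun i => ?_
      rw [Nat.zero_testBit]
      by_contra hi
      have hm : i ∈ (bits e).toFinset := List.mem_toFinset.mpr (mem_bits.mpr (by simpa using hi))
      rw [this] at hm
      exact absurd hm (Finset.notMem_empty i)
    exact ⟨e, he, fun e' he' => Or.inl ((h0 e' he').trans (h0 e he).symm)⟩
  | succ n ih =>
    rintro P ⟨e, he⟩ hc
    by_cases hz : ∃ v, ∃ e, P e ∧ e.testBit v = true
    · set v := Nat.find hz with hv
      obtain ⟨e₁, he₁, hb₁⟩ := Nat.find_spec hz
      have hmin : ∀ w < v, ∀ e, P e → e.testBit w = false := by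
        intro w hw e he
        by_contra h
        exact Nat.find_min hz hw ⟨e, he, by simpa using h⟩
      obtain ⟨f, ⟨hPf, hvf⟩, hf⟩ := ih (fun f => P (f ^^^ 2 ^ v) ∧ f.testBit v = false)
        ⟨e₁ ^^^ 2 ^ v, by
          show P ((e₁ ^^^ 2 ^ v) ^^^ 2 ^ v) ∧ _
          rw [Nat.xor_assoc, Nat.xor_self, Nat.xor_zero]
          refine ⟨he₁, ?_⟩
          rw [Nat.testBit_xor, Nat.testBit_two_pow_self, hb₁]
          rfl⟩
        (by
          rintro f ⟨h1, h2⟩
          have h3 := hc _ h1
          have h4 : v ∈ (bits (f ^^^ 2 ^ v)).toFinset := by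
            rw [List.mem_toFinset, mem_bits, Nat.testBit_xor, Nat.testBit_two_pow_self, h2]
            rfl
          have h5 : (bits f).toFinset ⊆ (bits (f ^^^ 2 ^ v)).toFinset.erase v := by
            intro w hw
            rw [List.mem_toFinset, mem_bits] at hw
            have hwv : w ≠ v := by
              rintro rfl
              rw [h2] at hw
              exact Bool.noConfusion hw
            rw [Finset.mem_erase, List.mem_toFinset, mem_bits, Nat.testBit_xor,
              Nat.testBit_two_pow_of_ne (Ne.symm hwv), hw]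
            exact ⟨hwv, rfl⟩
          have h6 := Finset.card_le_card h5
          rw [Finset.card_erase_of_mem h4] at h6
          omega)
      refine ⟨f ^^^ 2 ^ v, hPf, fun e' he' => ?_⟩
      have hfv : (f ^^^ 2 ^ v).testBit v = true := by
        rw [Nat.testBit_xor, Nat.testBit_two_pow_self, hvf]
        rfl
      by_cases hev : e'.testBit v = true
      · rcases hf (e' ^^^ 2 ^ v) ⟨by
          rw [Nat.xor_assoc, Nat.xor_self, Nat.xor_zero]; exact he', by
          rw [Nat.testBit_xor, Nat.testBit_two_pow_self, hev]; rfl⟩ with h | h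
        · left
          rw [← h, Nat.xor_assoc, Nat.xor_self, Nat.xor_zero]
        · right
          obtain ⟨u, hu1, hu2, hu3⟩ := (hgt _ _).mp h
          have huv : u ≠ v := by
            rintro rfl
            rw [hvf] at hu1
            exact Bool.noConfusion hu1
          refine (hgt _ _).mpr ⟨u, ?_, ?_, ?_⟩
          · rw [Nat.testBit_xor, Nat.testBit_two_pow_of_ne (Ne.symm huv), hu1]
            rfl
          · rw [Nat.testBit_xor, Nat.testBit_two_pow_of_ne (Ne.symm huv)] at hu2
            simpa using hu2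
          · intro w hw
            have h7 := hu3 w hw
            rw [Nat.testBit_xor] at h7
            rw [Nat.testBit_xor, h7]
            simp
      · right
        have hev' : e'.testBit v = false := by simpa using hev
        refine (hgt _ _).mpr ⟨v, hfv, hev', fun w hw => ?_⟩
        rw [hmin w hw _ hPf, hmin w hw _ he']
    · have h0 : ∀ e, P e → e = 0 := by
        intro e he
        refine Nat.eq_of_testBit_eq fun i => ?_
        rw [Nat.zero_testBit]
        by_contra hi
        exact hz ⟨i, e, he, by simpa using hi⟩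
      exact ⟨e, he, fun e' he' => Or.inl ((h0 e' he').trans (h0 e he).symm)⟩

lemma card_le_of_vld {l e : ℕ} (h : vld l e) : (bits e).toFinset.card ≤ l := by
  have h1 : (bits e).toFinset.card ≤ (Finset.range l).card := by
    refine Finset.card_le_card_of_injOn (fun v => v.unpair.1) ?_ ?_
    · intro v hv
      have hv' : v ∈ bits e := List.mem_toFinset.mp hv
      simpa using h.1 v hv'
    · intro v hv v' hv' hvv
      exact h.2 v (List.mem_toFinset.mp hv) v' (List.mem_toFinset.mp hv') hvv
  simpa using h1

end L2_aux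

open L2_aux in
/-- L2: the letter of a gap and the best letter. -/
theorem iL2 (h1 : StL1) : StL2 := by
  obtain ⟨hG, h0, hgt, -⟩ := h1
  intro R
  refine ⟨fun l e a b a' b' h ha hb => vis_mono h ha hb, ?_, ?_⟩
  · intro l a b
    obtain ⟨h2, -, h3⟩ := fold_max gt (fun e => vis R l e a b) hG.trans hG.total
      (List.range (2 ^ b)) 0
    exact ⟨h2, fun e he => h3 e (List.mem_range.mpr (vis_lt he)) he⟩
  · rintro l a ⟨e, b, hb⟩
    obtain ⟨e₀, h2, h3⟩ := exists_best hgt l (fun e => ∃ b, vis R l e a b) ⟨e, b, hb⟩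
      (fun e ⟨b, hb⟩ => card_le_of_vld hb.1)
    exact ⟨e₀, h2, fun e' b' h' => h3 e' ⟨b', h'⟩⟩

end Pool.Agent.Work.MP_69fea5_lc.TJ
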