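import Pool.Agent.Work.MP_69fea5_lc.TJ.Stmts

set_option autoImplicit false

/-! L3: the set `σ` exists. -/

namespace Pool.Agent.Work.MP_69fea5_lc.TJ

open Pool.Agent.Work.MP_69fea5_lc.DJ (bits lo hi S V Bl lam mu chi seg)

namespace L3_aux

open Pool.Agent.Work.MP_69fea5_lc.DJ (mem_bits)

/-- The mask of a finite set. -/
lemma exists_mask (s : Finset ℕ) : ∃ σ : ℕ, ∀ i, i ∈ bits σ ↔ i ∈ s := by
  induction s using Finset.induction_on with
  | empty => exact ⟨0, fun i => by simp [mem_bits]⟩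
  | insert a s _ ih =>
    obtain ⟨σ, h⟩ := ih
    refine ⟨σ ||| 2 ^ a, fun i => ?_⟩
    rw [mem_bits, Nat.testBit_or, Bool.or_eq_true, ← mem_bits, h i, Nat.testBit_two_pow,
      Finset.mem_insert, decide_eq_true_eq]
    constructor
    · rintro (h | h)
      · exact Or.inr h
      · exact Or.inl h.symm
    · rintro (h | h)
      · exact Or.inr h.symm
      · exact Or.inl h

end L3_aux

theorem iL3 : StL3 := by
  classical
  intro R l
  let P : ℕ → Set ℕ := fun q => {v | Inf R v ∧ v.unpair.1 = q}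
  obtain ⟨σ, hσ⟩ := L3_aux.exists_mask
    (((Finset.range l).filter (fun q => (P q).Nonempty)).image (fun q => sInf (P q)))
  have key : ∀ v, v ∈ bits σ ↔ ∃ q < l, (P q).Nonempty ∧ sInf (P q) = v := by
    intro v
    rw [hσ v]
    simp only [Finset.mem_image, Finset.mem_filter, Finset.mem_range, and_assoc]
  have hmem : ∀ q, (P q).Nonempty → Inf R (sInf (P q)) ∧ (sInf (P q)).unpair.1 = q :=
    fun q hq => Nat.sInf_mem hq
  refine ⟨σ, ?_, ⟨?_, ?_⟩, ?_⟩
  · intro v hv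
    obtain ⟨q, -, hq, rfl⟩ := (key v).1 hv
    exact (hmem q hq).1
  · intro v hv
    obtain ⟨q, hql, hq, rfl⟩ := (key v).1 hv
    rw [(hmem q hq).2]
    exact hql
  · intro v hv v' hv' h
    obtain ⟨q, -, hq, rfl⟩ := (key v).1 hv
    obtain ⟨q', -, hq', rfl⟩ := (key v').1 hv'
    rw [(hmem q hq).2, (hmem q' hq').2] at h
    rw [h]
  · intro v hv hl
    have hne : (P v.unpair.1).Nonempty := ⟨v, hv, rfl⟩
    exact ⟨sInf (P v.unpair.1), (key _).2 ⟨v.unpair.1, hl, hne, rfl⟩, (hmem _ hne).2,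
      Nat.sInf_le ⟨hv, rfl⟩⟩

end Pool.Agent.Work.MP_69fea5_lc.TJ
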