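import Pool.Agent.Work.MP_69fea5_lc.TJ.Stmts

set_option autoImplicit false

/-! L4: the best letters after late stages. -/

namespace Pool.Agent.Work.MP_69fea5_lc.TJ

open Pool.Agent.Work.MP_69fea5_lc.DJ (bits lo hi S V Bl lam mu chi seg)

namespace L4_aux

open Pool.Agent.Work.MP_69fea5_lc.DJ (testBit_false_of_le mem_bits lt_of_mem_bits)

variable {R : ℕ → ℕ → ℕ → Bool}

lemma rch_mono {e k s s' : ℕ} (h : s ≤ s') (hr : rch R e k s) : rch R e k s' := by
  refine ⟨hr.1.trans h, fun v hv b hb => ?_⟩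
  obtain ⟨c, hc, hc'⟩ := hr.2 v hv b hb
  exact ⟨c, hc.trans_le h, hc'⟩

/-- A bound for finitely many stages. -/
lemma exists_bound (n : ℕ) (P : ℕ → ℕ → Prop) (hmono : ∀ b c c', c ≤ c' → P b c → P b c')
    (h : ∀ b < n, ∃ c, P b c) : ∃ c, ∀ b < n, P b c := by
  induction n with
  | zero => exact ⟨0, fun b hb => absurd hb (Nat.not_lt_zero b)⟩
  | succ n ih =>
    obtain ⟨c, hc⟩ := ih (fun b hb => h b (hb.trans (Nat.lt_succ_self n)))
    obtain ⟨c', hc'⟩ := h n (Nat.lt_succ_self n)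
    refine ⟨max c c', fun b hb => ?_⟩
    rcases (Nat.lt_succ_iff.mp hb).lt_or_eq with h1 | h1
    · exact hmono b c _ (le_max_left _ _) (hc b h1)
    · subst h1
      exact hmono b c' _ (le_max_right _ _) hc'

/-- Infinitary members reach every `k`. -/
lemma rch_exists {e k : ℕ} (h : ∀ v ∈ bits e, ∀ b < k, ∃ c, R v b c = true) :
    ∃ s, rch R e k s := by
  have h1 : ∃ s, ∀ v < e, v ∈ bits e → ∀ b < k, ∃ c < s, R v b c = true := by
    apply exists_bound e (fun v s => v ∈ bits e → ∀ b < k, ∃ c < s, R v b c = true)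
    · intro v c c' hcc h1 hv b hb
      obtain ⟨c₁, hc₁, hc₂⟩ := h1 hv b hb
      exact ⟨c₁, hc₁.trans_le hcc, hc₂⟩
    · intro v _
      by_cases hv : v ∈ bits e
      · obtain ⟨s, hs⟩ := exists_bound k (fun b s => ∃ c < s, R v b c = true)
          (by
            rintro b c c' hcc ⟨c₁, hc₁, hc₂⟩
            exact ⟨c₁, hc₁.trans_le hcc, hc₂⟩)
          (fun b hb => by
            obtain ⟨c, hc⟩ := h v hv b hb
            exact ⟨c + 1, c, Nat.lt_succ_self c, hc⟩)
        exact ⟨s, fun _ => hs⟩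
      · exact ⟨0, fun h => absurd h hv⟩
  obtain ⟨s, hs⟩ := h1
  refine ⟨max s k, le_max_right _ _, fun v hv b hb => ?_⟩
  have hve : v < e := by
    by_contra hc
    rw [mem_bits, testBit_false_of_le (not_lt.mp hc)] at hv
    exact Bool.noConfusion hv
  obtain ⟨c, hc, hc'⟩ := hs v hve hv b hb
  exact ⟨c, hc.trans_le (le_max_left _ _), hc'⟩

lemma not_inf_dummy (hD : Dummy R) {v : ℕ} (hv : v.unpair.1 = 0) : ¬ Inf R v := by
  intro h
  obtain ⟨c, hc⟩ := h (v + 1)
  have := (hD v (v + 1) c hv).mp hc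
  omega

/-- After every stage a mask with the segment `σ` is visited. -/
lemma exists_vis (hD : Dummy R) {l σ : ℕ} (hl : 1 ≤ l) (hσ : Sig R l σ) (a : ℕ) :
    ∃ e b, vis R l e a b ∧ ∃ v, e.testBit v = true ∧ σ.testBit v = false ∧
      ∀ w < v, e.testBit w = σ.testBit w := by
  set v := Nat.pair 0 (σ + a) with hv
  have hvσ : σ + a ≤ v := Nat.right_le_pair 0 (σ + a)
  have hσv : σ < 2 ^ v := lt_of_le_of_lt (by omega : σ ≤ v) Nat.lt_two_pow_self
  have hσv' : σ.testBit v = false := Nat.testBit_lt_two_pow hσv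
  have hfac : v.unpair.1 = 0 := by rw [hv, Nat.unpair_pair]
  have he1 : (2 ^ v + σ).testBit v = true := by
    rw [Nat.testBit_two_pow_add_eq, hσv']; rfl
  have he2 : ∀ w < v, (2 ^ v + σ).testBit w = σ.testBit w := fun w hw =>
    Nat.testBit_two_pow_add_gt hw σ
  have he3 : 2 ^ v + σ < 2 ^ (v + 1) := by rw [pow_succ]; omega
  have hmem : ∀ u ∈ bits (2 ^ v + σ), u = v ∨ u ∈ bits σ := by
    intro u hu
    have hu' : u < v + 1 := lt_of_mem_bits he3 hu
    rcases (Nat.lt_succ_iff.mp hu').lt_or_eq with h1 | h1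
    · right
      rw [mem_bits] at hu ⊢
      rw [← he2 u h1]; exact hu
    · exact Or.inl h1
  have hvl : vld l (2 ^ v + σ) := by
    refine ⟨fun u hu => ?_, fun u hu u' hu' huu => ?_⟩
    · rcases hmem u hu with h | h
      · rw [h, hfac]; omega
      · exact hσ.vld.1 u h
    · rcases hmem u hu with h | h <;> rcases hmem u' hu' with h' | h'
      · rw [h, h']
      · exfalso
        rw [h, hfac] at huu
        exact not_inf_dummy hD huu.symm (hσ.inf u' h')
      · exfalso
        rw [h', hfac] at huu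
        exact not_inf_dummy hD huu (hσ.inf u h)
      · exact hσ.vld.2 u h u' h' huu
  obtain ⟨b, hb⟩ : ∃ s, rch R (2 ^ v + σ) (v + 1) s := by
    apply rch_exists
    intro u hu b hb
    rcases hmem u hu with h | h
    · rw [h]
      exact ⟨0, (hD v b 0 hfac).mpr (Nat.lt_succ_iff.mp hb)⟩
    · exact hσ.inf u h b
  refine ⟨2 ^ v + σ, b, ⟨hvl, ?_, v + 1, ?_, he3, hb, ?_⟩, v, he1, hσv', he2⟩
  · have : 0 < 2 ^ v := by positivity
    omega
  · have := hb.1
    omega
  · intro h
    have := h.1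
    omega

/-- Masks with a member that is not infinitary are visited only finitely often. -/
lemma late {v : ℕ} (hv : ¬ Inf R v) (l : ℕ) :
    ∃ a₀, ∀ a, a₀ ≤ a → ∀ e b, vis R l e a b → e.testBit v = false := by
  unfold Inf at hv
  push Not at hv
  obtain ⟨b', hb'⟩ := hv
  have h1 : ∃ A, ∀ e < 2 ^ b', ∀ k < b' + 1, rch R e k A ∨ ∀ s, ¬ rch R e k s := by
    apply exists_bound (2 ^ b') (fun e A => ∀ k < b' + 1, rch R e k A ∨ ∀ s, ¬ rch R e k s)
    · intro e c c' hcc h k hk
      rcases h k hk with h | h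
      · exact Or.inl (rch_mono hcc h)
      · exact Or.inr h
    · intro e _
      apply exists_bound (b' + 1) (fun k A => rch R e k A ∨ ∀ s, ¬ rch R e k s)
      · intro k c c' hcc h
        rcases h with h | h
        · exact Or.inl (rch_mono hcc h)
        · exact Or.inr h
      · intro k _
        by_cases h : ∃ s, rch R e k s
        · obtain ⟨s, hs⟩ := h
          exact ⟨s, Or.inl hs⟩
        · exact ⟨0, Or.inr fun s hs => h ⟨s, hs⟩⟩
  obtain ⟨A, hA⟩ := h1
  refine ⟨A, fun a ha e b hvis => ?_⟩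
  obtain ⟨-, -, k, hkb, hek, hr, hnr⟩ := hvis
  by_contra hc
  rw [Bool.not_eq_false] at hc
  have hk : k ≤ b' := by
    by_contra hk
    obtain ⟨c, -, hc'⟩ := hr.2 v (mem_bits.mpr hc) b' (not_le.mp hk)
    exact hb' c hc'
  have he : e < 2 ^ b' := hek.trans_le (Nat.pow_le_pow_right (by norm_num) hk)
  rcases hA e he k (Nat.lt_succ_iff.mpr hk) with h | h
  · exact hnr (rch_mono ha h)
  · exact h b hr

lemma late_all (l m : ℕ) :
    ∃ a₀, ∀ v < m, ¬ Inf R v → ∀ a, a₀ ≤ a → ∀ e b, vis R l e a b → e.testBit v = false := by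
  apply exists_bound m
    (fun v a₀ => ¬ Inf R v → ∀ a, a₀ ≤ a → ∀ e b, vis R l e a b → e.testBit v = false)
  · intro v c c' hcc h hv a ha
    exact h hv a (hcc.trans ha)
  · intro v _
    by_cases hv : Inf R v
    · exact ⟨0, fun h => absurd hv h⟩
    · obtain ⟨a₀, h⟩ := late hv l
      exact ⟨a₀, fun _ => h⟩

end L4_aux

open L4_aux in
open Pool.Agent.Work.MP_69fea5_lc.DJ (mem_bits testBit_false_of_le) in
theorem iL4 (h1 : StL1) (h2 : StL2) : StL4 := by
  intro R hD l σ hl hσ
  obtain ⟨hgood, -, hgt, -⟩ := h1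
  obtain ⟨-, -, hbest⟩ := h2 R
  have hii : ∀ a e, IsBest R l a e → gt e σ = true := by
    intro a e he
    obtain ⟨e', b, hvis, hv⟩ := exists_vis hD hl hσ a
    have h3 : gt e' σ = true := (hgt e' σ).mpr hv
    rcases he.2 e' b hvis with h | h
    · rw [← h]; exact h3
    · exact hgood.trans e e' σ h h3
  refine ⟨fun a => ?_, hii, fun m => ?_⟩
  · obtain ⟨e', b, hvis, -⟩ := exists_vis hD hl hσ a
    exact hbest l a ⟨e', b, hvis⟩
  · obtain ⟨a₀, ha₀⟩ := late_all (R := R) l (max m (σ + 1))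
    refine ⟨a₀, fun a ha e he => ?_⟩
    obtain ⟨v, hv1, hv2, hv3⟩ := (hgt e σ).mp (hii a e he)
    obtain ⟨b, hvis⟩ := he.1
    have hninf : ¬ Inf R v := by
      intro hinf
      obtain ⟨v', hv', hfac, hle⟩ := hσ.least v hinf (hvis.1.1 v (mem_bits.mpr hv1))
      have hne : v' ≠ v := by
        rintro rfl
        rw [mem_bits, hv2] at hv'
        exact Bool.noConfusion hv'
      have hlt : v' < v := lt_of_le_of_ne hle hne
      have hv'e : v' ∈ bits e := by
        rw [mem_bits] at hv' ⊢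
        rw [hv3 v' hlt]; exact hv'
      exact hne (hvis.1.2 v' hv'e v (mem_bits.mpr hv1) hfac)
    have hge : max m (σ + 1) ≤ v := by
      by_contra hc
      have := ha₀ v (not_le.mp hc) hninf a ha e b hvis
      rw [hv1] at this
      exact Bool.noConfusion this
    refine ⟨fun u hu w hw => ?_, fun u hu hu' => ?_⟩
    · have huσ : u < σ := by
        by_contra hc
        rw [testBit_false_of_le (not_lt.mp hc)] at hu
        exact Bool.noConfusion hu
      have h4 := le_max_right m (σ + 1)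
      exact hv3 w (by omega)
    · have h4 := le_max_left m (σ + 1)
      rw [← hv3 u (by omega)]; exact hu'

end Pool.Agent.Work.MP_69fea5_lc.TJ
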