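import Pool.Agent.Work.MP_69fea5_lc.TJ.Stmts

set_option autoImplicit false

/-! L5: what the claim needs about letters. -/

namespace Pool.Agent.Work.MP_69fea5_lc.TJ

open Pool.Agent.Work.MP_69fea5_lc.DJ (bits lo hi S V Bl lam mu chi seg)

namespace L5_aux

open Pool.Agent.Work.MP_69fea5_lc.DJ (testBit_false_of_le filter_range_ext bits_eq mem_bits)

lemma cnt_eq (e v : ℕ) : (bits e).filter (fun w => decide (w < v)) =
    (List.range v).filter (fun w => e.testBit w) := by
  have h1 : bits e = (List.range (v + e)).filter (fun i => e.testBit i) :=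
    bits_eq _ _ (by omega)
  rw [h1, List.filter_filter,
    filter_range_ext (fun a => decide (a < v) && e.testBit a) v e
      (fun i hi => by simp [not_lt.mpr hi])]
  apply List.filter_congr
  intro u hu
  rw [List.mem_range] at hu
  simp [hu]

lemma cnt_congr {a b v : ℕ} (h : ∀ w < v, a.testBit w = b.testBit w) :
    ((bits a).filter (fun w => decide (w < v))).length =
      ((bits b).filter (fun w => decide (w < v))).length := by
  rw [cnt_eq, cnt_eq]
  congr 1
  apply List.filter_congr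
  intro u hu
  rw [List.mem_range] at hu
  exact h u hu

variable {R : ℕ → ℕ → ℕ → Bool}

lemma ne_zero_of_best {l a e : ℕ} (h : IsBest R l a e) : e ≠ 0 := by
  obtain ⟨⟨b, hb⟩, -⟩ := h
  exact hb.2.1

lemma asymm (h1 : StL1) {e e' : ℕ} (h : gt e e' = true) (h' : gt e' e = true) : False := by
  have h2 := h1.1.trans e e' e h h'
  rw [h1.1.irrefl e] at h2
  exact Bool.noConfusion h2

/-- The core: the first difference of `e` and `σ`. -/
lemma core (h1 : StL1) {l σ : ℕ}
    (h4 : ∀ m, ∃ a₀, ∀ a, a₀ ≤ a → ∀ e, IsBest R l a e →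
      Pre σ e ∧ ∀ v < m, e.testBit v = true → σ.testBit v = true)
    {e v₀ : ℕ} (he : e.testBit v₀ = true) (hσ : σ.testBit v₀ = false)
    (hag : ∀ w < v₀, e.testBit w = σ.testBit w) :
    ∃ b₀, ∀ b, b₀ ≤ b → ∀ e', IsBest R l b e' →
      gt e e' = true ∧
        dl e e' = ((bits σ).filter (fun w => decide (w < v₀))).length := by
  obtain ⟨b₀, hb₀⟩ := h4 (v₀ + 1)
  refine ⟨b₀, fun b hb e' he' => ?_⟩
  obtain ⟨hpre, hex⟩ := hb₀ b hb e' he'
  have hag' : ∀ w < v₀ + 1, e'.testBit w = σ.testBit w := by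
    intro w hw
    cases hc : σ.testBit w with
    | true =>
      rw [hpre w hc w le_rfl, hc]
    | false =>
      cases hc' : e'.testBit w with
      | true =>
        rw [hex w hw hc'] at hc
        exact hc
      | false => rfl
  have hv' : e'.testBit v₀ = false := (hag' v₀ (Nat.lt_succ_self v₀)).trans hσ
  have hagr : ∀ w < v₀, e.testBit w = e'.testBit w := fun w hw =>
    (hag w hw).trans (hag' w (hw.trans (Nat.lt_succ_self v₀))).symm
  refine ⟨(h1.2.2.1 e e').mpr ⟨v₀, he, hv', hagr⟩, ?_⟩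
  rw [h1.2.2.2 e e' v₀ (by rw [he, hv']; decide) hagr, cnt_congr hag]

end L5_aux

theorem iL5 (h1 : StL1) (h2 : StL2) (h4 : StL4) : StL5 := by
  intro R hD l σ hl hσ
  obtain ⟨hmono, hlet, -⟩ := h2 R
  obtain ⟨-, hgt, hlate⟩ := h4 R hD l σ hl hσ
  refine ⟨?_, ?_, ?_, ?_⟩
  · intro a e hbest
    obtain ⟨⟨b₁, hb₁⟩, hmax⟩ := hbest
    refine ⟨b₁, fun b hb => ?_⟩
    have hvis : vis R l e a b := hmono l e a b₁ a b hb₁ le_rfl hb
    obtain ⟨hz, hm⟩ := hlet l a b
    rcases hm e hvis with h | h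
    · exact h.symm
    · exfalso
      rcases hz with h0 | h0
      · rw [h0] at h
        exact L5_aux.asymm h1 h (h1.2.1 e hb₁.2.1)
      · rcases hmax _ b h0 with h' | h'
        · rw [h', h1.1.irrefl] at h
          exact Bool.noConfusion h
        · exact L5_aux.asymm h1 h h'
  · intro a e hbest hpre
    obtain ⟨v₀, he, hσ0, hag⟩ := (h1.2.2.1 e σ).mp (hgt a e hbest)
    obtain ⟨b₀, hb₀⟩ := L5_aux.core h1 hlate he hσ0 hag
    refine ⟨b₀, fun b hb e' he' => ?_⟩
    obtain ⟨h5, h6⟩ := hb₀ b hb e' he'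
    refine ⟨h5, h6.trans ?_⟩
    congr 1
    rw [List.filter_eq_self]
    intro v hv
    rw [Pool.Agent.Work.MP_69fea5_lc.DJ.mem_bits] at hv
    rw [decide_eq_true_iff]
    by_contra hc
    have := hpre v hv v₀ (not_lt.mp hc)
    rw [he, hσ0] at this
    exact Bool.noConfusion this
  · intro a e hbest hpre
    obtain ⟨v₀, he, hσ0, hag⟩ := (h1.2.2.1 e σ).mp (hgt a e hbest)
    obtain ⟨b₀, hb₀⟩ := L5_aux.core h1 hlate he hσ0 hag
    refine ⟨((bits σ).filter (fun w => decide (w < v₀))).length, ?_, b₀, hb₀⟩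
    unfold Pre at hpre
    push Not at hpre
    obtain ⟨v, hv, w, hw, hne⟩ := hpre
    have hvw : v₀ ≤ w := by
      by_contra hc
      exact hne (hag w (not_le.mp hc))
    rw [List.length_filter_lt_length_iff_exists]
    refine ⟨v, Pool.Agent.Work.MP_69fea5_lc.DJ.mem_bits.mpr hv, ?_⟩
    rw [decide_eq_true_iff]
    omega
  · intro a e a' b' hbest haa
    obtain ⟨hz, -⟩ := hlet l a' b'
    rcases hz with h0 | h0
    · right
      rw [h0]
      exact h1.2.1 e (L5_aux.ne_zero_of_best hbest)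
    · exact hbest.2 _ b' (hmono l _ a' b' a b' h0 haa le_rfl)

end Pool.Agent.Work.MP_69fea5_lc.TJ
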