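import Pool.Agent.Work.MP_69fea5_lc.TJ.Stmts

set_option autoImplicit false

/-! The third jump, item PR2: the letters are primitive recursive. -/

namespace Pool.Agent.Work.MP_69fea5_lc.TJ

open Pool.Agent.Work.MP_69fea5_lc.DJ (bits lo hi S V Bl lam mu chi seg)

namespace PR2_aux

open Primrec
open Pool.Agent.Work.MP_69fea5_lc.DJ (pp_forall pp_exists pp_imp pp_bool pr_pow pr_testBit pr_bits)

variable {γ : Type*} [Primcodable γ]

lemma pp_eqb {f g : γ → Bool} (hf : Primrec f) (hg : Primrec g) : PrimrecPred fun c => f c = g c :=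
  Primrec.eq.comp hf hg

lemma pp_eqn {f g : γ → ℕ} (hf : Primrec f) (hg : Primrec g) : PrimrecPred fun c => f c = g c :=
  Primrec.eq.comp hf hg

lemma pp_lt {f g : γ → ℕ} (hf : Primrec f) (hg : Primrec g) : PrimrecPred fun c => f c < g c :=
  Primrec.nat_lt.comp hf hg

lemma pp_le {f g : γ → ℕ} (hf : Primrec f) (hg : Primrec g) : PrimrecPred fun c => f c ≤ g c :=
  Primrec.nat_le.comp hf hg

/-- bounded quantification over the members of a mask -/
lemma pp_bits {Q : γ → ℕ → Prop} (hQ : PrimrecPred fun t : γ × ℕ => Q t.1 t.2) {f : γ → ℕ}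
    (hf : Primrec f) : PrimrecPred fun c => ∀ v ∈ bits (f c), Q c v := by
  have h1 : PrimrecRel fun (x : ℕ) (c : γ) => Q c x :=
    PrimrecPred.comp hQ (Primrec.snd.pair Primrec.fst)
  exact (h1.forall_mem_list.comp (pr_bits.comp hf) Primrec.id).of_eq (fun _ => Iff.rfl)

/-- two masks agree below `v` -/
lemma pp_agree {e e' v : γ → ℕ} (he : Primrec e) (he' : Primrec e') (hv : Primrec v) :
    PrimrecPred fun c => ∀ w < v c, (e c).testBit w = (e' c).testBit w := by
  refine pp_forall (R := fun (c : γ) w => (e c).testBit w = (e' c).testBit w) ?_ hv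
  exact pp_eqb (pr_testBit.comp (he.comp fst) snd) (pr_testBit.comp (he'.comp fst) snd)

lemma pr_gt : Primrec₂ gt := by
  have h : PrimrecPred fun t : ℕ × ℕ => ∃ v < t.1, t.1.testBit v = true ∧ t.2.testBit v = false ∧
      ∀ w < v, t.1.testBit w = t.2.testBit w := by
    refine pp_exists (R := fun (t : ℕ × ℕ) v => t.1.testBit v = true ∧ t.2.testBit v = false ∧
      ∀ w < v, t.1.testBit w = t.2.testBit w) ?_ fst
    refine (pp_bool (pr_testBit.comp (fst.comp fst) snd)).and ((pp_eqb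
      (pr_testBit.comp (snd.comp fst) snd) (const false)).and ?_)
    exact pp_agree (fst.comp fst) (snd.comp fst) snd
  exact (h.decide).of_eq (fun t => by
    unfold gt
    exact decide_eq_decide.2 Iff.rfl)

lemma pr_dl : Primrec₂ dl := by
  have h : PrimrecRel fun (v : ℕ) (t : ℕ × ℕ) => t.1.testBit v = true ∧ t.2.testBit v = true ∧
      ∀ w < v, t.1.testBit w = t.2.testBit w := by
    refine (pp_bool (pr_testBit.comp (fst.comp snd) fst)).and ((pp_bool
      (pr_testBit.comp (snd.comp snd) fst)).and ?_)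
    exact pp_agree (fst.comp snd) (snd.comp snd) fst
  have h2 := list_length.comp ((h.listFilter).comp (list_range.comp fst) (Primrec.id))
  exact h2.of_eq (fun t => by
    unfold dl
    rfl)

lemma pp_vld {l e : γ → ℕ} (hl : Primrec l) (he : Primrec e) :
    PrimrecPred fun c => vld (l c) (e c) := by
  have h1 : PrimrecPred fun c => ∀ v ∈ bits (e c), v.unpair.1 < l c := by
    refine pp_bits (Q := fun c v => v.unpair.1 < l c) ?_ he
    exact pp_lt (fst.comp (Primrec.unpair.comp snd)) (hl.comp fst)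
  have h2 : PrimrecPred fun c => ∀ v ∈ bits (e c), ∀ v' ∈ bits (e c),
      v.unpair.1 = v'.unpair.1 → v = v' := by
    refine pp_bits (Q := fun c v => ∀ v' ∈ bits (e c), v.unpair.1 = v'.unpair.1 → v = v') ?_ he
    refine pp_bits (Q := fun (t : γ × ℕ) v' => t.2.unpair.1 = v'.unpair.1 → t.2 = v') ?_
      (he.comp fst)
    refine pp_imp (pp_eqn (fst.comp (Primrec.unpair.comp (snd.comp fst)))
      (fst.comp (Primrec.unpair.comp snd))) (pp_eqn (snd.comp fst) snd)
  exact (h1.and h2).of_eq (fun _ => Iff.rfl)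

variable {R : ℕ → ℕ → ℕ → Bool}

lemma pp_rch (hR : Primrec fun t : ℕ × ℕ × ℕ => R t.1 t.2.1 t.2.2) {e k s : γ → ℕ}
    (he : Primrec e) (hk : Primrec k) (hs : Primrec s) :
    PrimrecPred fun c => rch R (e c) (k c) (s c) := by
  have h1 : PrimrecPred fun c => ∀ v ∈ bits (e c), ∀ b < k c, ∃ x < s c, R v b x = true := by
    refine pp_bits (Q := fun c v => ∀ b < k c, ∃ x < s c, R v b x = true) ?_ he
    refine pp_forall (R := fun (t : γ × ℕ) b => ∃ x < s t.1, R t.2 b x = true) ?_ (hk.comp fst)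
    refine pp_exists (R := fun (t : (γ × ℕ) × ℕ) x => R t.1.2 t.2 x = true) ?_
      (hs.comp (fst.comp fst))
    exact pp_bool (hR.comp ((snd.comp (fst.comp fst)).pair ((snd.comp fst).pair snd)))
  exact ((pp_le hk hs).and h1).of_eq (fun _ => Iff.rfl)

lemma pp_vis (hR : Primrec fun t : ℕ × ℕ × ℕ => R t.1 t.2.1 t.2.2) {l e a b : γ → ℕ}
    (hl : Primrec l) (he : Primrec e) (ha : Primrec a) (hb : Primrec b) :
    PrimrecPred fun c => vis R (l c) (e c) (a c) (b c) := by
  have h1 : PrimrecPred fun c => ∃ k < b c + 1, e c < 2 ^ k ∧ rch R (e c) k (b c) ∧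
      ¬ rch R (e c) k (a c) := by
    refine pp_exists (R := fun c k => e c < 2 ^ k ∧ rch R (e c) k (b c) ∧
      ¬ rch R (e c) k (a c)) ?_ (succ.comp hb)
    refine (pp_lt (he.comp fst) (pr_pow.comp (const 2) snd)).and ((pp_rch hR (he.comp fst) snd
      (hb.comp fst)).and (pp_rch hR (he.comp fst) snd (ha.comp fst)).not)
  exact ((pp_vld hl he).and ((pp_eqn he (const 0)).not.and h1)).of_eq (fun _ => Iff.rfl)

lemma pr_letter (hR : Primrec fun t : ℕ × ℕ × ℕ => R t.1 t.2.1 t.2.2) :
    Primrec fun t : ℕ × ℕ × ℕ => letter R t.1 t.2.1 t.2.2 := by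
  have hc : PrimrecPred fun u : (ℕ × ℕ × ℕ) × ℕ × ℕ =>
      vis R u.1.1 u.2.2 u.1.2.1 u.1.2.2 ∧ gt u.2.2 u.2.1 = true := by
    refine (pp_vis hR (fst.comp fst) (snd.comp snd) (fst.comp (snd.comp fst))
      (snd.comp (snd.comp fst))).and ?_
    exact pp_bool (pr_gt.comp (snd.comp snd) (fst.comp snd))
  have hs : Primrec₂ fun (t : ℕ × ℕ × ℕ) (p : ℕ × ℕ) =>
      if vis R t.1 p.2 t.2.1 t.2.2 ∧ gt p.2 p.1 = true then p.2 else p.1 :=
    Primrec.ite hc (snd.comp snd) (fst.comp snd)
  have h := Primrec.list_foldl (f := fun t : ℕ × ℕ × ℕ => List.range (2 ^ t.2.2))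
    (g := fun _ => 0) (list_range.comp (pr_pow.comp (const 2) (snd.comp snd))) (const 0) hs
  exact h.of_eq (fun t => rfl)

/-- the recursion of `word` -/
lemma word_rec (l : ℕ) (L : List ℕ) : word R l L = List.rec (motive := fun _ => List ℕ) []
    (fun a L IH => (L.head?).casesOn IH (fun b => letter R l a b :: IH)) L := by
  induction L with
  | nil => rfl
  | cons a L ih =>
    cases L with
    | nil => rfl
    | cons b L =>
      rw [word, ih]
      rfl

lemma pr_word (hR : Primrec fun t : ℕ × ℕ × ℕ => R t.1 t.2.1 t.2.2) :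
    Primrec₂ fun (l : ℕ) (L : List ℕ) => word R l L := by
  have hstep : Primrec₂ fun (c : ℕ × List ℕ) (t : ℕ × List ℕ × List ℕ) =>
      (Option.casesOn (t.2.1.head?) t.2.2
        (fun b => letter R c.1 t.1 b :: t.2.2) : List ℕ) := by
    refine option_casesOn (list_head?.comp (fst.comp (snd.comp snd))) (snd.comp (snd.comp snd)) ?_
    have : Primrec fun (u : ((ℕ × List ℕ) × ℕ × List ℕ × List ℕ) × ℕ) =>
        letter R u.1.1.1 u.1.2.1 u.2 :=
      (pr_letter hR).comp ((fst.comp (fst.comp fst)).pair ((fst.comp (snd.comp fst)).pair snd))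
    exact list_cons.comp this (snd.comp (snd.comp (snd.comp fst)))
  have := list_rec (f := fun c : ℕ × List ℕ => c.2) (g := fun _ => ([] : List ℕ)) snd (const [])
    hstep
  exact this.of_eq (fun c => (word_rec c.1 c.2).symm)

end PR2_aux

theorem iPR2 : StPR2 := by
  refine ⟨PR2_aux.pr_gt, PR2_aux.pr_dl, fun R hR => ⟨?_, PR2_aux.pr_letter hR, PR2_aux.pr_word hR⟩⟩
  exact PR2_aux.pp_vis hR Primrec.fst (Primrec.fst.comp Primrec.snd)
    (Primrec.fst.comp (Primrec.snd.comp Primrec.snd))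
    (Primrec.snd.comp (Primrec.snd.comp Primrec.snd))

end Pool.Agent.Work.MP_69fea5_lc.TJ
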