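import Pool.Agent.Work.MP_69fea5_lc.TJ.Stmts

set_option autoImplicit false

namespace Pool.Agent.Work.MP_69fea5_lc.TJ

open Pool.Agent.Work.MP_69fea5_lc.DJ (bits lo hi S V Bl lam mu chi seg)

namespace WS_aux

variable (R : ℕ → ℕ → ℕ → Bool) (l : ℕ)

lemma word_cons (a : ℕ) (L : List ℕ) (h : L ≠ []) :
    word R l (a :: L) = letter R l a (lo L) :: word R l L := by
  cases L with
  | nil => exact absurd rfl h
  | cons b L => rfl

lemma word_append : ∀ L L' : List ℕ, L ≠ [] → L' ≠ [] →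
    word R l (L ++ L') = word R l L ++ letter R l (hi L) (lo L') :: word R l L' := by
  intro L
  induction L with
  | nil => intro L' h; exact absurd rfl h
  | cons a L ih =>
    intro L' _ h'
    by_cases hL : L = []
    · subst hL
      rw [List.singleton_append, word_cons R l a L' h']
      rfl
    · have hne : L ++ L' ≠ [] := by simp [hL]
      rw [List.cons_append, word_cons R l a (L ++ L') hne, ih L' hL h', word_cons R l a L hL,
        DJ.lo_append hL]
      have hh : hi (a :: L) = hi L := by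
        have := DJ.hi_append (L := [a]) (M := L) hL
        rwa [List.singleton_append] at this
      rw [hh]
      rfl

lemma word_mem : ∀ L : List ℕ, ∀ x ∈ word R l L, ∃ a ∈ L, ∃ b ∈ L, x = letter R l a b := by
  intro L
  induction L with
  | nil => intro x hx; simp [word] at hx
  | cons a L ih =>
    intro x hx
    by_cases hL : L = []
    · subst hL
      simp [word] at hx
    · rw [word_cons R l a L hL, List.mem_cons] at hx
      rcases hx with hx | hx
      · exact ⟨a, by simp, lo L, List.mem_cons_of_mem _ (DJ.lo_mem hL), hx⟩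
      · obtain ⟨c, hc, b, hb, h⟩ := ih x hx
        exact ⟨c, List.mem_cons_of_mem _ hc, b, List.mem_cons_of_mem _ hb, h⟩

/-- The bounds. -/
def bd (B₀ : ℕ) (β : ℕ → ℕ) (p : ℕ → ℕ) : ℕ → ℕ
  | 0 => B₀
  | a + 1 => bd B₀ β p a + 2 ^ p (bd B₀ β p a) + β (p (bd B₀ β p a))

lemma bd_mono (B₀ : ℕ) (β : ℕ → ℕ) (p : ℕ → ℕ) : Monotone (bd B₀ β p) := by
  apply monotone_nat_of_le_succ
  intro a
  rw [bd, add_assoc]
  exact Nat.le_add_right _ _

end WS_aux

theorem iW : StW := fun R l => ⟨WS_aux.word_append R l, WS_aux.word_mem R l⟩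

theorem iCS : StCS := by
  intro X hX B₀ β
  choose p hp using hX
  have hm := WS_aux.bd_mono B₀ β p
  refine ⟨fun a => p (WS_aux.bd B₀ β p a), fun a => (hp _).1, fun a => ?_, fun a b hab => ?_⟩
  · have h0 : B₀ ≤ WS_aux.bd B₀ β p a := hm (Nat.zero_le a)
    exact ⟨h0.trans (hp _).2.1, (pow_dvd_pow 2 h0).trans (hp _).2.2⟩
  · have h1 : WS_aux.bd B₀ β p (a + 1) ≤ WS_aux.bd B₀ β p b := hm hab
    rw [WS_aux.bd] at h1
    have h2 := (hp (WS_aux.bd B₀ β p b)).2.1
    have h3 := (hp (WS_aux.bd B₀ β p b)).2.2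
    have h4 : p (WS_aux.bd B₀ β p a) < 2 ^ p (WS_aux.bd B₀ β p a) := Nat.lt_two_pow_self
    show 2 ^ p (WS_aux.bd B₀ β p a) ≤ p (WS_aux.bd B₀ β p b) ∧
      β (p (WS_aux.bd B₀ β p a)) ≤ p (WS_aux.bd B₀ β p b) ∧
      2 ^ p (WS_aux.bd B₀ β p a) ∣ p (WS_aux.bd B₀ β p b) ∧
      2 ^ β (p (WS_aux.bd B₀ β p a)) ∣ p (WS_aux.bd B₀ β p b)
    generalize p (WS_aux.bd B₀ β p a) = x at *
    generalize p (WS_aux.bd B₀ β p b) = y at *
    generalize WS_aux.bd B₀ β p a = u at *
    generalize WS_aux.bd B₀ β p b = v at *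
    have h5 : 2 ^ x ≤ v := by omega
    have h6 : β x ≤ v := by omega
    exact ⟨h5.trans h2, h6.trans h2, (pow_dvd_pow 2 (h4.le.trans h5)).trans h3,
      (pow_dvd_pow 2 h6).trans h3⟩

end Pool.Agent.Work.MP_69fea5_lc.TJ
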