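import Pool.Agent.Work.MP_69fea5_lc.TJ.I_L1
import Pool.Agent.Work.MP_69fea5_lc.TJ.I_L2
import Pool.Agent.Work.MP_69fea5_lc.TJ.I_L3
import Pool.Agent.Work.MP_69fea5_lc.TJ.I_L4
import Pool.Agent.Work.MP_69fea5_lc.TJ.I_L5
import Pool.Agent.Work.MP_69fea5_lc.TJ.I_WS
import Pool.Agent.Work.MP_69fea5_lc.TJ.I_PR2
import Pool.Agent.Work.MP_69fea5_lc.TJ.I_F1
import Pool.Agent.Work.MP_69fea5_lc.TJ.I_F2
import Pool.Agent.Work.MP_69fea5_lc.TJ.I_F3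
import Pool.Agent.Work.MP_69fea5_lc.TJ.V_Main5

set_option autoImplicit false

/-! The third jump: all lemmas plugged in. -/

namespace Pool.Agent.Work.MP_69fea5_lc.TJ

open Pool.Agent.Work.MP_69fea5_lc.DJ (chi)
open Pool.Agent.Work.MP_69fea5_lc.S4 (Concl)

theorem pr_c96' : Primrec c96 := pr_c96 iPR2 iF1

/-- The colouring `c96` and sums of at most five terms. -/
theorem final {X : Set ℕ} (hX : X.Infinite) (hpos : ∀ x ∈ X, 0 < x)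
    (hc : ∃ b, ∀ F : Finset ℕ, F.Nonempty → F.card ≤ 5 → (↑F : Set ℕ) ⊆ X →
      c96 (∑ x ∈ F, x) = b) :
    (∀ (T : Set ℕ) (Q : ℕ → ℕ → ℕ → ℕ → Bool),
      (Computable fun t : ℕ × ℕ × ℕ × ℕ => Q t.1 t.2.1 t.2.2.1 t.2.2.2) →
      (∀ n, n ∈ T ↔ ∃ s, ∀ t, ∃ u, Q n s t u = true) → Nat.RecursiveIn {chi X} (chi T)) ∧
    Concl X := by
  obtain ⟨h1, h2⟩ := mainV5 iL1 iL3 (iL4 iL1 (iL2 iL1)) (iL5 iL1 (iL2 iL1) (iL4 iL1 (iL2 iL1)))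
    iW iCS iF1 (iF2 iF1 iPR2) iF3 hX hpos
  refine ⟨h1 hc, (h2 ?_).2⟩
  obtain ⟨b, hb⟩ := hc
  exact ⟨b, fun F h1 h2 h3 => hb F h1 (by omega) h3⟩

end Pool.Agent.Work.MP_69fea5_lc.TJ
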