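import Pool.Agent.Work.MP_69fea5_lc.TJ.Stmts
import Pool.Agent.Work.MP_69fea5_lc.DJBits
import Pool.Agent.Work.MP_69fea5_lc.DJBlocks

set_option autoImplicit false

/-! The third jump: the claim (adapted from `V_CL.lean` by helper94). -/

namespace Pool.Agent.Work.MP_69fea5_lc.TJ

open Pool.Agent.Work.MP_69fea5_lc.DJ (bits lo hi S V Bl lam mu chi seg)

namespace CL_aux

open Pool.Agent.Work.MP_69fea5_lc.DJ (bits_add bits_ne_nil lo_mem hi_mem le_of_mem_bits
  lt_of_mem_bits mem_bits bits_two_pow lo_append S_add)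

/-- The sum of the numbers `x a`, `a ∈ s`. -/
def T (x : ℕ → ℕ) (s : List ℕ) : ℕ := (s.map x).sum

/-- The mask of the numbers `x a`, `a ∈ s`. -/
def G (x : ℕ → ℕ) (s : List ℕ) : ℕ := (s.map (fun a => 2 ^ x a)).sum

lemma dvd_T {x : ℕ → ℕ} {k : ℕ} {s : List ℕ} (h : ∀ a ∈ s, 2 ^ k ∣ x a) : 2 ^ k ∣ T x s := by
  induction s with
  | nil => exact dvd_zero _
  | cons a s ih =>
    show 2 ^ k ∣ ((a :: s).map x).sum
    rw [List.map_cons, List.sum_cons]
    exact dvd_add (h a (by simp)) (ih (fun b hb => h b (by simp [hb])))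

lemma dvd_G {x : ℕ → ℕ} {k : ℕ} {s : List ℕ} (h : ∀ a ∈ s, k ≤ x a) : 2 ^ k ∣ G x s := by
  induction s with
  | nil => exact dvd_zero _
  | cons a s ih =>
    show 2 ^ k ∣ ((a :: s).map _).sum
    rw [List.map_cons, List.sum_cons]
    exact dvd_add (pow_dvd_pow 2 (h a (by simp))) (ih (fun b hb => h b (by simp [hb])))

/-- Masks. -/
lemma bits_G {x : ℕ → ℕ} (hx : ∀ a b, a < b → x a < x b) {s : List ℕ}
    (hs : s.Pairwise (· < ·)) : bits (G x s) = s.map x := by
  induction s with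
  | nil => rfl
  | cons a s ih =>
    rw [List.pairwise_cons] at hs
    have e : G x (a :: s) = 2 ^ x a + G x s := rfl
    rw [e, bits_add (k := x a + 1) (Nat.pow_lt_pow_right (by norm_num) (by omega))
      (dvd_G (fun b hb => hx a b (hs.1 b hb))), bits_two_pow, ih hs.2]
    rfl

lemma S_G {x : ℕ → ℕ} (hx : ∀ a b, a < b → x a < x b) {s : List ℕ}
    (hs : s.Pairwise (· < ·)) : S (G x s) = T x s := by
  unfold S
  rw [bits_G hx hs]
  rfl

/-- Words of sums. -/
lemma word_T (hW : StW) {R : ℕ → ℕ → ℕ → Bool} {l : ℕ} {x c : ℕ → ℕ} (hpos : ∀ a, 0 < x a)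
    (hdv : ∀ a b, a < b → 2 ^ x a ∣ x b)
    (hc : ∀ a b, a < b → letter R l (hi (bits (x a))) (lo (bits (x b))) = c a)
    (a : ℕ) (s : List ℕ) (hs : (a :: s).Pairwise (· < ·)) :
    0 < T x (a :: s) ∧ lo (bits (T x (a :: s))) = lo (bits (x a)) ∧
      word R l (bits (T x (a :: s))) = join (fun a => word R l (bits (x a))) c (a :: s) := by
  induction s generalizing a with
  | nil =>
    have e : T x [a] = x a := by simp [T]
    rw [e]
    exact ⟨hpos a, rfl, rfl⟩
  | cons b s ih =>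
    rw [List.pairwise_cons] at hs
    obtain ⟨h1, h2, h3⟩ := ih b hs.2
    have e : T x (a :: b :: s) = x a + T x (b :: s) := rfl
    have hlt : x a < 2 ^ x a := Nat.lt_two_pow_self
    have hd : 2 ^ x a ∣ T x (b :: s) := dvd_T (fun d hd => hdv a d (hs.1 d hd))
    have hb := bits_add hlt hd
    have hpa := hpos a
    refine ⟨by rw [e]; omega, ?_, ?_⟩
    · rw [e, hb, lo_append (bits_ne_nil hpa)]
    · rw [e, hb, (hW R l).1 _ _ (bits_ne_nil hpa) (bits_ne_nil h1), h2, h3,
        hc a b (hs.1 b (by simp))]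
      rfl

end CL_aux

open CL_aux in
open Pool.Agent.Work.MP_69fea5_lc.DJ (bits_add bits_ne_nil lo_mem hi_mem le_of_mem_bits
  lt_of_mem_bits mem_bits bits_two_pow lo_append S_add S_pos V_add testBit_false_of_le) in
/-- CL. -/
theorem iCL (hT : StT1) (h1 : StL1) (h4 : StL4) (h5 : StL5) (hW : StW) (hS : StCS) : StCL := by
  intro R X hdum hyp l σ hσ f hf hf2 hl e he
  by_contra hpre
  -- `1 ≤ l`
  have hl1 : 1 ≤ l := by
    obtain ⟨⟨b, hv, hne, -⟩, -⟩ := he
    have h2 := lo_mem (bits_ne_nil (Nat.pos_of_ne_zero hne))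
    have := hv.1 _ h2
    omega
  obtain ⟨a1, -, a3⟩ := h4 R hdum l σ hl1 hσ
  obtain ⟨a₀, ha₀⟩ := a3 0
  obtain ⟨p1, p2, p3, p4⟩ := h5 R hdum l σ hl1 hσ
  obtain ⟨j, hj, b₀, hb₀⟩ := p3 _ _ he hpre
  obtain ⟨b₁, hb₁⟩ := p1 _ _ he
  choose bst hbst using a1
  have hβ : ∀ a, ∃ β, (∀ b, β ≤ b → letter R l a b = bst a) ∧
      (a₀ ≤ a → ∀ b, β ≤ b → ∀ e', IsBest R l b e' →
        gt (bst a) e' = true ∧ dl (bst a) e' = (bits σ).length) := by
    intro a
    obtain ⟨β1, q1⟩ := p1 a (bst a) (hbst a)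
    by_cases ha : a₀ ≤ a
    · obtain ⟨β2, q2⟩ := p2 a (bst a) (hbst a) (ha₀ a ha (bst a) (hbst a)).1
      exact ⟨max β1 β2, fun b hb => q1 b (by omega), fun _ b hb => q2 b (by omega)⟩
    · exact ⟨β1, q1, fun h => absurd h ha⟩
  choose β hβ1 hβ2 using hβ
  -- a monotone version of `β`
  have hβs : ∀ x a, a ≤ x → β a ≤ ((List.range (x + 1)).map β).sum := by
    intro x a ha
    exact List.single_le_sum (by simp) _
      (List.mem_map.mpr ⟨a, List.mem_range.mpr (by omega), rfl⟩)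
  obtain ⟨x, hxX, hxB, hx⟩ := hS X hyp.far (max (max a₀ (max b₀ b₁)) (max f (S f)) + 1)
    (fun x => ((List.range (x + 1)).map β).sum)
  have hpos : ∀ a, 0 < x a := fun a => by have := (hxB a).1; omega
  have hlt : ∀ a b, a < b → x a < x b := fun a b hab =>
    lt_of_lt_of_le Nat.lt_two_pow_self (hx a b hab).1
  have hne : ∀ a, bits (x a) ≠ [] := fun a => bits_ne_nil (hpos a)
  have hmem : ∀ a, ∀ i ∈ bits (x a), max (max a₀ (max b₀ b₁)) (max f (S f)) + 1 ≤ i := fun a i hi =>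
    le_of_mem_bits (hxB a).2 hi
  have hhi : ∀ a, hi (bits (x a)) ≤ x a := fun a => by
    have := lt_of_mem_bits (x := x a) (k := x a) Nat.lt_two_pow_self (hi_mem (hne a))
    omega
  have hfar : ∀ a b, a < b → ∀ i ∈ bits (x b), β (hi (bits (x a))) ≤ i := fun a b hab i hi =>
    (hβs _ _ (hhi a)).trans (le_of_mem_bits (hx a b hab).2.2.2 hi)
  have hge : ∀ a, a₀ ≤ hi (bits (x a)) := fun a => by have := hmem a _ (hi_mem (hne a)); omega
  -- the family
  have hF : FamS gt dl e j (bits σ).length (fun a => word R l (bits (x a)))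
      (fun a => bst (hi (bits (x a)))) := by
    refine ⟨hj, fun a => ?_, fun a b hab => ?_, fun a b hab y hy => ?_⟩
    · exact hb₀ _ (by have := hmem a _ (hi_mem (hne a)); omega) _ (hbst _)
    · exact hβ2 _ (hge a) _ (hfar a b hab _ (hi_mem (hne b))) _ (hbst _)
    · obtain ⟨a', ha', b', hb', rfl⟩ := (hW R l).2 _ _ hy
      have q1 := (hβ2 _ (hge a) _ (hfar a b hab _ ha') _ (hbst a')).1
      rcases p4 a' (bst a') a' b' (hbst a') le_rfl with q2 | q2
      · rw [q2]; exact q1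
      · exact h1.1.trans _ _ _ q1 q2
  obtain ⟨s, s1, s2, s3, s4⟩ := hT gt dl h1.1 e j _ _ _ hF (word R l (bits (S f)))
  obtain ⟨c₀, hc₀⟩ := hyp.hom
  have hSf := S_pos hyp.pos hf
  have hflt : f < 2 ^ (max (max a₀ (max b₀ b₁)) (max f (S f)) + 1) :=
    lt_of_lt_of_le Nat.lt_two_pow_self (Nat.pow_le_pow_right (by norm_num) (by omega))
  have hSlt : S f < 2 ^ (max (max a₀ (max b₀ b₁)) (max f (S f)) + 1) :=
    lt_of_lt_of_le Nat.lt_two_pow_self (Nat.pow_le_pow_right (by norm_num) (by omega))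
  have hGd : 2 ^ (max (max a₀ (max b₀ b₁)) (max f (S f)) + 1) ∣ G x s :=
    dvd_G (fun a _ => (hxB a).1)
  have hTd : 2 ^ (max (max a₀ (max b₀ b₁)) (max f (S f)) + 1) ∣ T x s :=
    dvd_T (fun a _ => (hxB a).2)
  have hbF : bits (f + G x s) = bits f ++ s.map x := by
    rw [bits_add hflt hGd, bits_G hlt s3]
  have hSF : S (f + G x s) = S f + T x s := by
    rw [S_add hflt hGd, S_G hlt s3]
  have hVF : V X (f + G x s) := by
    refine ⟨by have := hf.1; omega, fun i hi => ?_⟩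
    rw [hbF, List.mem_append, List.mem_map] at hi
    rcases hi with hi | ⟨a, -, rfl⟩
    · exact hf.2 i hi
    · exact hxX a
  have hc : ∀ a b, a < b → letter R l (hi (bits (x a))) (lo (bits (x b))) =
      bst (hi (bits (x a))) := fun a b hab => hβ1 _ _ (hfar a b hab _ (lo_mem (hne b)))
  cases s with
  | nil => exact s1 rfl
  | cons a s =>
    obtain ⟨t1, t2, t3⟩ := word_T hW (R := R) (l := l) (c := fun a => bst (hi (bits (x a))))
      hpos (fun a b hab => (hx a b hab).2.2.1) hc a s s3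
    have hb := bits_add hSlt hTd
    have hlam : lo (bits (S f)) = l := hl
    have e1 : colT R (S (f + G x (a :: s))) =
        colW gt dl (word R l (bits (S f)) ++ e :: join (fun a => word R l (bits (x a)))
          (fun a => bst (hi (bits (x a)))) (a :: s)) := by
      unfold colT
      rw [hSF, hb, lo_append (bits_ne_nil hSf), hlam,
        (hW R l).1 _ _ (bits_ne_nil hSf) (bits_ne_nil t1), t2, t3]
      have e2 : letter R l (hi (bits (S f))) (lo (bits (x a))) = e := by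
        refine hb₁ _ ?_
        have := hmem a _ (lo_mem (hne a))
        omega
      rw [e2]
    have e3 : colT R (S f) = colW gt dl (word R l (bits (S f))) := by
      unfold colT
      rw [hlam]
    apply s4
    rw [← e1, ← e3, hc₀ f hf (by omega), hc₀ _ hVF (by
      rw [hbF, List.length_append, List.length_map]
      omega)]

end Pool.Agent.Work.MP_69fea5_lc.TJ
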