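import Pool.Agent.Work.MP_69fea5_lc.TJ.Stmts
import Pool.Agent.Work.MP_69fea5_lc.Comp

set_option autoImplicit false

/-! The third jump, item F3: the join of three sets. -/

namespace Pool.Agent.Work.MP_69fea5_lc.TJ

open Pool.Agent.Work.MP_69fea5_lc.DJ (chi prim_rec)

namespace F3_aux

/-- The case distinction. -/
def F (t : ℕ) : ℕ :=
  if t.unpair.1 % 3 = 0 then t.unpair.2.unpair.1
  else if t.unpair.1 % 3 = 1 then t.unpair.2.unpair.2.unpair.1
  else t.unpair.2.unpair.2.unpair.2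

lemma pr_F : Primrec F := by
  have u1 : Primrec fun t : ℕ => t.unpair.1 := Primrec.fst.comp Primrec.unpair
  have u2 : Primrec fun t : ℕ => t.unpair.2 := Primrec.snd.comp Primrec.unpair
  have h3 : Primrec fun t : ℕ => t.unpair.1 % 3 := Primrec.nat_mod.comp u1 (Primrec.const 3)
  refine Primrec.ite (Primrec.eq.comp h3 (Primrec.const 0)) (u1.comp u2) ?_
  exact Primrec.ite (Primrec.eq.comp h3 (Primrec.const 1)) (u1.comp (u2.comp u2))
    (u2.comp (u2.comp u2))

open Classical in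
/-- The characteristic function with values in the natural numbers. -/
noncomputable def ch (X : Set ℕ) (n : ℕ) : ℕ := if n ∈ X then 1 else 0

lemma chi_eq (X : Set ℕ) : chi X = fun n => Part.some (ch X n) := by
  funext n
  simp only [chi, ch]

lemma div_rec {O : Set (ℕ →. ℕ)} {X : Set ℕ} (h : Nat.RecursiveIn O (chi X)) :
    Nat.RecursiveIn O (fun n => Part.some (ch X (n / 3))) := by
  rw [chi_eq] at h
  exact comp_tot h (prim_rec (Primrec.nat_div.comp Primrec.id (Primrec.const 3)))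

/-- The join. -/
def W (X Y Z : Set ℕ) : Set ℕ :=
  {n | (n % 3 = 0 ∧ n / 3 ∈ X) ∨ (n % 3 = 1 ∧ n / 3 ∈ Y) ∨ (n % 3 = 2 ∧ n / 3 ∈ Z)}

lemma ch_W (X Y Z : Set ℕ) (n : ℕ) : ch (W X Y Z) n =
    F (Nat.pair n (Nat.pair (ch X (n / 3)) (Nat.pair (ch Y (n / 3)) (ch Z (n / 3))))) := by
  classical
  simp only [F, Nat.unpair_pair]
  have h3 : n % 3 = 0 ∨ n % 3 = 1 ∨ n % 3 = 2 := by omega
  rcases h3 with h | h | h
  · by_cases hX : n / 3 ∈ X <;> simp [ch, W, h, hX]
  · by_cases hY : n / 3 ∈ Y <;> simp [ch, W, h, hY]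
  · by_cases hZ : n / 3 ∈ Z <;> simp [ch, W, h, hZ]

end F3_aux

open F3_aux in
theorem iF3 : StF3 := by
  intro X Y Z hY hZ
  refine ⟨W X Y Z, ?_, fun n => ⟨?_, ?_, ?_⟩⟩
  · have hX : Nat.RecursiveIn {chi X} (chi X) := .oracle _ (Set.mem_singleton _)
    rw [chi_eq (W X Y Z)]
    have h := comp_tot (prim_rec (O := {chi X}) pr_F)
      (pair_tot (prim_rec (O := {chi X}) Primrec.id)
        (pair_tot (div_rec hX) (pair_tot (div_rec hY) (div_rec hZ))))
    refine h.of_eq (fun n => ?_)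
    rw [ch_W]
    rfl
  · simp only [W, Set.mem_setOf_eq]
    have h1 : 3 * n % 3 = 0 := by omega
    have h2 : 3 * n / 3 = n := by omega
    simp [h1, h2]
  · simp only [W, Set.mem_setOf_eq]
    have h1 : (3 * n + 1) % 3 = 1 := by omega
    have h2 : (3 * n + 1) / 3 = n := by omega
    simp [h1, h2]
  · simp only [W, Set.mem_setOf_eq]
    have h1 : (3 * n + 2) % 3 = 2 := by omega
    have h2 : (3 * n + 2) / 3 = n := by omega
    simp [h1, h2]

end Pool.Agent.Work.MP_69fea5_lc.TJ
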