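import Pool.Agent.Work.MP_69fea5_lc.TJ.Stmts
import Pool.Agent.Work.MP_69fea5_lc.DJBits
import Pool.Agent.Work.MP_69fea5_lc.DJBlocks

set_option autoImplicit false

/-! The third jump: certificates (item F4, helper81). -/

namespace Pool.Agent.Work.MP_69fea5_lc.TJ

open Pool.Agent.Work.MP_69fea5_lc.DJ (bits lo hi S V Bl lam mu chi seg)

namespace F4_aux

open Pool.Agent.Work.MP_69fea5_lc.DJ (bits_add bits_ne_nil lo_mem hi_mem le_of_mem_bits
  mem_bits bits_two_pow lo_append hi_append)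

lemma S_two_pow (x : ℕ) : S (2 ^ x) = x := by
  unfold S
  rw [bits_two_pow]
  simp

lemma V_two_pow {X : Set ℕ} {x : ℕ} (hx : x ∈ X) : V X (2 ^ x) := by
  refine ⟨by positivity, fun i hi => ?_⟩
  rw [bits_two_pow, List.mem_singleton] at hi
  rw [hi]
  exact hx

/-- Two far elements. -/
lemma two {X : Set ℕ} {x y B : ℕ} (hx : x ∈ X) (hy : y ∈ X) (hx0 : 0 < x) (hxB : x < B)
    (hBy : B ≤ y) (hd : 2 ^ B ∣ y) :
    V X (2 ^ x + 2 ^ y) ∧ (bits (2 ^ x + 2 ^ y)).length = 2 ∧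
      lam (2 ^ x + 2 ^ y) = lam (2 ^ x) ∧ B ≤ mu (2 ^ x + 2 ^ y) := by
  have h1 : bits (2 ^ x + 2 ^ y) = [x] ++ [y] := by
    rw [bits_add (k := B) (Nat.pow_lt_pow_right (by norm_num) hxB) (pow_dvd_pow 2 hBy),
      bits_two_pow, bits_two_pow]
  have h2 : S (2 ^ x + 2 ^ y) = x + y := by
    unfold S
    rw [h1]
    simp
  have h3 : bits (x + y) = bits x ++ bits y := by
    refine bits_add (k := B) (lt_trans Nat.lt_two_pow_self (Nat.pow_lt_pow_right (by norm_num) hxB)) hd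
  have hy0 : 0 < y := by omega
  refine ⟨⟨by positivity, fun i hi => ?_⟩, by rw [h1]; rfl, ?_, ?_⟩
  · rw [h1, List.mem_append, List.mem_singleton, List.mem_singleton] at hi
    rcases hi with rfl | rfl
    · exact hx
    · exact hy
  · unfold lam
    rw [h2, S_two_pow, h3, lo_append (bits_ne_nil hx0)]
  · unfold mu
    rw [h2, h3, hi_append (bits_ne_nil hy0)]
    exact le_of_mem_bits hd (hi_mem (bits_ne_nil hy0))

/-- The first difference. -/
lemma first {e e' v₀ : ℕ} (h : e.testBit v₀ ≠ e'.testBit v₀) :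
    ∃ v ≤ v₀, e.testBit v ≠ e'.testBit v ∧ ∀ w < v, e.testBit w = e'.testBit w := by
  classical
  have hex : ∃ v, e.testBit v ≠ e'.testBit v := ⟨v₀, h⟩
  refine ⟨Nat.find hex, Nat.find_min' hex h, Nat.find_spec hex, fun w hw => ?_⟩
  have := Nat.find_min hex hw
  simpa using this

end F4_aux

open F4_aux in
open Pool.Agent.Work.MP_69fea5_lc.DJ (bits_add bits_ne_nil lo_mem hi_mem le_of_mem_bits
  mem_bits bits_two_pow) in
/-- F4. -/
theorem iF4 (h1 : StL1) (h3 : StL3) (h4 : StL4) : StF4 := by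
  intro R X hdum h0 hfar hcl q
  constructor
  · intro hq
    obtain ⟨x, hxX, hx1, hx2⟩ := hfar (q + 1)
    have hx0 : 0 < x := by omega
    have hlam : q < lam (2 ^ x) := by
      unfold lam
      rw [S_two_pow]
      exact le_of_mem_bits hx2 (lo_mem (bits_ne_nil hx0))
    obtain ⟨σ, hσ⟩ := h3 R (lam (2 ^ x))
    obtain ⟨a1, a2, a3⟩ := h4 R hdum (lam (2 ^ x)) σ (by omega) hσ
    obtain ⟨e, he⟩ := a1 (mu (2 ^ x))
    obtain ⟨v₀, d1, d2, d3⟩ := (h1.2.2.1 e σ).mp (a2 _ e he)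
    obtain ⟨a₀, ha₀⟩ := a3 (v₀ + 1)
    obtain ⟨y, hyX, hy1, hy2⟩ := hfar (max a₀ (x + 1))
    obtain ⟨b1, b2, b3, b4⟩ := two (B := max a₀ (x + 1)) hxX hyX hx0 (by omega) hy1 hy2
    obtain ⟨e', he'⟩ := a1 (mu (2 ^ x + 2 ^ y))
    have hd : e.testBit v₀ ≠ e'.testBit v₀ := by
      intro h
      rw [d1] at h
      have := (ha₀ _ (le_trans (le_max_left _ _) b4) e' he').2 v₀ (by omega) h.symm
      rw [d2] at this
      exact absurd this (by decide)
    obtain ⟨v, hv, c1, c2⟩ := first hd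
    refine ⟨2 ^ x, 2 ^ x + 2 ^ y, e, e', v, V_two_pow hxX, b1, ?_, by omega, b3.symm, hlam, he, he', c1,
      c2, ?_⟩
    · rw [bits_two_pow]
      simp
    · intro w hw hew hq'
      rw [d3 w (by omega)] at hew
      exact hq ⟨w, hσ.inf w (mem_bits.mpr hew), hq'⟩
  · rintro ⟨f, f', e, e', v, c1, c2, c3, c4, c5, c6, c7, c8, c9, c10, c11⟩ ⟨v₁, hv1, hv2⟩
    obtain ⟨σ, hσ⟩ := h3 R (lam f)
    have p1 := hcl (lam f) σ hσ f c1 c3 rfl e c7
    have p2 := hcl (lam f) σ hσ f' c2 c4 c5.symm e' c8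
    obtain ⟨v', m1, m2, -⟩ := hσ.least v₁ hv1 (by rw [hv2]; exact c6)
    rw [mem_bits] at m1
    by_cases hvv : v' < v
    · refine c11 v' hvv ?_ (m2.trans hv2)
      rw [p1 v' m1 v' le_rfl]
      exact m1
    · exact c9 ((p1 v' m1 v (by omega)).trans (p2 v' m1 v (by omega)).symm)

end Pool.Agent.Work.MP_69fea5_lc.TJ
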