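import Pool.Agent.Work.MP_69fea5_lc.TJ.Stmts

set_option autoImplicit false

/-! F5: the two-sided search. -/

namespace Pool.Agent.Work.MP_69fea5_lc.TJ

open Pool.Agent.Work.MP_69fea5_lc.DJ (bits lo hi S V Bl lam mu chi seg)
open Primrec

namespace F5_aux

/-- `f` is the mask of a nonempty set whose members `i` have `s.testBit (3 * i) = true`. -/
def Vs (s f : ℕ) : Prop := 0 < f ∧ ∀ i < f, (f.testBit i = true → s.testBit (3 * i) = true)

/-- The length of a list is at most two. -/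
def len2 (f : ℕ) : Prop := (bits f).length ≤ 2

/-- The certificate, checked with the mask `s`. -/
def CertS (q f f' e e' v s : ℕ) : Prop :=
  (Vs s f ∧ Vs s f') ∧ (len2 f ∧ len2 f') ∧ (lam f = lam f' ∧ q < lam f) ∧
  (s.testBit (3 * Nat.pair (lam f) (Nat.pair (mu f) e) + 1) = true ∧
    s.testBit (3 * Nat.pair (lam f) (Nat.pair (mu f') e') + 1) = true) ∧
  (¬ (e.testBit v = e'.testBit v) ∧ (∀ w < v, e.testBit w = e'.testBit w) ∧
    ∀ w < v, (e.testBit w = true → ¬ (w.unpair.1 = q)))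

/-- The test. -/
def Pc (q u s : ℕ) : Prop :=
  (u.unpair.1.unpair.1 = 0 ∧ (u.unpair.1.unpair.2.unpair.1 = q ∧
    s.testBit (3 * u.unpair.1.unpair.2 + 2) = true)) ∨
  (¬ (u.unpair.1.unpair.1 = 0) ∧
    CertS q u.unpair.1.unpair.2.unpair.1.unpair.1 u.unpair.1.unpair.2.unpair.1.unpair.2
      u.unpair.1.unpair.2.unpair.2.unpair.1.unpair.1 u.unpair.1.unpair.2.unpair.2.unpair.1.unpair.2
      u.unpair.1.unpair.2.unpair.2.unpair.2 s)

lemma pp_Vs : PrimrecPred fun t : ℕ × ℕ => Vs t.1 t.2 := by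
  have h1 : PrimrecPred fun t : ℕ × ℕ => 0 < t.2 := nat_lt.comp (const 0) snd
  have h2 : PrimrecPred fun t : ℕ × ℕ =>
      ∀ i < t.2, (t.2.testBit i = true → t.1.testBit (3 * i) = true) := by
    refine DJ.pp_forall (R := fun (t : ℕ × ℕ) i =>
      t.2.testBit i = true → t.1.testBit (3 * i) = true) (DJ.pp_imp ?_ ?_) snd
    · exact DJ.pp_bool (DJ.pr_testBit.comp (snd.comp fst) snd)
    · exact DJ.pp_bool (DJ.pr_testBit.comp (fst.comp fst) (nat_mul.comp (const 3) snd))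
  exact h1.and h2

lemma pp_len2 : PrimrecPred fun f : ℕ => len2 f :=
  nat_le.comp (list_length.comp DJ.pr_bits) (const 2)

section gen

variable {γ : Type*} [Primcodable γ]

lemma pp_CertS {q f f' e e' v s : γ → ℕ} (q1 : Primrec q) (f1 : Primrec f) (f1' : Primrec f')
    (e1 : Primrec e) (e1' : Primrec e') (v1 : Primrec v) (s1 : Primrec s) :
    PrimrecPred fun t => CertS (q t) (f t) (f' t) (e t) (e' t) (v t) (s t) := by
  have c1 : PrimrecPred fun t => Vs (s t) (f t) := pp_Vs.comp (s1.pair f1)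
  have c1' : PrimrecPred fun t => Vs (s t) (f' t) := pp_Vs.comp (s1.pair f1')
  have c2 : PrimrecPred fun t => len2 (f t) := pp_len2.comp f1
  have c2' : PrimrecPred fun t => len2 (f' t) := pp_len2.comp f1'
  have lf : Primrec fun t => lam (f t) := DJ.pr_lam.comp f1
  have lf' : Primrec fun t => lam (f' t) := DJ.pr_lam.comp f1'
  have mf : Primrec fun t => mu (f t) := DJ.pr_mu.comp f1
  have mf' : Primrec fun t => mu (f' t) := DJ.pr_mu.comp f1'
  have c3 : PrimrecPred fun t => lam (f t) = lam (f' t) := Primrec.eq.comp lf lf'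
  have c3' : PrimrecPred fun t => q t < lam (f t) := nat_lt.comp q1 lf
  have c4 : PrimrecPred fun t => (s t).testBit
      (3 * Nat.pair (lam (f t)) (Nat.pair (mu (f t)) (e t)) + 1) = true :=
    DJ.pp_bool (DJ.pr_testBit.comp s1 (nat_add.comp (nat_mul.comp (const 3)
      (Primrec₂.natPair.comp lf (Primrec₂.natPair.comp mf e1))) (const 1)))
  have c4' : PrimrecPred fun t => (s t).testBit
      (3 * Nat.pair (lam (f t)) (Nat.pair (mu (f' t)) (e' t)) + 1) = true :=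
    DJ.pp_bool (DJ.pr_testBit.comp s1 (nat_add.comp (nat_mul.comp (const 3)
      (Primrec₂.natPair.comp lf (Primrec₂.natPair.comp mf' e1'))) (const 1)))
  have c5 : PrimrecPred fun t => ¬ ((e t).testBit (v t) = (e' t).testBit (v t)) :=
    PrimrecPred.not (Primrec.eq.comp (DJ.pr_testBit.comp e1 v1) (DJ.pr_testBit.comp e1' v1))
  have c6 : PrimrecPred fun t => ∀ w < v t, (e t).testBit w = (e' t).testBit w :=
    DJ.pp_forall (R := fun (t : γ) w => (e t).testBit w = (e' t).testBit w)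
      (Primrec.eq.comp (DJ.pr_testBit.comp (e1.comp fst) snd)
        (DJ.pr_testBit.comp (e1'.comp fst) snd)) v1
  have c7 : PrimrecPred fun t =>
      ∀ w < v t, ((e t).testBit w = true → ¬ (w.unpair.1 = q t)) :=
    DJ.pp_forall (R := fun (t : γ) w => (e t).testBit w = true → ¬ (w.unpair.1 = q t))
      (DJ.pp_imp (DJ.pp_bool (DJ.pr_testBit.comp (e1.comp fst) snd))
        (PrimrecPred.not (Primrec.eq.comp (fst.comp (Primrec.unpair.comp snd)) (q1.comp fst)))) v1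
  exact (c1.and c1').and ((c2.and c2').and ((c3.and c3').and ((c4.and c4').and
    (c5.and (c6.and c7)))))

end gen

lemma pp_Pc : PrimrecPred fun t : ℕ × ℕ × ℕ => Pc t.1 t.2.1 t.2.2 := by
  have q : Primrec fun t : ℕ × ℕ × ℕ => t.1 := fst
  have s : Primrec fun t : ℕ × ℕ × ℕ => t.2.2 := snd.comp snd
  have u0 : Primrec fun t : ℕ × ℕ × ℕ => t.2.1 := fst.comp snd
  have u1 : Primrec fun t : ℕ => t.unpair.1 := fst.comp Primrec.unpair
  have u2 : Primrec fun t : ℕ => t.unpair.2 := snd.comp Primrec.unpair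
  have a : Primrec fun t : ℕ × ℕ × ℕ => t.2.1.unpair.1 := u1.comp u0
  have a1 : Primrec fun t : ℕ × ℕ × ℕ => t.2.1.unpair.1.unpair.1 := u1.comp a
  have a2 : Primrec fun t : ℕ × ℕ × ℕ => t.2.1.unpair.1.unpair.2 := u2.comp a
  have b1 : Primrec fun t : ℕ × ℕ × ℕ => t.2.1.unpair.1.unpair.2.unpair.1 := u1.comp a2
  have b2 : Primrec fun t : ℕ × ℕ × ℕ => t.2.1.unpair.1.unpair.2.unpair.2 := u2.comp a2
  have f : Primrec fun t : ℕ × ℕ × ℕ => t.2.1.unpair.1.unpair.2.unpair.1.unpair.1 := u1.comp b1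
  have f' : Primrec fun t : ℕ × ℕ × ℕ => t.2.1.unpair.1.unpair.2.unpair.1.unpair.2 := u2.comp b1
  have c1 : Primrec fun t : ℕ × ℕ × ℕ => t.2.1.unpair.1.unpair.2.unpair.2.unpair.1 := u1.comp b2
  have v : Primrec fun t : ℕ × ℕ × ℕ => t.2.1.unpair.1.unpair.2.unpair.2.unpair.2 := u2.comp b2
  have e : Primrec fun t : ℕ × ℕ × ℕ => t.2.1.unpair.1.unpair.2.unpair.2.unpair.1.unpair.1 :=
    u1.comp c1
  have e' : Primrec fun t : ℕ × ℕ × ℕ => t.2.1.unpair.1.unpair.2.unpair.2.unpair.1.unpair.2 :=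
    u2.comp c1
  have z : PrimrecPred fun t : ℕ × ℕ × ℕ => t.2.1.unpair.1.unpair.1 = 0 :=
    Primrec.eq.comp a1 (const 0)
  have k1 : PrimrecPred fun t : ℕ × ℕ × ℕ => t.2.1.unpair.1.unpair.2.unpair.1 = t.1 :=
    Primrec.eq.comp b1 q
  have k2 : PrimrecPred fun t : ℕ × ℕ × ℕ =>
      t.2.2.testBit (3 * t.2.1.unpair.1.unpair.2 + 2) = true :=
    DJ.pp_bool (DJ.pr_testBit.comp s (nat_add.comp (nat_mul.comp (const 3) a2) (const 2)))
  have k3 := pp_CertS q f f' e e' v s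
  exact (z.and (k1.and k2)).or (z.not.and k3)

lemma Vs_sound {X W : Set ℕ} (hW : ∀ n, 3 * n ∈ W ↔ n ∈ X) {N f : ℕ} (h : Vs (seg W N) f) :
    V X f := by
  refine ⟨h.1, fun i hi => ?_⟩
  have h1 : f.testBit i = true := DJ.mem_bits.mp hi
  have h2 : i < f := by
    by_contra hc
    rw [DJ.testBit_false_of_le (not_lt.mp hc)] at h1
    exact Bool.noConfusion h1
  have h3 := h.2 i h2 h1
  rw [DJ.testBit_seg] at h3
  exact (hW i).mp h3.2

lemma Vs_complete {X W : Set ℕ} (hW : ∀ n, 3 * n ∈ W ↔ n ∈ X) {N f : ℕ} (h : V X f)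
    (hN : 3 * f ≤ N) : Vs (seg W N) f := by
  refine ⟨h.1, fun i hi h1 => ?_⟩
  rw [DJ.testBit_seg]
  exact ⟨by omega, (hW i).mpr (h.2 i (DJ.mem_bits.mpr h1))⟩

lemma best_iff {W : Set ℕ} (hB : ∀ n, 3 * n + 1 ∈ W ↔ n ∈ BestSet) {N l a e : ℕ} :
    (seg W N).testBit (3 * Nat.pair l (Nat.pair a e) + 1) = true ↔
      3 * Nat.pair l (Nat.pair a e) + 1 < N ∧ IsBest R₀ l a e := by
  rw [DJ.testBit_seg, hB]
  simp [BestSet]

end F5_aux

open F5_aux

theorem iF5 (h2 : StF2) (h3 : StF3) (_hP : StPR2) : StF5 := by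
  classical
  intro X hX hcert
  obtain ⟨hb, hi⟩ := h2 X hX
  obtain ⟨W, hWX, hW⟩ := h3 X _ _ hb hi
  have w0 : ∀ n, 3 * n ∈ W ↔ n ∈ X := fun n => (hW n).1
  have w1 : ∀ n, 3 * n + 1 ∈ W ↔ n ∈ BestSet := fun n => (hW n).2.1
  have w2 : ∀ n, 3 * n + 2 ∈ W ↔ Inf R₀ n := fun n => (hW n).2.2
  have key : Nat.RecursiveIn {chi W} (chi {q | ∃ v, Inf R₀ v ∧ v.unpair.1 = q}) := by
    refine DJ.search W (fun q u s => decide (Pc q u s)) pp_Pc.decide
      (fun _ u => if u.unpair.1.unpair.1 = 0 then 1 else 0) ?_ _ ?_ ?_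
    · have u1 : Primrec fun t : ℕ => t.unpair.1 := fst.comp Primrec.unpair
      exact Primrec.ite (Primrec.eq.comp (u1.comp (u1.comp snd)) (const 0)) (const 1) (const 0)
    · intro q
      by_cases hq : ∃ v, Inf R₀ v ∧ v.unpair.1 = q
      · obtain ⟨v, hv, hvq⟩ := hq
        refine ⟨Nat.pair (Nat.pair 0 v) (3 * v + 3), ?_⟩
        rw [decide_eq_true_eq]
        left
        simp only [Nat.unpair_pair]
        refine ⟨trivial, hvq, ?_⟩
        rw [DJ.testBit_seg]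
        exact ⟨by omega, (w2 v).mpr hv⟩
      · obtain ⟨f, f', e, e', v, g1, g2, g3, g4, g5, g6, g7, g8, g9, g10, g11⟩ :=
          (hcert q).mp hq
        refine ⟨Nat.pair (Nat.pair 1 (Nat.pair (Nat.pair f f') (Nat.pair (Nat.pair e e') v)))
          (3 * f + 3 * f' + (3 * Nat.pair (lam f) (Nat.pair (mu f) e) + 1) +
            (3 * Nat.pair (lam f) (Nat.pair (mu f') e') + 1) + 1), ?_⟩
        rw [decide_eq_true_eq]
        right
        simp only [Nat.unpair_pair]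
        refine ⟨one_ne_zero, ⟨Vs_complete w0 g1 (by omega), Vs_complete w0 g2 (by omega)⟩,
          ⟨g3, g4⟩, ⟨g5, g6⟩, ⟨?_, ?_⟩, g9, g10, g11⟩
        · rw [best_iff w1]
          exact ⟨by omega, g7⟩
        · rw [best_iff w1]
          exact ⟨by omega, g8⟩
    · intro q u hu
      rw [decide_eq_true_eq] at hu
      rcases hu with ⟨h0, h1, h4⟩ | ⟨h0, h1⟩
      · have hin : q ∈ {q | ∃ v, Inf R₀ v ∧ v.unpair.1 = q} := by
          refine ⟨u.unpair.1.unpair.2, ?_, h1⟩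
          rw [DJ.testBit_seg] at h4
          exact (w2 _).mp h4.2
        rw [if_pos h0, if_pos hin]
      · have hnin : q ∉ {q | ∃ v, Inf R₀ v ∧ v.unpair.1 = q} := by
          obtain ⟨⟨a1, a2⟩, ⟨a3, a4⟩, ⟨a5, a6⟩, ⟨a7, a8⟩, a9, a10, a11⟩ := h1
          rw [best_iff w1] at a7 a8
          exact (hcert q).mpr ⟨_, _, _, _, _, Vs_sound w0 a1, Vs_sound w0 a2, a3, a4, a5, a6,
            a7.2, a8.2, a9, a10, a11⟩
        rw [if_neg h0, if_neg hnin]
  have t1 : RecursiveIn {chi W} (chi {q | ∃ v, Inf R₀ v ∧ v.unpair.1 = q}) :=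
    RecursiveIn.iff_nat.2 key
  have t2 : RecursiveIn {chi X} (chi W) := RecursiveIn.iff_nat.2 hWX
  exact RecursiveIn.iff_nat.1 (TuringReducible.trans t1 t2)

end Pool.Agent.Work.MP_69fea5_lc.TJ
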