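import Pool.Agent.Work.MP_69fea5_lc.TJ.Stmts

set_option autoImplicit false

/-! L1: the order of the letters. -/

namespace Pool.Agent.Work.MP_69fea5_lc.TJ

open Pool.Agent.Work.MP_69fea5_lc.DJ (bits lo hi S V Bl lam mu chi seg)

namespace L1_aux

open Pool.Agent.Work.MP_69fea5_lc.DJ (testBit_false_of_le filter_range_ext bits_eq mem_bits)

lemma gt_iff (e e' : ℕ) : gt e e' = true ↔
    ∃ v, e.testBit v = true ∧ e'.testBit v = false ∧ ∀ w < v, e.testBit w = e'.testBit w := by
  unfold gt
  rw [decide_eq_true_iff]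
  constructor
  · rintro ⟨v, -, h⟩
    exact ⟨v, h⟩
  · rintro ⟨v, h⟩
    refine ⟨v, ?_, h⟩
    by_contra hc
    have := testBit_false_of_le (not_lt.mp hc)
    rw [this] at h
    exact Bool.noConfusion h.1

lemma dl_eq (e e' v : ℕ) (hne : e.testBit v ≠ e'.testBit v)
    (hlt : ∀ w < v, e.testBit w = e'.testBit w) :
    dl e e' = ((bits e).filter (fun w => decide (w < v))).length := by
  unfold dl bits
  rw [List.filter_filter]
  congr 1
  apply List.filter_congr
  intro u _
  rw [Bool.eq_iff_iff]
  simp only [decide_eq_true_iff, Bool.and_eq_true]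
  constructor
  · rintro ⟨h1, h2, h3⟩
    refine ⟨?_, h1⟩
    by_contra hc
    rcases (not_lt.mp hc).eq_or_lt with h | h
    · subst h
      exact hne (h1.trans h2.symm)
    · exact hne (h3 v h)
  · rintro ⟨h1, h2⟩
    exact ⟨h2, (hlt u h1).symm.trans h2, fun w hw => hlt w (hw.trans h1)⟩

lemma cnt_eq (e v : ℕ) : (bits e).filter (fun w => decide (w < v)) =
    (List.range v).filter (fun w => e.testBit w) := by
  have h1 : bits e = (List.range (v + e)).filter (fun i => e.testBit i) :=
    bits_eq _ _ (by omega)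
  rw [h1, List.filter_filter,
    filter_range_ext (fun a => decide (a < v) && e.testBit a) v e
      (fun i hi => by simp [not_lt.mpr hi])]
  apply List.filter_congr
  intro u hu
  rw [List.mem_range] at hu
  simp [hu]

lemma cnt_congr {a b v : ℕ} (h : ∀ w < v, a.testBit w = b.testBit w) :
    ((bits a).filter (fun w => decide (w < v))).length =
      ((bits b).filter (fun w => decide (w < v))).length := by
  rw [cnt_eq, cnt_eq]
  congr 1
  apply List.filter_congr
  intro u hu
  rw [List.mem_range] at hu
  exact h u hu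

lemma cnt_mono (e : ℕ) {v v' : ℕ} (h : v ≤ v') :
    ((bits e).filter (fun w => decide (w < v))).length ≤
      ((bits e).filter (fun w => decide (w < v'))).length := by
  obtain ⟨k, rfl⟩ := Nat.exists_eq_add_of_le h
  rw [cnt_eq, cnt_eq, List.range_add, List.filter_append, List.length_append]
  omega

lemma exists_first {a b : ℕ} (h : a ≠ b) :
    ∃ v, a.testBit v ≠ b.testBit v ∧ ∀ w < v, a.testBit w = b.testBit w := by
  classical
  have hex : ∃ v, a.testBit v ≠ b.testBit v := by
    by_contra hc
    push Not at hc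
    exact h (Nat.eq_of_testBit_eq hc)
  refine ⟨Nat.find hex, Nat.find_spec hex, fun w hw => ?_⟩
  by_contra hc
  exact Nat.find_min hex hw hc

lemma good : Good gt dl where
  irrefl a := by
    by_contra hc
    rw [Bool.not_eq_false, gt_iff] at hc
    obtain ⟨v, h1, h2, -⟩ := hc
    rw [h1] at h2
    exact Bool.noConfusion h2
  trans a b c hab hbc := by
    rw [gt_iff] at hab hbc ⊢
    obtain ⟨v, h1, h2, h3⟩ := hab
    obtain ⟨v', h1', h2', h3'⟩ := hbc
    rcases lt_trichotomy v v' with h | h | h
    · exact ⟨v, h1, (h3' v h).symm.trans h2, fun w hw => (h3 w hw).trans (h3' w (hw.trans h))⟩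
    · subst h
      rw [h1'] at h2
      exact Bool.noConfusion h2
    · exact ⟨v', (h3 v' h).trans h1', h2', fun w hw => (h3 w (hw.trans h)).trans (h3' w hw)⟩
  total a b hab := by
    obtain ⟨v, h1, h2⟩ := exists_first hab
    cases hb : b.testBit v with
    | false =>
      left
      rw [gt_iff]
      refine ⟨v, ?_, hb, h2⟩
      rw [hb] at h1
      exact (Bool.not_eq_false _).mp h1
    | true =>
      right
      rw [gt_iff]
      refine ⟨v, hb, ?_, fun w hw => (h2 w hw).symm⟩
      rw [hb] at h1
      exact (Bool.not_eq_true _).mp h1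
  scale a b c hab hbc := by
    rw [gt_iff] at hab hbc
    obtain ⟨v, h1, h2, h3⟩ := hab
    obtain ⟨v', h1', h2', h3'⟩ := hbc
    have e1 := dl_eq a b v (by rw [h1, h2]; decide) h3
    have e2 := dl_eq b c v' (by rw [h1', h2']; decide) h3'
    rcases lt_trichotomy v v' with h | h | h
    · have e3 := dl_eq a c v (by rw [h1, ← h3' v h, h2]; decide)
        (fun w hw => (h3 w hw).trans (h3' w (hw.trans h)))
      have e4 := cnt_congr (a := a) (b := b) h3
      have e5 := cnt_mono b h.le
      rw [e1, e2, e3, e4, min_eq_left e5]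
    · subst h
      rw [h1'] at h2
      exact Bool.noConfusion h2
    · have e3 := dl_eq a c v' (by rw [h3 v' h, h1', h2']; decide)
        (fun w hw => (h3 w (hw.trans h)).trans (h3' w hw))
      have e4 := cnt_congr (a := a) (b := b) (v := v') (fun w hw => h3 w (hw.trans h))
      have e5 := cnt_mono a h.le
      rw [e1, e2, e3, ← e4, min_eq_right e5]

end L1_aux

theorem iL1 : StL1 := by
  refine ⟨L1_aux.good, ?_, L1_aux.gt_iff, L1_aux.dl_eq⟩
  intro e he
  obtain ⟨v, h1, h2⟩ := L1_aux.exists_first he
  rw [L1_aux.gt_iff]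
  refine ⟨v, ?_, Nat.zero_testBit v, h2⟩
  rw [Nat.zero_testBit] at h1
  exact (Bool.not_eq_false _).mp h1

end Pool.Agent.Work.MP_69fea5_lc.TJ
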