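import Pool.Agent.Work.MP_69fea5_lc.TJ.Stmts

set_option autoImplicit false

/-! The third jump: the T side (item PB). Appending `D :: W` changes the colour if the node `D` is
worth one receipt. -/

namespace Pool.Agent.Work.MP_69fea5_lc.TJ

namespace PB_aux

/-- `d` is a difference of two receipts or a top receipt. -/
def Df (d : A) : Prop := (∃ a b : Fin 8, a ≠ b ∧ d = eT a - eT b) ∨ ∃ r : Fin 8, R1 r ∧ d = eT r

/-- `G'` is `G` with `d` added to one register. -/
def Rel (G G' : ℕ → A) : Prop :=
  ∃ (p : ℕ) (d : A), Df d ∧ ∀ q, G' q = G q + (if q ≤ p then d else 0)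

lemma rel_col {G G' : ℕ → A} (h : Rel G G') : fT (G' 0) ≠ fT (G 0) := by
  obtain ⟨p, d, hd, h⟩ := h
  rw [h 0, if_pos (Nat.zero_le p)]
  rcases hd with ⟨a, b, hab, rfl⟩ | ⟨r, hr, rfl⟩
  · exact table_a _ a b hab
  · exact table_b _ r hr

lemma df_ne {d : A} (hd : Df d) (x : A) : fT (x + d) ≠ fT x := by
  rcases hd with ⟨a, b, hab, rfl⟩ | ⟨r, hr, rfl⟩
  · exact table_a _ a b hab
  · exact table_b _ r hr

lemma rel_add {G G' : ℕ → A} (H : ℕ → A) (h : Rel G G') : Rel (H + G) (H + G') := by
  obtain ⟨p, d, hd, h⟩ := h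
  refine ⟨p, d, hd, fun q => ?_⟩
  rw [Pi.add_apply, Pi.add_apply, h q, add_assoc]

lemma rel_FT {G G' : ℕ → A} (P : ℕ) (h : Rel G G') : Rel (FT P G) (FT P G') := by
  obtain ⟨p, d, hd, h⟩ := h
  by_cases hP : P + 1 ≤ p
  · refine ⟨P, eT (fT (G (P + 1) + d)) - eT (fT (G (P + 1))), Or.inl ⟨_, _, df_ne hd _, rfl⟩,
      fun q => ?_⟩
    by_cases hq : q ≤ P
    · simp only [FT, if_pos hq]
      rw [h q, h (P + 1), if_pos hP, if_pos (by omega : q ≤ p)]
      abel
    · simp only [FT, if_neg hq, add_zero]
  · refine ⟨p, d, hd, fun q => ?_⟩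
    by_cases hq : q ≤ P
    · simp only [FT, if_pos hq]
      rw [h q, h (P + 1), if_neg hP, add_zero]
      abel
    · simp only [FT, if_neg hq]
      rw [if_neg (by omega : ¬ q ≤ p), add_zero]

end PB_aux

open PB_aux in
theorem iPB (hA : StPA) (hO : StPO) : StPB := by
  intro g δ hg t W D j r hr hW hnode
  obtain ⟨-, -, -, hM, -, hU, -, hN⟩ := hA g δ hg
  obtain ⟨-, hO2, hO3, hO4, hO5, hO6, -⟩ := hO g δ hg
  have key : ∀ (n : ℕ) (t : List ℕ), t.length = n →
      (Even (opn g D t) → Rel (M g δ t) (M g δ (t ++ D :: W))) ∧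
      (¬ Even (opn g D t) → Rel (U g δ t) (U g δ (t ++ D :: W))) := by
    intro n
    induction n using Nat.strong_induction_on with
    | _ n ih =>
      intro t hn
      rcases hO4 D t with h | ⟨u, y, v, hdec, hyD⟩
      · refine ⟨fun _ => ?_, fun hodd => ?_⟩
        · rw [hM _ _ _ _ (hO5 D t W hW h), hnode]
          exact ⟨j, eT r, Or.inr ⟨r, hr, rfl⟩, fun q => rfl⟩
        · rw [hO2 D t h] at hodd
          exact absurd (by decide) hodd
      · have hopn := hO3 D t u y v hdec hyD
        have hdec' := hO6 D t W u y v hW hdec hyD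
        have hlen : v.length < n := by
          have e1 := congrArg List.length hdec.1
          simp only [List.length_append, List.length_cons] at e1
          omega
        refine ⟨fun hev => ?_, fun hodd => ?_⟩
        · rcases hO4 D v with h | ⟨u', y', v', hdec1, hyD'⟩
          · exfalso
            rw [hopn, hO2 D v h] at hev
            exact absurd hev (by decide)
          · have hopn1 := hO3 D v u' y' v' hdec1 hyD'
            have hdec1' := hO6 D v W u' y' v' hW hdec1 hyD'
            have hlen' : v'.length < n := by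
              have e2 := congrArg List.length hdec1.1
              simp only [List.length_append, List.length_cons] at e2
              omega
            have hev' : Even (opn g D v') := by
              rw [hopn, hopn1] at hev
              have : opn g D v' + 1 + 1 = opn g D v' + 2 := rfl
              rw [this, Nat.even_add] at hev
              exact hev.mpr (by decide)
            rw [hM _ _ _ _ hdec', hM _ _ _ _ hdec, hN y _ _ _ _ hdec1', hN y _ _ _ _ hdec1]
            exact rel_add _ (rel_FT _ ((ih _ hlen' v' rfl).1 hev'))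
        · have hev : Even (opn g D v) := by
            rw [hopn, Nat.even_add_one] at hodd
            exact not_not.1 hodd
          rw [hU _ _ _ _ hdec', hU _ _ _ _ hdec]
          exact rel_add _ ((ih _ hlen v rfl).1 hev)
  intro hcol
  simp only [colW, Prod.mk.injEq] at hcol
  obtain ⟨k1, k2⟩ := key _ t rfl
  by_cases hev : Even (opn g D t)
  · exact rel_col (k1 hev) hcol.1
  · exact rel_col (k2 hev) hcol.2

end Pool.Agent.Work.MP_69fea5_lc.TJ
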