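import Pool.Agent.Work.MP_69fea5_lc.TJ.Stmts

set_option autoImplicit false

/-! The third jump: exact addition (item PC). -/

namespace Pool.Agent.Work.MP_69fea5_lc.TJ

namespace PC_aux

lemma FT_add (p i : ℕ) (G z : ℕ → A) (hip : i ≤ p) (hz : ∀ q, i < q → z q = 0) :
    FT p (G + z) = FT p G + z := by
  funext q
  have h1 : z (p + 1) = 0 := hz _ (by omega)
  by_cases hq : q ≤ p
  · simp only [FT, Pi.add_apply, if_pos hq, h1, add_zero]
    abel
  · have h2 : z q = 0 := hz _ (by omega)
    simp only [FT, Pi.add_apply, if_neg hq, h2, add_zero]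

end PC_aux

theorem iPC (hA : StPA) (hO : StPO) : StPC := by
  intro g δ hg v W c i hW hz hev hi
  obtain ⟨-, -, -, hM, -, -, -, hnode⟩ := hA g δ hg
  obtain ⟨-, hO2, hO3, hO4, hO5, hO6, -⟩ := hO g δ hg
  induction hn : v.length using Nat.strong_induction_on generalizing v with
  | _ n ih =>
    rcases hO4 c v with h | ⟨u, y, v1, hdec, hyc⟩
    · exact hM _ _ _ _ (hO5 c v W hW h)
    · have hopn := hO3 c v u y v1 hdec hyc
      have hdec' := hO6 c v W u y v1 hW hdec hyc
      rcases hO4 c v1 with h | ⟨u', y', v', hdec1, hyc'⟩
      · exfalso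
        rw [hopn, hO2 c v1 h] at hev
        exact absurd hev (by decide)
      · have hopn1 := hO3 c v1 u' y' v' hdec1 hyc'
        have hdec1' := hO6 c v1 W u' y' v' hW hdec1 hyc'
        have hlen : v'.length < n := by
          have e1 := congrArg List.length hdec.1
          have e2 := congrArg List.length hdec1.1
          simp only [List.length_append, List.length_cons] at e1 e2
          omega
        have hev' : Even (opn g c v') := by
          rw [hopn, hopn1] at hev
          have : opn g c v' + 1 + 1 = opn g c v' + 2 := rfl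
          rw [this, Nat.even_add] at hev
          exact hev.mpr (by decide)
        have hy1 : y' ∈ v1 := by rw [hdec1.1]; simp
        have hsub : ∀ x ∈ v', x ∈ v := by
          intro x hx
          rw [hdec.1, hdec1.1]
          simp [hx]
        have IH := ih v'.length hlen v' hev' (fun x hx => hi x (hsub x hx)) rfl
        have hyy : g y y' = true := hdec.2.2 y' hy1
        have hsc := hg.scale y y' c hyy hyc'
        have hyi : i ≤ δ y c := hi y (by rw [hdec.1]; simp) hyc
        have hip : i ≤ δ y y' := by
          rw [hsc] at hyi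
          exact le_trans hyi (min_le_left _ _)
        rw [hM _ _ _ _ hdec', hM _ _ _ _ hdec, hnode y _ _ _ _ hdec1', hnode y _ _ _ _ hdec1, IH,
          PC_aux.FT_add _ i _ _ hip hz, add_assoc]

end Pool.Agent.Work.MP_69fea5_lc.TJ
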