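import Pool.Agent.Work.MP_69fea5_lc.TJ.Stmts

set_option autoImplicit false

/-! The third jump: a family whose blocks have an odd number of path letters (item PD). -/

namespace Pool.Agent.Work.MP_69fea5_lc.TJ

namespace PD_aux

lemma key (x y : A) : x + (x - y + eT (fT y)) = y - eT (fT y) := by
  have h1 := table_2 x
  have h2 := table_2 (y - eT (fT y))
  have h3 : x + (x - y + eT (fT y)) = (x + x) - (y - eT (fT y)) := by abel
  rw [h3, h1, zero_sub]
  exact neg_eq_of_add_eq_zero_left h2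

end PD_aux

theorem iPD (hA : StPA) (hO : StPO) (hC : StPC) : StPD := by
  intro g δ hg D j i w c hF hodd
  obtain ⟨-, -, -, -, -, -, -, hnode⟩ := hA g δ hg
  obtain ⟨-, hO2, hO3, hO4, -, hO6, -⟩ := hO g δ hg
  have hex : ∀ a, ∃ u y v, Dec g (w a) u y v ∧ g y (c a) = true := by
    intro a
    rcases hO4 (c a) (w a) with h | h
    · have h0 := hodd a
      rw [hO2 (c a) (w a) h] at h0
      exact absurd h0 (by decide)
    · exact h
  choose u y v hdec hyc using hex
  have hev : ∀ a, Even (opn g (c a) (v a)) := by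
    intro a
    have h0 := hodd a
    rw [hO3 (c a) (w a) _ _ _ (hdec a) (hyc a)] at h0
    rw [Nat.odd_add] at h0
    by_contra hne
    rw [Nat.not_even_iff_odd] at hne
    exact absurd (h0.mp hne) (by decide)
  have hy : ∀ a, y a ∈ w a := by
    intro a
    rw [(hdec a).1]
    simp
  have hv : ∀ a, ∀ x ∈ v a, x ∈ w a := by
    intro a x hx
    rw [(hdec a).1]
    simp [hx]
  obtain ⟨a, b, hab, heq⟩ : ∃ a b, a < b ∧ ∀ q ≤ i + 1, M g δ (v a) q = M g δ (v b) q := by
    obtain ⟨a, b, hne, hE⟩ := Finite.exists_ne_map_eq_of_infinite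
      (fun a : ℕ => (fun q : Fin (i + 2) => M g δ (v a) q : Fin (i + 2) → A))
    have hE' : ∀ q ≤ i + 1, M g δ (v a) q = M g δ (v b) q := by
      intro q hq
      exact congrFun hE ⟨q, by omega⟩
    rcases Nat.lt_or_gt_of_ne hne with h | h
    · exact ⟨a, b, h, hE'⟩
    · exact ⟨b, a, h, fun q hq => (hE' q hq).symm⟩
  have hji := hF.lt
  have hW : ∀ x ∈ w b, g (c a) x = true := fun x hx => (hF.hw a b hab x hx).1
  have hz : node g δ (c a) (w b) = FT i (M g δ (v b)) := by
    rw [hnode (c a) _ _ _ _ (hdec b), (hF.hw a b hab _ (hy b)).2 (hyc b)]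
  have hz0 : ∀ q, i < q → node g δ (c a) (w b) q = 0 := by
    intro q hq
    rw [hz, FT, if_neg (by omega)]
  have hadd : M g δ (v a ++ c a :: w b) = M g δ (v a) + node g δ (c a) (w b) :=
    hC g δ hg (v a) (w b) (c a) i hW hz0 (hev a)
      (fun x hx hxc => ((hF.hDw a x (hv a x hx)).2 hxc).2)
  have hdec2 := hO6 (c a) (w a) (w b) _ _ _ hW (hdec a) (hyc a)
  have hnD : node g δ D (w a ++ c a :: w b) = FT j (M g δ (v a ++ c a :: w b)) := by
    rw [hnode D _ _ _ _ hdec2, ((hF.hDw a _ (hy a)).2 (hyc a)).1]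
  have hval : ∀ q ≤ i, M g δ (v a ++ c a :: w b) q =
      M g δ (v a) (i + 1) - eT (fT (M g δ (v a) (i + 1))) := by
    intro q hq
    rw [hadd, Pi.add_apply, hz, FT, if_pos hq, ← heq q (by omega), ← heq (i + 1) le_rfl]
    exact PD_aux.key _ _
  refine ⟨a, b, fT (M g δ (v a) (i + 1) - eT (fT (M g δ (v a) (i + 1)))), hab, table_c _, ?_⟩
  rw [hnD]
  funext q
  by_cases hq : q ≤ j
  · rw [FT, if_pos hq, if_pos hq, hval q (by omega), hval (j + 1) (by omega), sub_self, zero_add]
  · rw [FT, if_neg hq, if_neg hq]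

end Pool.Agent.Work.MP_69fea5_lc.TJ
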