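import Pool.Agent.Work.MP_69fea5_lc.TJ.Stmts

set_option autoImplicit false

/-! PE: from simple families to families with an odd number of path letters. -/

namespace Pool.Agent.Work.MP_69fea5_lc.TJ

namespace PE_aux

variable {g : ℕ → ℕ → Bool} {δ : ℕ → ℕ → ℕ} {D j i : ℕ} {w : ℕ → List ℕ} {c : ℕ → ℕ}

/-- Every second block of a simple family. -/
lemma fam_two (hg : Good g δ) (F : FamS g δ D j i w c) :
    Fam g δ D j i (fun a => w (2 * a + 2)) (fun a => c (2 * a + 2)) := by
  refine ⟨F.lt, fun a => F.hD _, ?_, fun a b hab => F.hc _ _ (by omega), ?_⟩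
  · intro a x hx
    have h0 : g (c 0) x = true := F.hw 0 (2 * a + 2) (by omega) x hx
    refine ⟨hg.trans _ _ _ (F.hD 0).1 h0, fun hxc => ?_⟩
    have h1 := hg.scale _ _ _ h0 hxc
    rw [(F.hc 0 (2 * a + 2) (by omega)).2] at h1
    have h2 := hg.scale _ _ _ (F.hD 0).1 h0
    rw [(F.hD 0).2] at h2
    have hlt := F.lt
    have h3 : i ≤ δ (c 0) x := by rw [h1]; exact min_le_left _ _
    have h4 : i ≤ δ x (c (2 * a + 2)) := by
      calc i = min (δ (c 0) x) (δ x (c (2 * a + 2))) := h1
        _ ≤ _ := min_le_right _ _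
    refine ⟨?_, h4⟩
    rw [h2]
    exact min_eq_left (by omega)
  · intro a b hab x hx
    have h0 : g (c (2 * a + 3)) x = true := F.hw (2 * a + 3) (2 * b + 2) (by omega) x hx
    have h1 := F.hc (2 * a + 2) (2 * a + 3) (by omega)
    refine ⟨F.hw (2 * a + 2) (2 * b + 2) (by omega) x hx, fun hxc => ?_⟩
    have h2 := hg.scale _ _ _ h0 hxc
    rw [(F.hc (2 * a + 3) (2 * b + 2) (by omega)).2] at h2
    have h3 := hg.scale _ _ _ h1.1 h0
    rw [h1.2] at h3
    have h4 : i ≤ δ (c (2 * a + 3)) x := by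
      calc i = min (δ (c (2 * a + 3)) x) (δ x (c (2 * b + 2))) := h2
        _ ≤ _ := min_le_left _ _
    show δ (c (2 * a + 2)) x = i
    rw [h3]
    exact min_eq_left h4

/-- A subsequence of a family. -/
lemma fam_sub (F : Fam g δ D j i w c) {φ : ℕ → ℕ} (hφ : StrictMono φ) :
    Fam g δ D j i (fun a => w (φ a)) (fun a => c (φ a)) :=
  ⟨F.lt, fun _ => F.hD _, fun _ x hx => F.hDw _ x hx, fun _ _ hab => F.hc _ _ (hφ hab),
    fun _ _ hab x hx => F.hw _ _ (hφ hab) x hx⟩

/-- Pairs of blocks of a family. -/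
lemma fam_pair (hg : Good g δ) (F : Fam g δ D j i w c) :
    Fam g δ D j i (fun a => w (2 * a) ++ c (2 * a) :: w (2 * a + 1)) (fun a => c (2 * a + 1)) := by
  have hlt := F.lt
  refine ⟨F.lt, fun a => F.hD _, ?_, fun a b hab => F.hc _ _ (by omega), ?_⟩
  · intro a x hx
    have hcc := F.hc (2 * a) (2 * a + 1) (by omega)
    rcases List.mem_append.1 hx with hx | hx
    · have hDx := F.hDw (2 * a) x hx
      refine ⟨hDx.1, fun hxc => ?_⟩
      by_cases hxe : x = c (2 * a)
      · subst hxe
        exact ⟨(F.hD _).2, hcc.2.ge⟩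
      · rcases hg.total _ _ hxe with h | h
        · refine ⟨(hDx.2 h).1, ?_⟩
          rw [hg.scale _ _ _ h hcc.1, hcc.2]
          exact le_min (hDx.2 h).2 le_rfl
        · have h1 := hg.scale _ _ _ h hxc
          rw [hcc.2] at h1
          have h2 := hg.scale _ _ _ (F.hD (2 * a)).1 h
          rw [(F.hD (2 * a)).2] at h2
          have h3 : i ≤ δ (c (2 * a)) x := by
            calc i = min (δ (c (2 * a)) x) (δ x (c (2 * a + 1))) := h1
              _ ≤ _ := min_le_left _ _
          have h4 : i ≤ δ x (c (2 * a + 1)) := by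
            calc i = min (δ (c (2 * a)) x) (δ x (c (2 * a + 1))) := h1
              _ ≤ _ := min_le_right _ _
          refine ⟨?_, h4⟩
          rw [h2]
          exact min_eq_left (by omega)
    · rcases List.mem_cons.1 hx with hx | hx
      · subst hx
        exact ⟨(F.hD _).1, fun _ => ⟨(F.hD _).2, hcc.2.ge⟩⟩
      · exact F.hDw (2 * a + 1) x hx
  · intro a b hab x hx
    have hcc := F.hc (2 * b) (2 * b + 1) (by omega)
    have hab' := F.hc (2 * a + 1) (2 * b) (by omega)
    rcases List.mem_append.1 hx with hx | hx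
    · have hw := F.hw (2 * a + 1) (2 * b) (by omega) x hx
      refine ⟨hw.1, fun hxc => ?_⟩
      by_cases hxe : x = c (2 * b)
      · subst hxe
        exact hab'.2
      · rcases hg.total _ _ hxe with h | h
        · exact hw.2 h
        · have h1 := hg.scale _ _ _ h hxc
          rw [hcc.2] at h1
          have h2 := hg.scale _ _ _ hab'.1 h
          rw [hab'.2] at h2
          have h3 : i ≤ δ (c (2 * b)) x := by
            calc i = min (δ (c (2 * b)) x) (δ x (c (2 * b + 1))) := h1
              _ ≤ _ := min_le_left _ _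
          show δ (c (2 * a + 1)) x = i
          rw [h2]
          exact min_eq_left h3
    · rcases List.mem_cons.1 hx with hx | hx
      · subst hx
        exact ⟨hab'.1, fun _ => hab'.2⟩
      · exact F.hw (2 * a + 1) (2 * b + 1) (by omega) x hx

/-- A subsequence on which a predicate is constant. -/
lemma exists_sub (P : ℕ → Prop) :
    (∃ φ : ℕ → ℕ, StrictMono φ ∧ ∀ a, P (φ a)) ∨ ∃ φ : ℕ → ℕ, StrictMono φ ∧ ∀ a, ¬ P (φ a) := by
  classical
  by_cases h : ∃ N, ∀ n, N ≤ n → ¬ P n
  · obtain ⟨N, hN⟩ := h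
    exact Or.inr ⟨fun a => N + a, fun a b hab => Nat.add_lt_add_left hab N,
      fun a => hN _ (Nat.le_add_right _ _)⟩
  · push Not at h
    refine Or.inl (Nat.exists_strictMono_subsequence fun n => ?_)
    obtain ⟨m, hm, hP⟩ := h (n + 1)
    exact ⟨m, hm, hP⟩

end PE_aux

theorem iPE (hO : StPO) : StPE := by
  intro g δ hg D j i w c F
  obtain ⟨-, -, -, -, -, -, hO⟩ := hO g δ hg
  have F2 := PE_aux.fam_two hg F
  rcases PE_aux.exists_sub (fun a => Odd (opn g (c (2 * a + 2)) (w (2 * a + 2)))) with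
    ⟨φ, hφ, h⟩ | ⟨φ, hφ, h⟩
  · refine ⟨fun a => w (2 * φ a + 2), fun a => c (2 * φ a + 2), PE_aux.fam_sub F2 hφ, h, ?_⟩
    intro a b hab
    have hab' := hφ hab
    refine ⟨[2 * φ a + 2, 2 * φ b + 2], by simp, by simp, ?_, rfl⟩
    simp only [List.pairwise_cons, List.mem_cons, List.not_mem_nil, or_false, forall_eq,
      IsEmpty.forall_iff, implies_true, List.Pairwise.nil, and_true]
    omega
  · have F3 := PE_aux.fam_sub F2 hφ
    have F4 := PE_aux.fam_pair hg F3
    refine ⟨_, _, F4, ?_, ?_⟩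
    · intro a
      show Odd (opn g (c (2 * φ (2 * a + 1) + 2)) (w (2 * φ (2 * a) + 2) ++
        c (2 * φ (2 * a) + 2) :: w (2 * φ (2 * a + 1) + 2)))
      rw [hO _ _ _ _ (F3.hc (2 * a) (2 * a + 1) (by omega)).1
        (fun x hx => (F3.hw (2 * a) (2 * a + 1) (by omega) x hx).1)]
      have h1 := Nat.not_odd_iff_even.1 (h (2 * a))
      have h2 := Nat.not_odd_iff_even.1 (h (2 * a + 1))
      rcases h1 with ⟨m, hm⟩
      rcases h2 with ⟨n, hn⟩
      refine ⟨m + n, ?_⟩
      rw [hm, hn]
      ring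
    · intro a b hab
      have h1 : φ (2 * a) < φ (2 * a + 1) := hφ (by omega)
      have h2 : φ (2 * a + 1) < φ (2 * b) := hφ (by omega)
      have h3 : φ (2 * b) < φ (2 * b + 1) := hφ (by omega)
      refine ⟨[2 * φ (2 * a) + 2, 2 * φ (2 * a + 1) + 2, 2 * φ (2 * b) + 2,
        2 * φ (2 * b + 1) + 2], by simp, by simp, ?_, ?_⟩
      · simp only [List.pairwise_cons, List.mem_cons, List.not_mem_nil, or_false, forall_eq_or_imp,
          forall_eq, IsEmpty.forall_iff, implies_true, List.Pairwise.nil, and_true]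
        omega
      · simp [join, List.append_assoc]

end Pool.Agent.Work.MP_69fea5_lc.TJ
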