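import Pool.Agent.Work.MP_69fea5_lc.TJ.Stmts

set_option autoImplicit false

/-! The third jump, item PR3: the colouring is primitive recursive. -/

namespace Pool.Agent.Work.MP_69fea5_lc.TJ

open Pool.Agent.Work.MP_69fea5_lc.DJ (bits lo hi)

theorem iPR3 (h1 : StPR1) (h2 : StPR2) : StPR3 := by
  intro R hR
  obtain ⟨hgt, hdl, h3⟩ := h2
  obtain ⟨-, -, hw⟩ := h3 R hR
  have hc := (h1 gt dl hgt hdl).2
  have hb := Pool.Agent.Work.MP_69fea5_lc.DJ.pr_bits
  have hl := Pool.Agent.Work.MP_69fea5_lc.DJ.pr_lo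
  exact hc.comp (hw.comp (hl.comp hb) hb)

end Pool.Agent.Work.MP_69fea5_lc.TJ
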