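import Pool.Agent.Work.MP_69fea5_lc.TJ.Stmts

set_option autoImplicit false

/-! The third jump: assembly of T1 and of F6. -/

namespace Pool.Agent.Work.MP_69fea5_lc.TJ

open Pool.Agent.Work.MP_69fea5_lc.DJ (bits lo hi S V Bl lam mu chi seg)

theorem iT1 (hB : StPB) (hD : StPD) (hE : StPE) : StT1 := by
  intro g δ hg D j i w c hF t
  obtain ⟨w', c', hF', hodd, hs⟩ := hE g δ hg D j i w c hF
  obtain ⟨a, b, r, hab, hr, hn⟩ := hD g δ hg D j i w' c' hF' hodd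
  obtain ⟨s, h1, h2, h3, h4⟩ := hs a b hab
  refine ⟨s, h1, h2, h3, ?_⟩
  rw [← h4]
  refine hB g δ hg t _ D j r hr ?_ hn
  intro x hx
  rw [List.mem_append, List.mem_cons] at hx
  rcases hx with hx | rfl | hx
  · exact (hF'.hDw a x hx).1
  · exact (hF'.hD a).1
  · exact (hF'.hDw b x hx).1

theorem iF6 (hCL : StCL) (h1 : StF1) (h4 : StF4) (h5 : StF5) : StF6 := by
  intro X h2 hX T Q hQ hT
  have hcl := hCL R₀ X h1.1 hX
  have hc := h4 R₀ X h1.1 hX.pos hX.far hcl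
  have hr := h5 X h2 hc
  obtain ⟨e, he⟩ := h1.2.2 T Q hQ hT
  have k2 := DJ.comp_rec hr (g := fun n => Nat.pair e n + 1)
    (Primrec.succ.comp (Primrec₂.natPair.comp (Primrec.const e) Primrec.id))
  refine k2.of_eq (fun n => ?_)
  have e1 : (Nat.pair e n + 1 ∈ {q | ∃ v, Inf R₀ v ∧ v.unpair.1 = q}) ↔ n ∈ T := (he n).symm
  show chi _ (Nat.pair e n + 1) = chi T n
  unfold chi
  by_cases h : n ∈ T
  · rw [if_pos h, if_pos (e1.2 h)]
  · rw [if_neg h, if_neg (fun h' => h (e1.1 h'))]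

end Pool.Agent.Work.MP_69fea5_lc.TJ
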