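import Pool.Agent.Work.MP_69fea5_lc.TJ.I_T1
import Pool.Agent.Work.MP_69fea5_lc.S4.Main

set_option autoImplicit false

/-! The third jump: the colouring with 384 colours. -/

namespace Pool.Agent.Work.MP_69fea5_lc.TJ

open Pool.Agent.Work.MP_69fea5_lc.DJ (bits lo hi S V Bl lam mu chi seg)
open Pool.Agent.Work.MP_69fea5_lc.S4 (d6 d6_lt pr_d6)
open Primrec

/-- The colouring with 384 colours. -/
noncomputable def c384 (n : ℕ) : ℕ :=
  64 * d6 n + (8 * (colT R₀ n).1.val + (colT R₀ n).2.val)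

lemma c384_lt (n : ℕ) : c384 n < 384 := by
  have h1 := d6_lt n
  have h2 := (colT R₀ n).1.isLt
  have h3 := (colT R₀ n).2.isLt
  unfold c384
  omega

lemma pr_c384 (h3 : StPR3) (h1 : StF1) : Primrec c384 := by
  have h := h3 R₀ h1.2.1
  have e1 : Primrec fun n => (colT R₀ n).1.val := fin_val_iff.mpr (fst.comp h)
  have e2 : Primrec fun n => (colT R₀ n).2.val := fin_val_iff.mpr (snd.comp h)
  exact nat_add.comp (nat_mul.comp (const 64) pr_d6) (nat_add.comp (nat_mul.comp (const 8) e1) e2)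

lemma c384_inj {n m : ℕ} (h : c384 n = c384 m) : d6 n = d6 m ∧ colT R₀ n = colT R₀ m := by
  have h2 := (colT R₀ n).1.isLt
  have h3 := (colT R₀ n).2.isLt
  have h4 := (colT R₀ m).1.isLt
  have h5 := (colT R₀ m).2.isLt
  unfold c384 at h
  refine ⟨by omega, Prod.ext (Fin.ext ?_) (Fin.ext ?_)⟩ <;> omega

/-- The main theorem, from the statements. -/
theorem main_of (hCL : StCL) (h1 : StF1) (h4 : StF4) (h5 : StF5) {X : Set ℕ} (hX : X.Infinite)
    (hpos : ∀ x ∈ X, 0 < x)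
    (hc : ∃ b, ∀ F : Finset ℕ, F.Nonempty → F.card ≤ 6 → (↑F : Set ℕ) ⊆ X →
      c384 (∑ x ∈ F, x) = b) :
    (∀ (T : Set ℕ), (∃ Q : ℕ → ℕ → ℕ → ℕ → Bool,
      (Computable fun t : ℕ × ℕ × ℕ × ℕ => Q t.1 t.2.1 t.2.2.1 t.2.2.2) ∧
      ∀ n, n ∈ T ↔ ∃ s, ∀ t, ∃ u, Q n s t u = true) → Nat.RecursiveIn {chi X} (chi T)) ∧
    S4.Concl X := by
  classical
  obtain ⟨b, hb⟩ := hc
  obtain ⟨x₀, hx₀⟩ := hX.nonempty
  have hb0 : c384 x₀ = b := by
    have := hb {x₀} (by simp) (by simp) (by simpa using hx₀)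
    simpa using this
  have hm : DJ.Mono4 d6 X := by
    refine ⟨d6 x₀, fun F h1 h2 h3 => ?_⟩
    exact (c384_inj ((hb F h1 (by omega) h3).trans hb0.symm)).1
  obtain ⟨k1, k2⟩ := S4.six hX hpos hm
  refine ⟨?_, k2⟩
  have hTwo : Two X := fun T Q hQ hT => k1 T ⟨Q, hQ, hT⟩
  -- the fibers
  obtain ⟨b', s1, s2, s3, s4⟩ := hm.sums
  have hb' : d6 x₀ = b' := s1 x₀ hx₀
  have g : ∀ n, d6 n = b' → DJ.col3 (DJ.col DJ.A₀.WE) n = DJ.col3 (DJ.col DJ.A₀.WE) x₀ :=
    fun n hn => (S4.d6_inj (hn.trans hb'.symm)).1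
  have hf := DJ.fiber_finite hpos (c := DJ.col DJ.A₀.WE) (fun x hx => g _ (s1 x hx))
    (fun x hx y hy hxy => g _ (s2 x hx y hy hxy))
    (fun x hx y hy z hz w hw hxy hyz hzw => g _ (s4 x hx y hy z hz w hw hxy hyz hzw))
  have hyp : Hyp R₀ X := by
    refine ⟨fun h => absurd (hpos 0 h) (lt_irrefl 0), ?_, colT R₀ x₀, ?_⟩
    · intro B
      obtain ⟨y, hy, hBy, hmod⟩ := DJ.exists_next hX hpos hf B
      exact ⟨y, hy, hBy.le, Nat.dvd_of_mod_eq_zero hmod⟩
    · intro f hf hl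
      have e : ∑ x ∈ (bits f).toFinset, x = S f := by
        rw [List.sum_toFinset _ (DJ.nodup_bits f)]
        simp [S]
      have h2 := hb (bits f).toFinset (by
        rw [List.toFinset_nonempty_iff]
        exact DJ.bits_ne_nil hf.1) (by
        rw [List.toFinset_card_of_nodup (DJ.nodup_bits f)]
        exact hl) (by
        intro i hi
        rw [List.coe_toFinset] at hi
        exact hf.2 i hi)
      rw [e] at h2
      exact (c384_inj (h2.trans hb0.symm)).2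
  rintro T ⟨Q, hQ, hT⟩
  exact iF6 hCL h1 h4 h5 X hTwo hyp T Q hQ hT

end Pool.Agent.Work.MP_69fea5_lc.TJ
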