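import Pool.Agent.Work.MP_69fea5_lc.TJ.T1

/-!
# A stack machine for the tower painter, and its primitive recursiveness
-/

open List

namespace Pool.Agent.TJPr

open Pool.Agent.TJT1

/-! ### The table, coded -/

/-- the eight elements of the group -/
def ph (a : Fin 8) : ZMod 2 × ZMod 2 × ZMod 2 :=
  ([(0, 0, 0), (0, 0, 1), (0, 1, 0), (0, 1, 1), (1, 0, 0), (1, 0, 1), (1, 1, 0), (1, 1, 1)] :
    List (ZMod 2 × ZMod 2 × ZMod 2)).getD a.val 0

/-- addition -/
def adT (a b : Fin 8) : Fin 8 :=
  ⟨(a.val ^^^ b.val) % 8, Nat.mod_lt _ (by norm_num)⟩

/-- readings -/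
def sgT (q : Fin 4) (a : Fin 8) : Fin 4 := sgt q (ph a)

/-- receipts -/
def taT (q : Fin 4) : Fin 8 := ([4, 6, 7, 5] : List (Fin 8)).getD q.val 0

theorem ph_zero : ph 0 = 0 := by decide

theorem ph_ad (a b : Fin 8) : ph (adT a b) = ph a + ph b := by
  revert a b
  decide

theorem ph_ta (q : Fin 4) : ph (taT q) = tat q := by
  revert q
  decide

/-- subtraction is addition -/
theorem sub_eq_add' (a b : ZMod 2 × ZMod 2 × ZMod 2) : a - b = a + b := by
  revert a b
  decide

/-- vectors -/
abbrev Vec := List (Fin 8)

/-- the vector as a function -/
def toV (v : Vec) (k : ℕ) : tab.A := ph (v.getD k 0)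

/-- reading -/
def rdL (v : Vec) (n : ℕ) : Fin 4 :=
  (List.range n).foldl (fun q k => sgT q (v.getD k 0)) 0

/-- cut -/
def cutL (N s : ℕ) (v : Vec) : Vec :=
  (List.range N).map (fun k => if k < s then 0 else
    if k = s then adT (v.getD s 0) (taT (rdL v s)) else v.getD k 0)

/-- sum -/
def addL (N : ℕ) (u v : Vec) : Vec :=
  (List.range N).map (fun k => adT (u.getD k 0) (v.getD k 0))

theorem getD_map_range (N k : ℕ) (f : ℕ → Fin 8) (h : k < N) :
    ((List.range N).map f).getD k 0 = f k := by
  rw [List.getD_eq_getElem?_getD]
  simp [h]

theorem rd_eq (f : ℕ → tab.A) (v : Vec) (n : ℕ) (h : ∀ k < n, f k = toV v k) :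
    rd tab n f = rdL v n := by
  induction n with
  | zero => rfl
  | succ n ih =>
    unfold rd rdL
    rw [List.range_succ, List.foldl_append, ih (fun k hk => h k (by omega)), h n (by omega)]
    rfl

theorem cut_eq (N s : ℕ) (hs : s < N) (f : ℕ → tab.A) (v : Vec) (h : ∀ k < N, f k = toV v k)
    (k : ℕ) (hk : k < N) : cut tab s f k = toV (cutL N s v) k := by
  unfold toV cutL
  rw [getD_map_range N k _ hk]
  unfold cut
  split_ifs with h1 h2
  · exact ph_zero.symm
  · rw [rd_eq f v s (fun k hk => h k (by omega)), h s hs, ph_ad, ph_ta]
    exact sub_eq_add' _ _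
  · exact h k hk

theorem add_eq (N : ℕ) (f g : ℕ → tab.A) (u v : Vec) (hf : ∀ k < N, f k = toV u k)
    (hg : ∀ k < N, g k = toV v k) (k : ℕ) (hk : k < N) : (f + g) k = toV (addL N u v) k := by
  rw [Pi.add_apply, hf k hk, hg k hk]
  unfold toV addL
  rw [getD_map_range N k _ hk, ph_ad]
  rfl

/-! ### The machine -/

section Machine

variable {β : Type*} [Inhabited β] (le : β → β → Bool) (sc : β → β → ℕ) (N : ℕ)

/-- close the top frame -/
def pop (st : List (β × Vec)) : List (β × Vec) :=
  if 2 ≤ st.length then
    ((st.getD 1 default).1,
      if st.length % 2 = 0 then addL N (st.getD 1 default).2 (st.getD 0 default).2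
      else cutL N (sc (st.getD 1 default).1 (st.getD 0 default).1) (st.getD 0 default).2) ::
      st.tail.tail
  else st

/-- close the top frame if its letter is at most `c` -/
def popIf (c : β) (st : List (β × Vec)) : List (β × Vec) :=
  if 2 ≤ st.length ∧ le (st.getD 0 default).1 c = true then pop sc N st else st

/-- a new letter -/
def step (st : List (β × Vec)) (c : β) : List (β × Vec) :=
  (c, []) :: (popIf le sc N c)^[st.length] st

/-- run the machine -/
def runM (w : List β) (st : List (β × Vec)) : List (β × Vec) :=
  w.foldl (step le sc N) st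

/-- the final value -/
def SL (w : List β) : Vec :=
  (((pop sc N)^[(runM le sc N w [default]).length] (runM le sc N w [default])).getD 0 default).2

/-- the letters after the last occurrence of the largest one -/
def sufStep (o : Option (β × List β)) (x : β) : Option (β × List β) :=
  o.elim (some (x, [])) (fun q => if le q.1 x = true then some (x, []) else some (q.1, q.2 ++ [x]))

/-- the letters after the last occurrence of the largest one -/
def sufL (w : List β) : List β := ((w.foldl (sufStep le) none).getD (default, [])).2

/-- the colour -/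
def VL (w : List β) : Fin 4 × Fin 4 :=
  (rdL (SL le sc N w) N, rdL (SL le sc N (sufL le w)) N)

end Machine

/-! ### Correctness -/

section Correct

variable {β : Type*} [LinearOrder β] [Inhabited β] (le : β → β → Bool)
  (hle : ∀ a b, le a b = true ↔ a ≤ b) (sc : β → β → ℕ) (N : ℕ)

theorem pop_even (x y : β) (v u : Vec) (rest : List (β × Vec)) (h : rest.length % 2 = 0) :
    pop sc N ((x, v) :: (y, u) :: rest) = (y, addL N u v) :: rest := by
  simp only [pop, List.length_cons]
  rw [if_pos (by omega), if_pos (by omega)]
  rfl

theorem pop_odd (x y : β) (v u : Vec) (rest : List (β × Vec)) (h : rest.length % 2 = 1) :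
    pop sc N ((x, v) :: (y, u) :: rest) = (y, cutL N (sc y x) v) :: rest := by
  simp only [pop, List.length_cons]
  rw [if_pos (by omega), if_neg (by omega)]
  rfl

theorem pop_single (a : β × Vec) : pop sc N [a] = [a] := by
  simp [pop]

theorem letters_pop (a b : β × Vec) (rest : List (β × Vec)) :
    (pop sc N (a :: b :: rest)).map Prod.fst = b.1 :: rest.map Prod.fst := by
  simp [pop]

include hle in
theorem popIf_iter (c : β) (A B : List β) (hB : B ≠ []) (hA : ∀ x ∈ A, x ≤ c)
    (hB' : B.length = 1 ∨ ∀ y ∈ B.head?, c < y) (st : List (β × Vec))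
    (hst : st.map Prod.fst = A ++ B) (n : ℕ) (hn : A.length ≤ n) :
    (popIf le sc N c)^[n] st = (pop sc N)^[A.length] st := by
  induction A generalizing st n with
  | nil =>
    have hfix : popIf le sc N c st = st := by
      unfold popIf
      rw [if_neg]
      rintro ⟨h1, h2⟩
      rw [List.nil_append] at hst
      rcases hB' with h | h
      · rw [← hst, List.length_map] at h
        omega
      · cases st with
        | nil => simp at h1
        | cons a st =>
          rw [← hst] at h
          have := h a.1 (by simp)
          rw [hle] at h2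
          simp only [List.getD_cons_zero] at h2
          exact absurd h2 (not_le.2 this)
    rw [Function.iterate_fixed hfix]
    rfl
  | cons a A ih =>
    obtain ⟨b, B', rfl⟩ : ∃ b B', B = b :: B' := List.exists_cons_of_ne_nil hB
    obtain ⟨n, rfl⟩ : ∃ m, n = m + 1 := ⟨n - 1, by rw [List.length_cons] at hn; omega⟩
    obtain ⟨a₁, st', rfl⟩ : ∃ a₁ st', st = a₁ :: st' := by
      cases st with
      | nil => simp at hst
      | cons a₁ st' => exact ⟨a₁, st', rfl⟩
    obtain ⟨a₂, st'', rfl⟩ : ∃ a₂ st'', st' = a₂ :: st'' := by
      cases st' with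
      | nil => simp at hst
      | cons a₂ st'' => exact ⟨a₂, st'', rfl⟩
    simp only [List.map_cons, List.cons_append, List.cons.injEq] at hst
    have h1 : popIf le sc N c (a₁ :: a₂ :: st'') = pop sc N (a₁ :: a₂ :: st'') := by
      unfold popIf
      rw [if_pos]
      refine ⟨by simp, ?_⟩
      rw [hle, List.getD_cons_zero, hst.1]
      exact hA a (by simp)
    rw [Function.iterate_succ_apply, h1, List.length_cons, Function.iterate_succ_apply]
    apply ih (fun x hx => hA x (by simp [hx]))
    · rw [letters_pop]
      exact hst.2
    · rw [List.length_cons] at hn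
      omega

theorem toV_nil (k : ℕ) : toV [] k = 0 := by
  unfold toV
  rw [List.getD_nil, ph_zero]
  rfl

theorem toV_add (u v : Vec) (k : ℕ) (hk : k < N) : toV (addL N u v) k = toV u k + toV v k := by
  unfold toV addL
  rw [getD_map_range N k _ hk, ph_ad]
  rfl

include hle in
theorem machine (hsc : ∀ a b, sc a b < N) (n : ℕ) (w : List β) (hw : w.length ≤ n) (y : β)
    (v : Vec) (rest : List (β × Vec)) (hr : rest ≠ [] → ∀ x ∈ w, x < y) :
    ∃ (A : List β) (v' : Vec),
      (runM le sc N w ((y, v) :: rest)).map Prod.fst = A ++ y :: rest.map Prod.fst ∧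
      (∀ x ∈ A, x ∈ w) ∧
      (pop sc N)^[A.length] (runM le sc N w ((y, v) :: rest)) = (y, v') :: rest ∧
      (rest.length % 2 = 0 → ∀ k < N, toV v' k = toV v k + S tab sc w k) ∧
      (rest.length % 2 = 1 → (w = [] → v' = v) ∧
        (w ≠ [] → ∀ k < N, toV v' k = M tab sc y w k)) := by
  induction n generalizing w y v rest with
  | zero =>
    have : w = [] := List.length_eq_zero_iff.1 (by omega)
    subst this
    refine ⟨[], v, rfl, by simp, rfl, fun _ k _ => ?_, fun _ => ⟨fun _ => rfl, fun h => absurd rfl h⟩⟩
    rw [S_nil]
    exact (add_zero _).symm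
  | succ n ih =>
    by_cases hne : w = []
    · subst hne
      refine ⟨[], v, rfl, by simp, rfl, fun _ k _ => ?_,
        fun _ => ⟨fun _ => rfl, fun h => absurd rfl h⟩⟩
      rw [S_nil]
      exact (add_zero _).symm
    · obtain ⟨p, m, s, rfl, hp, hs⟩ := decomp w hne
      rw [List.length_append, List.length_cons] at hw
      obtain ⟨A₁, v₁, h1, h2, h3, h4, h5⟩ := ih p (by omega) y v rest
        (fun h x hx => hr h x (by simp [hx]))
      have hstep : step le sc N (runM le sc N p ((y, v) :: rest)) m =
          (m, []) :: (y, v₁) :: rest := by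
        unfold step
        rw [popIf_iter le hle sc N m A₁ (y :: rest.map Prod.fst) (by simp)
          (fun x hx => hp x (h2 x hx)) ?_ _ h1 _ ?_, h3]
        · by_cases hrn : rest = []
          · left
            simp [hrn]
          · right
            intro z hz
            simp only [List.head?_cons, Option.mem_def, Option.some.injEq] at hz
            subst hz
            exact hr hrn m (by simp)
        · have := congrArg List.length h1
          rw [List.length_map, List.length_append] at this
          omega
      have hrun : runM le sc N (p ++ m :: s) ((y, v) :: rest) =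
          runM le sc N s ((m, []) :: (y, v₁) :: rest) := by
        unfold runM
        rw [List.foldl_append, List.foldl_cons]
        unfold runM at hstep
        rw [hstep]
      obtain ⟨A₂, v₂, g1, g2, g3, g4, g5⟩ := ih s (by omega) m [] ((y, v₁) :: rest)
        (fun _ x hx => hs x hx)
      have hlen : (A₂ ++ [m]).length = A₂.length + 1 := by simp
      rcases Nat.mod_two_eq_zero_or_one rest.length with hpar | hpar
      · refine ⟨A₂ ++ [m], addL N v₁ v₂, ?_, ?_, ?_, ?_, ?_⟩
        · rw [hrun, g1]
          simp
        · intro x hx
          rcases List.mem_append.1 hx with hx | hx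
          · simp [g2 x hx]
          · simp at hx
            simp [hx]
        · rw [hrun, hlen, Function.iterate_succ_apply', g3, pop_even sc N m y v₂ v₁ rest hpar]
        · intro _ k hk
          have e1 : toV v₂ k = M tab sc m s k := by
            have hodd : ((y, v₁) :: rest).length % 2 = 1 := by
              rw [List.length_cons]
              omega
            by_cases hsn : s = []
            · rw [(g5 hodd).1 hsn, hsn, M_nil]
              exact toV_nil k
            · exact (g5 hodd).2 hsn k hk
          rw [toV_add N v₁ v₂ k hk, h4 hpar k hk, e1, S_app tab sc p m s hp hs, Pi.add_apply]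
          exact add_assoc _ _ _
        · intro h
          omega
      · refine ⟨A₂ ++ [m], cutL N (sc y m) v₂, ?_, ?_, ?_, ?_, ?_⟩
        · rw [hrun, g1]
          simp
        · intro x hx
          rcases List.mem_append.1 hx with hx | hx
          · simp [g2 x hx]
          · simp at hx
            simp [hx]
        · rw [hrun, hlen, Function.iterate_succ_apply', g3, pop_odd sc N m y v₂ v₁ rest hpar]
        · intro h
          omega
        · intro _
          refine ⟨fun h => by simp at h, fun _ k hk => ?_⟩
          have heven : ((y, v₁) :: rest).length % 2 = 0 := by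
            rw [List.length_cons]
            omega
          have e1 : ∀ k < N, S tab sc s k = toV v₂ k := by
            intro k hk
            rw [g4 heven k hk, toV_nil]
            exact (zero_add _).symm
          rw [M_app tab sc y p m s hp hs, cut_eq N (sc y m) (hsc _ _) _ _ e1 k hk]

include hle in
theorem SL_eq (hsc : ∀ a b, sc a b < N) (w : List β) (k : ℕ) (hk : k < N) :
    S tab sc w k = toV (SL le sc N w) k := by
  obtain ⟨A, v', h1, -, h3, h4, -⟩ := machine le hle sc N hsc _ w le_rfl
    (default : β × Vec).1 (default : β × Vec).2 [] (fun h => absurd rfl h)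
  have hlen := congrArg List.length h1
  rw [List.length_map, List.length_append] at hlen
  simp only [List.map_nil, List.length_cons, List.length_nil, Nat.zero_add] at hlen
  unfold SL
  have e : [(default : β × Vec)] = [((default : β × Vec).1, (default : β × Vec).2)] := rfl
  rw [e, hlen, Function.iterate_succ_apply', h3, pop_single]
  rw [List.getD_cons_zero]
  have := h4 rfl k hk
  rw [this]
  have e0 : toV (default : β × Vec).2 k = 0 := toV_nil k
  rw [e0]
  exact (zero_add _).symm

include hle in
theorem suf_fold (w : List β) :
    w.foldl (sufStep le) none = (spl w).map (fun q => (q.2.1, q.2.2)) := by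
  induction w using List.reverseRecOn with
  | nil => rfl
  | append_singleton w x ih =>
    rw [List.foldl_append, ih]
    by_cases hw : w = []
    · subst hw
      rfl
    · obtain ⟨p, m, s, hs⟩ := spl_some w hw
      obtain ⟨e1, e2, e3⟩ := spl_spec w p m s hs
      rw [hs]
      simp only [Option.map_some, List.foldl_cons, List.foldl_nil, sufStep, Option.elim_some]
      by_cases hmx : m ≤ x
      · rw [if_pos ((hle _ _).2 hmx)]
        have hall : ∀ z ∈ w, z ≤ x := by
          intro z hz
          rw [e1] at hz
          rcases List.mem_append.1 hz with hz | hz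
          · exact (e2 z hz).trans hmx
          · rcases List.mem_cons.1 hz with rfl | hz
            · exact hmx
            · exact (e3 z hz).le.trans hmx
        rw [spl_app w x [] hall (by simp)]
        rfl
      · rw [if_neg (by rw [hle]; exact hmx)]
        have e4 : w ++ [x] = p ++ m :: (s ++ [x]) := by rw [e1]; simp
        rw [e4, spl_app p m (s ++ [x]) e2 ?_]
        · rfl
        · intro z hz
          rcases List.mem_append.1 hz with hz | hz
          · exact e3 z hz
          · simp at hz
            rw [hz]
            exact not_le.1 hmx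

include hle in
theorem sufL_eq (w : List β) : sufL le w = suf w := by
  unfold sufL suf
  rw [suf_fold le hle]
  cases spl w with
  | none => rfl
  | some q => rfl

include hle in
/-- The stack machine computes the colour of the tower painter. -/
theorem VL_eq (hsc : ∀ a b, sc a b < N) (w : List β) : V tab sc N w = VL le sc N w := by
  unfold V VL
  rw [sufL_eq le hle, rd_eq _ _ N (fun k hk => SL_eq le hle sc N hsc w k hk),
    rd_eq _ _ N (fun k hk => SL_eq le hle sc N hsc (suf w) k hk)]
  rfl

end Correct

end Pool.Agent.TJPr
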