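import Pool.Agent.Work.MP_69fea5_lc.TJ.PrV

/-!
# Primitive recursiveness of the stack machine of the tower painter
-/

open List

namespace Pool.Agent.TJPr

theorem pr_sgT : Primrec₂ sgT := Primrec.dom_finite _

theorem pr_adT : Primrec₂ adT := Primrec.dom_finite _

theorem pr_taT : Primrec taT := Primrec.dom_finite _

theorem pr_rdL : Primrec₂ rdL := by
  refine (Primrec.list_foldl (f := fun a : Vec × ℕ => List.range a.2) (g := fun _ => (0 : Fin 4))
    (h := fun a b => sgT b.1 (a.1.getD b.2 0)) (Primrec.list_range.comp Primrec.snd)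
    (Primrec.const _) ?_)
  exact pr_sgT.comp (Primrec.fst.comp Primrec.snd)
    ((Primrec.list_getD (0 : Fin 8)).comp (Primrec.fst.comp Primrec.fst)
      (Primrec.snd.comp Primrec.snd))

theorem pr_cutL : Primrec fun t : ℕ × ℕ × Vec => cutL t.1 t.2.1 t.2.2 := by
  refine Primrec.list_map (f := fun t : ℕ × ℕ × Vec => List.range t.1)
    (g := fun t k => if k < t.2.1 then (0 : Fin 8) else
      if k = t.2.1 then adT (t.2.2.getD t.2.1 0) (taT (rdL t.2.2 t.2.1)) else t.2.2.getD k 0)
    (Primrec.list_range.comp Primrec.fst) ?_
  have h1 : Primrec fun p : (ℕ × ℕ × Vec) × ℕ => p.1.2.1 :=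
    Primrec.fst.comp (Primrec.snd.comp Primrec.fst)
  have h2 : Primrec fun p : (ℕ × ℕ × Vec) × ℕ => p.1.2.2 :=
    Primrec.snd.comp (Primrec.snd.comp Primrec.fst)
  refine Primrec.ite (Primrec.nat_lt.comp Primrec.snd h1) (Primrec.const _) ?_
  refine Primrec.ite (Primrec.eq.comp Primrec.snd h1) ?_ ?_
  · exact pr_adT.comp ((Primrec.list_getD (0 : Fin 8)).comp h2 h1)
      (pr_taT.comp (pr_rdL.comp h2 h1))
  · exact (Primrec.list_getD (0 : Fin 8)).comp h2 Primrec.snd

theorem pr_addL : Primrec fun t : ℕ × Vec × Vec => addL t.1 t.2.1 t.2.2 := by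
  refine Primrec.list_map (f := fun t : ℕ × Vec × Vec => List.range t.1)
    (g := fun t k => adT (t.2.1.getD k 0) (t.2.2.getD k 0))
    (Primrec.list_range.comp Primrec.fst) ?_
  exact pr_adT.comp
    ((Primrec.list_getD (0 : Fin 8)).comp (Primrec.fst.comp (Primrec.snd.comp Primrec.fst))
      Primrec.snd)
    ((Primrec.list_getD (0 : Fin 8)).comp (Primrec.snd.comp (Primrec.snd.comp Primrec.fst))
      Primrec.snd)

section Prim

variable {P β : Type*} [Primcodable P] [Primcodable β] [Inhabited β]
  {le : β → β → Bool} (hle : Primrec₂ le) {sc : P → β → β → ℕ}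
  (hsc : Primrec fun t : P × β × β => sc t.1 t.2.1 t.2.2) {N : P → ℕ} (hN : Primrec N)

include hsc hN in
theorem pr_pop : Primrec fun t : P × List (β × Vec) => pop (sc t.1) (N t.1) t.2 := by
  have hst : Primrec fun t : P × List (β × Vec) => t.2 := Primrec.snd
  have h0 : Primrec fun t : P × List (β × Vec) => t.2.getD 0 default :=
    (Primrec.list_getD default).comp hst (Primrec.const 0)
  have h1 : Primrec fun t : P × List (β × Vec) => t.2.getD 1 default :=
    (Primrec.list_getD default).comp hst (Primrec.const 1)
  have hlen : Primrec fun t : P × List (β × Vec) => t.2.length := Primrec.list_length.comp hst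
  have hNN : Primrec fun t : P × List (β × Vec) => N t.1 := hN.comp Primrec.fst
  refine (Primrec.ite (c := fun t : P × List (β × Vec) => 2 ≤ t.2.length)
    (Primrec.nat_le.comp (Primrec.const 2) hlen) ?_ hst).of_eq (fun t => rfl)
  refine Primrec.list_cons.comp (Primrec.pair (Primrec.fst.comp h1) ?_)
    (Primrec.list_tail.comp (Primrec.list_tail.comp hst))
  refine Primrec.ite (Primrec.eq.comp (Primrec.nat_mod.comp hlen (Primrec.const 2))
    (Primrec.const 0)) ?_ ?_
  · exact pr_addL.comp (Primrec.pair hNN (Primrec.pair (Primrec.snd.comp h1)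
      (Primrec.snd.comp h0)))
  · exact pr_cutL.comp (Primrec.pair hNN (Primrec.pair
      (hsc.comp (Primrec.pair Primrec.fst (Primrec.pair (Primrec.fst.comp h1)
        (Primrec.fst.comp h0)))) (Primrec.snd.comp h0)))

include hle hsc hN in
theorem pr_popIf : Primrec fun t : (P × β) × List (β × Vec) =>
    popIf le (sc t.1.1) (N t.1.1) t.1.2 t.2 := by
  have hst : Primrec fun t : (P × β) × List (β × Vec) => t.2 := Primrec.snd
  have h0 : Primrec fun t : (P × β) × List (β × Vec) => t.2.getD 0 default :=
    (Primrec.list_getD default).comp hst (Primrec.const 0)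
  have hlen : Primrec fun t : (P × β) × List (β × Vec) => t.2.length :=
    Primrec.list_length.comp hst
  have hc : PrimrecPred fun t : (P × β) × List (β × Vec) =>
      2 ≤ t.2.length ∧ le (t.2.getD 0 default).1 t.1.2 = true :=
    (Primrec.nat_le.comp (Primrec.const 2) hlen).and
      (Primrec.eq.comp (hle.comp (Primrec.fst.comp h0) (Primrec.snd.comp Primrec.fst))
        (Primrec.const true))
  refine (Primrec.ite hc ((pr_pop hsc hN).comp
    (Primrec.pair (Primrec.fst.comp Primrec.fst) hst)) hst).of_eq (fun t => ?_)
  rfl

include hle hsc hN in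
theorem pr_step : Primrec fun t : P × List (β × Vec) × β =>
    step le (sc t.1) (N t.1) t.2.1 t.2.2 := by
  refine Primrec.list_cons.comp (Primrec.pair (Primrec.snd.comp Primrec.snd)
    (Primrec.const [])) ?_
  refine Primrec.nat_iterate (f := fun t : P × List (β × Vec) × β => t.2.1.length)
    (g := fun t => t.2.1) (h := fun t st => popIf le (sc t.1) (N t.1) t.2.2 st)
    (Primrec.list_length.comp (Primrec.fst.comp Primrec.snd)) (Primrec.fst.comp Primrec.snd) ?_
  exact (pr_popIf hle hsc hN).comp (Primrec.pair (Primrec.pair (Primrec.fst.comp Primrec.fst)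
    (Primrec.snd.comp (Primrec.snd.comp Primrec.fst))) Primrec.snd)

include hle hsc hN in
theorem pr_SL : Primrec fun t : P × List β => SL le (sc t.1) (N t.1) t.2 := by
  have hrun : Primrec fun t : P × List β => runM le (sc t.1) (N t.1) t.2 [default] := by
    refine Primrec.list_foldl (f := fun t : P × List β => t.2)
      (g := fun _ => ([default] : List (β × Vec)))
      (h := fun t b => step le (sc t.1) (N t.1) b.1 b.2) Primrec.snd (Primrec.const _) ?_
    exact (pr_step hle hsc hN).comp (Primrec.pair (Primrec.fst.comp Primrec.fst) Primrec.snd)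
  refine Primrec.snd.comp ((Primrec.list_getD default).comp ?_ (Primrec.const 0))
  refine Primrec.nat_iterate
    (f := fun t : P × List β => (runM le (sc t.1) (N t.1) t.2 [default]).length)
    (g := fun t => runM le (sc t.1) (N t.1) t.2 [default])
    (h := fun t st => pop (sc t.1) (N t.1) st) (Primrec.list_length.comp hrun) hrun ?_
  exact (pr_pop hsc hN).comp (Primrec.pair (Primrec.fst.comp Primrec.fst) Primrec.snd)

include hle in
theorem pr_sufL : Primrec (sufL le) := by
  have hstep : Primrec fun t : Option (β × List β) × β => sufStep le t.1 t.2 := by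
    refine (Primrec.option_casesOn (o := fun t : Option (β × List β) × β => t.1)
      (f := fun t => some (t.2, ([] : List β)))
      (g := fun t q => if le q.1 t.2 = true then some (t.2, ([] : List β))
        else some (q.1, q.2 ++ [t.2])) Primrec.fst
      (Primrec.option_some.comp (Primrec.pair Primrec.snd (Primrec.const []))) ?_).of_eq ?_
    · refine Primrec.ite (Primrec.eq.comp (hle.comp (Primrec.fst.comp Primrec.snd)
        (Primrec.snd.comp Primrec.fst)) (Primrec.const true)) ?_ ?_
      · exact Primrec.option_some.comp (Primrec.pair (Primrec.snd.comp Primrec.fst)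
          (Primrec.const []))
      · exact Primrec.option_some.comp (Primrec.pair (Primrec.fst.comp Primrec.snd)
          (Primrec.list_append.comp (Primrec.snd.comp Primrec.snd)
            (Primrec.list_cons.comp (Primrec.snd.comp Primrec.fst) (Primrec.const []))))
    · rintro ⟨_ | q, x⟩ <;> rfl
  have hfold : Primrec fun w : List β => w.foldl (sufStep le) none := by
    refine Primrec.list_foldl (f := fun w : List β => w)
      (g := fun _ => (none : Option (β × List β)))
      (h := fun _ b => sufStep le b.1 b.2) Primrec.id (Primrec.const _) ?_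
    exact hstep.comp Primrec.snd
  exact Primrec.snd.comp (Primrec.option_getD.comp hfold (Primrec.const (default, [])))

include hle hsc hN in
/-- The colour of the tower painter is primitive recursive in the word and the parameter. -/
theorem pr_VL : Primrec fun t : P × List β => VL le (sc t.1) (N t.1) t.2 := by
  refine Primrec.pair (pr_rdL.comp (pr_SL hle hsc hN) (hN.comp Primrec.fst)) ?_
  exact pr_rdL.comp ((pr_SL hle hsc hN).comp (Primrec.pair Primrec.fst
    ((pr_sufL hle).comp Primrec.snd))) (hN.comp Primrec.fst)

end Prim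

end Pool.Agent.TJPr
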