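import Pool.Agent.Work.MP_69fea5_lc.TJ.Defs

set_option autoImplicit false

/-! The third jump: statements of the lemmas. Proof of the whole theorem: note 4253 (and 4259) on
MP_69fea5_lc. -/

namespace Pool.Agent.Work.MP_69fea5_lc.TJ

open Pool.Agent.Work.MP_69fea5_lc.DJ (bits lo hi S V Bl lam mu chi seg)

/-! ### The painter -/

/-- PA: the recursion equations. -/
def StPA : Prop := ∀ (g : ℕ → ℕ → Bool) (δ : ℕ → ℕ → ℕ), Good g δ →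
  (∀ w u y v, spl g w = some (u, y, v) ↔ Dec g w u y v) ∧
  (∀ w, spl g w = none ↔ w = []) ∧
  M g δ [] = 0 ∧
  (∀ w u y v, Dec g w u y v → M g δ w = M g δ u + node g δ y v) ∧
  U g δ [] = 0 ∧
  (∀ w u y v, Dec g w u y v → U g δ w = U g δ u + M g δ v) ∧
  (∀ y, node g δ y [] = 0) ∧
  ∀ y v u' y' v', Dec g v u' y' v' → node g δ y v = FT (δ y y') (M g δ v')

/-- PO: open letters. -/
def StPO : Prop := ∀ (g : ℕ → ℕ → Bool) (δ : ℕ → ℕ → ℕ), Good g δ →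
  (∀ w, w = [] ∨ ∃ u y v, Dec g w u y v) ∧
  (∀ D w, (∀ x ∈ w, g x D = false) → opn g D w = 0) ∧
  (∀ D w u y v, Dec g w u y v → g y D = true → opn g D w = opn g D v + 1) ∧
  (∀ D w, (∀ x ∈ w, g x D = false) ∨ ∃ u y v, Dec g w u y v ∧ g y D = true) ∧
  (∀ D t W, (∀ x ∈ W, g D x = true) → (∀ x ∈ t, g x D = false) → Dec g (t ++ D :: W) t D W) ∧
  (∀ D t W u y v, (∀ x ∈ W, g D x = true) → Dec g t u y v → g y D = true →
    Dec g (t ++ D :: W) u y (v ++ D :: W)) ∧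
  (∀ c c' w v, g c c' = true → (∀ x ∈ v, g c x = true) →
    opn g c' (w ++ c :: v) = opn g c w + 1 + opn g c' v)

/-- PB: the T side. Appending `D :: W` changes the colour if the node `D` is worth one receipt. -/
def StPB : Prop := ∀ (g : ℕ → ℕ → Bool) (δ : ℕ → ℕ → ℕ), Good g δ →
  ∀ (t W : List ℕ) (D j : ℕ) (r : Fin 8), R1 r → (∀ x ∈ W, g D x = true) →
    node g δ D W = (fun q => if q ≤ j then eT r else 0) →
    colW g δ (t ++ D :: W) ≠ colW g δ t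

/-- PC: exact addition. -/
def StPC : Prop := ∀ (g : ℕ → ℕ → Bool) (δ : ℕ → ℕ → ℕ), Good g δ →
  ∀ (v W : List ℕ) (c i : ℕ), (∀ x ∈ W, g c x = true) → (∀ q, i < q → node g δ c W q = 0) →
    Even (opn g c v) → (∀ x ∈ v, g x c = true → i ≤ δ x c) →
    M g δ (v ++ c :: W) = M g δ v + node g δ c W

/-- A family: the opener `D`, blocks `w a`, joints `c a` (`c a` comes after the block `w a`);
`δ D (c a) = j`, `δ (c a) (c b) = i > j`. -/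
structure FamS (g : ℕ → ℕ → Bool) (δ : ℕ → ℕ → ℕ) (D j i : ℕ) (w : ℕ → List ℕ) (c : ℕ → ℕ) :
    Prop where
  lt : j < i
  hD : ∀ a, g D (c a) = true ∧ δ D (c a) = j
  hc : ∀ a b, a < b → g (c a) (c b) = true ∧ δ (c a) (c b) = i
  hw : ∀ a b, a < b → ∀ x ∈ w b, g (c a) x = true

/-- A family with more information (on the path letters `x > c a` of the blocks). -/
structure Fam (g : ℕ → ℕ → Bool) (δ : ℕ → ℕ → ℕ) (D j i : ℕ) (w : ℕ → List ℕ) (c : ℕ → ℕ) :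
    Prop where
  lt : j < i
  hD : ∀ a, g D (c a) = true ∧ δ D (c a) = j
  hDw : ∀ a, ∀ x ∈ w a, g D x = true ∧ (g x (c a) = true → δ D x = j ∧ i ≤ δ x (c a))
  hc : ∀ a b, a < b → g (c a) (c b) = true ∧ δ (c a) (c b) = i
  hw : ∀ a b, a < b → ∀ x ∈ w b, g (c a) x = true ∧ (g x (c b) = true → δ (c a) x = i)

/-- PD: a family whose blocks have an odd number of path letters. -/
def StPD : Prop := ∀ (g : ℕ → ℕ → Bool) (δ : ℕ → ℕ → ℕ), Good g δ →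
  ∀ (D j i : ℕ) (w : ℕ → List ℕ) (c : ℕ → ℕ), Fam g δ D j i w c →
    (∀ a, Odd (opn g (c a) (w a))) →
    ∃ a b r, a < b ∧ R1 r ∧ node g δ D (w a ++ c a :: w b) = (fun q => if q ≤ j then eT r else 0)

/-- PE: from simple families to families with an odd number of path letters: every second block,
pigeonhole, and pairs of blocks if the number is even. -/
def StPE : Prop := ∀ (g : ℕ → ℕ → Bool) (δ : ℕ → ℕ → ℕ), Good g δ →
  ∀ (D j i : ℕ) (w : ℕ → List ℕ) (c : ℕ → ℕ), FamS g δ D j i w c →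
    ∃ (w' : ℕ → List ℕ) (c' : ℕ → ℕ), Fam g δ D j i w' c' ∧
      (∀ a, Odd (opn g (c' a) (w' a))) ∧
      ∀ a b, a < b → ∃ s : List ℕ, s ≠ [] ∧ s.length ≤ 4 ∧ s.Pairwise (· < ·) ∧
        w' a ++ c' a :: w' b = join w c s

/-- T1: the painter kills every simple family by at most four blocks. -/
def StT1 : Prop := ∀ (g : ℕ → ℕ → Bool) (δ : ℕ → ℕ → ℕ), Good g δ →
  ∀ (D j i : ℕ) (w : ℕ → List ℕ) (c : ℕ → ℕ), FamS g δ D j i w c → ∀ t : List ℕ,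
    ∃ s : List ℕ, s ≠ [] ∧ s.length ≤ 4 ∧ s.Pairwise (· < ·) ∧
      colW g δ (t ++ D :: join w c s) ≠ colW g δ t

/-! ### Letters -/

/-- L1: the order of the letters. -/
def StL1 : Prop := Good gt dl ∧ (∀ e, e ≠ 0 → gt e 0 = true) ∧
  (∀ e e', gt e e' = true ↔
    ∃ v, e.testBit v = true ∧ e'.testBit v = false ∧ ∀ w < v, e.testBit w = e'.testBit w) ∧
  ∀ e e' v, e.testBit v ≠ e'.testBit v → (∀ w < v, e.testBit w = e'.testBit w) →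
    dl e e' = ((bits e).filter (fun w => decide (w < v))).length

/-- L2: the letter of a gap and the best letter. -/
def StL2 : Prop := ∀ R : ℕ → ℕ → ℕ → Bool,
  (∀ l e a b a' b', vis R l e a b → a' ≤ a → b ≤ b' → vis R l e a' b') ∧
  (∀ l a b, (letter R l a b = 0 ∨ vis R l (letter R l a b) a b) ∧
    ∀ e, vis R l e a b → e = letter R l a b ∨ gt (letter R l a b) e = true) ∧
  ∀ l a, (∃ e b, vis R l e a b) → ∃ e, IsBest R l a e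

/-- L3: the set `σ` exists. -/
def StL3 : Prop := ∀ (R : ℕ → ℕ → ℕ → Bool) (l : ℕ), ∃ σ, Sig R l σ

/-- L4: the best letters after late stages. -/
def StL4 : Prop := ∀ R : ℕ → ℕ → ℕ → Bool, Dummy R → ∀ l σ, 1 ≤ l → Sig R l σ →
  (∀ a, ∃ e, IsBest R l a e) ∧
  (∀ a e, IsBest R l a e → gt e σ = true) ∧
  ∀ m, ∃ a₀, ∀ a, a₀ ≤ a → ∀ e, IsBest R l a e →
    Pre σ e ∧ ∀ v < m, e.testBit v = true → σ.testBit v = true

/-- L5: what the claim needs about letters. -/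
def StL5 : Prop := ∀ R : ℕ → ℕ → ℕ → Bool, Dummy R → ∀ l σ, 1 ≤ l → Sig R l σ →
  (∀ a e, IsBest R l a e → ∃ b₀, ∀ b, b₀ ≤ b → letter R l a b = e) ∧
  (∀ a e, IsBest R l a e → Pre σ e → ∃ b₀, ∀ b, b₀ ≤ b → ∀ e', IsBest R l b e' →
    gt e e' = true ∧ dl e e' = (bits σ).length) ∧
  (∀ a e, IsBest R l a e → ¬ Pre σ e → ∃ j < (bits σ).length, ∃ b₀, ∀ b, b₀ ≤ b →
    ∀ e', IsBest R l b e' → gt e e' = true ∧ dl e e' = j) ∧
  ∀ a e a' b', IsBest R l a e → a ≤ a' → letter R l a' b' = e ∨ gt e (letter R l a' b') = true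

/-- W: words of lists. -/
def StW : Prop := ∀ (R : ℕ → ℕ → ℕ → Bool) (l : ℕ),
  (∀ L L' : List ℕ, L ≠ [] → L' ≠ [] →
    word R l (L ++ L') = word R l L ++ letter R l (hi L) (lo L') :: word R l L') ∧
  ∀ L : List ℕ, ∀ x ∈ word R l L, ∃ a ∈ L, ∃ b ∈ L, x = letter R l a b

/-! ### The claim -/

/-- The hypothesis on `X`. -/
structure Hyp (R : ℕ → ℕ → ℕ → Bool) (X : Set ℕ) : Prop where
  pos : 0 ∉ X
  far : ∀ B, ∃ x ∈ X, B ≤ x ∧ 2 ^ B ∣ x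
  hom : ∃ c₀, ∀ f, V X f → (bits f).length ≤ 6 → colT R (S f) = c₀

/-- CL: the best letter after `t` is an extension of `σ`. -/
def StCL : Prop := ∀ (R : ℕ → ℕ → ℕ → Bool) (X : Set ℕ), Dummy R → Hyp R X →
  ∀ l σ, Sig R l σ → ∀ f, V X f → (bits f).length ≤ 2 → lam f = l →
    ∀ e, IsBest R l (mu f) e → Pre σ e

/-- CS: sequences of elements of `X` that grow as fast as one likes. -/
def StCS : Prop := ∀ X : Set ℕ, (∀ B, ∃ x ∈ X, B ≤ x ∧ 2 ^ B ∣ x) → ∀ (B₀ : ℕ) (β : ℕ → ℕ),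
  ∃ x : ℕ → ℕ, (∀ a, x a ∈ X) ∧ (∀ a, B₀ ≤ x a ∧ 2 ^ B₀ ∣ x a) ∧
    ∀ a b, a < b → 2 ^ x a ≤ x b ∧ β (x a) ≤ x b ∧ 2 ^ x a ∣ x b ∧ 2 ^ β (x a) ∣ x b

/-! ### Computability -/

/-- R1: the painter is primitive recursive. -/
def StPR1 : Prop := ∀ (g : ℕ → ℕ → Bool) (δ : ℕ → ℕ → ℕ), Primrec₂ g → Primrec₂ δ →
  Primrec (fun t : List ℕ × ℕ => M g δ t.1 t.2) ∧ Primrec (fun w : List ℕ => colW g δ w)

/-- R2: the letters are primitive recursive. -/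
def StPR2 : Prop := Primrec₂ gt ∧ Primrec₂ dl ∧ ∀ R : ℕ → ℕ → ℕ → Bool,
  (Primrec fun t : ℕ × ℕ × ℕ => R t.1 t.2.1 t.2.2) →
  (PrimrecPred fun t : ℕ × ℕ × ℕ × ℕ => vis R t.1 t.2.1 t.2.2.1 t.2.2.2) ∧
  (Primrec fun t : ℕ × ℕ × ℕ => letter R t.1 t.2.1 t.2.2) ∧
  Primrec₂ fun (l : ℕ) (L : List ℕ) => word R l L

/-- R3: the colouring is primitive recursive. -/
def StPR3 : Prop := ∀ R : ℕ → ℕ → ℕ → Bool,
  (Primrec fun t : ℕ × ℕ × ℕ => R t.1 t.2.1 t.2.2) → Primrec (colT R)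

/-- F1: the universal predicate. -/
def StF1 : Prop := Dummy R₀ ∧ (Primrec fun t : ℕ × ℕ × ℕ => R₀ t.1 t.2.1 t.2.2) ∧
  ∀ (T : Set ℕ) (Q : ℕ → ℕ → ℕ → ℕ → Bool),
    (Computable fun t : ℕ × ℕ × ℕ × ℕ => Q t.1 t.2.1 t.2.2.1 t.2.2.2) →
    (∀ n, n ∈ T ↔ ∃ s, ∀ t, ∃ u, Q n s t u = true) →
    ∃ e, ∀ n, n ∈ T ↔ ∃ v, Inf R₀ v ∧ v.unpair.1 = Nat.pair e n + 1

/-- `X` computes all `Σ⁰₂` sets. -/
def Two (X : Set ℕ) : Prop := ∀ (T : Set ℕ) (Q : ℕ → ℕ → ℕ → Bool),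
  (Computable fun t : ℕ × ℕ × ℕ => Q t.1 t.2.1 t.2.2) →
  (∀ n, n ∈ T ↔ ∃ s, ∀ t, Q n s t = true) → Nat.RecursiveIn {chi X} (chi T)

/-- The set of the codes of the triples `(l, a, e)` with `IsBest l a e`. -/
def BestSet : Set ℕ := {p | IsBest R₀ p.unpair.1 p.unpair.2.unpair.1 p.unpair.2.unpair.2}

/-- F2: `X` computes the best letters and the infinitary codes. -/
def StF2 : Prop := ∀ X : Set ℕ, Two X →
  Nat.RecursiveIn {chi X} (chi BestSet) ∧ Nat.RecursiveIn {chi X} (chi {v | Inf R₀ v})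

/-- F3: the join of three sets. -/
def StF3 : Prop := ∀ X Y Z : Set ℕ, Nat.RecursiveIn {chi X} (chi Y) →
  Nat.RecursiveIn {chi X} (chi Z) → ∃ W : Set ℕ, Nat.RecursiveIn {chi X} (chi W) ∧
    ∀ n, (3 * n ∈ W ↔ n ∈ X) ∧ (3 * n + 1 ∈ W ↔ n ∈ Y) ∧ (3 * n + 2 ∈ W ↔ n ∈ Z)

/-- Two elements `t, t'` of `X` (as masks), with the same minimum `l > q`, whose best letters `e, e'`
differ first at `v`, with no code of the fact `q` below `v`. -/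
def Cert (R : ℕ → ℕ → ℕ → Bool) (X : Set ℕ) (q f f' e e' v : ℕ) : Prop :=
  V X f ∧ V X f' ∧ (bits f).length ≤ 2 ∧ (bits f').length ≤ 2 ∧ lam f = lam f' ∧ q < lam f ∧
  IsBest R (lam f) (mu f) e ∧ IsBest R (lam f) (mu f') e' ∧ e.testBit v ≠ e'.testBit v ∧
  (∀ w < v, e.testBit w = e'.testBit w) ∧ ∀ w < v, e.testBit w = true → w.unpair.1 ≠ q

/-- F4: `q` is false iff there is a certificate. -/
def StF4 : Prop := ∀ (R : ℕ → ℕ → ℕ → Bool) (X : Set ℕ), Dummy R → 0 ∉ X →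
  (∀ B, ∃ x ∈ X, B ≤ x ∧ 2 ^ B ∣ x) →
  (∀ l σ, Sig R l σ → ∀ f, V X f → (bits f).length ≤ 2 → lam f = l →
    ∀ e, IsBest R l (mu f) e → Pre σ e) →
  ∀ q, (¬ ∃ v, Inf R v ∧ v.unpair.1 = q) ↔ ∃ f f' e e' v, Cert R X q f f' e e' v

/-- F5: the search. `X` decides the facts. -/
def StF5 : Prop := ∀ X : Set ℕ, Two X →
  (∀ q, (¬ ∃ v, Inf R₀ v ∧ v.unpair.1 = q) ↔ ∃ f f' e e' v, Cert R₀ X q f f' e e' v) →
  Nat.RecursiveIn {chi X} (chi {q | ∃ v, Inf R₀ v ∧ v.unpair.1 = q})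

/-- F6: `X` computes all `Σ⁰₃` sets. -/
def StF6 : Prop := ∀ X : Set ℕ, Two X → Hyp R₀ X →
  ∀ (T : Set ℕ) (Q : ℕ → ℕ → ℕ → ℕ → Bool),
    (Computable fun t : ℕ × ℕ × ℕ × ℕ => Q t.1 t.2.1 t.2.2.1 t.2.2.2) →
    (∀ n, n ∈ T ↔ ∃ s, ∀ t, ∃ u, Q n s t u = true) →
    Nat.RecursiveIn {chi X} (chi T)

end Pool.Agent.Work.MP_69fea5_lc.TJ
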