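import Mathlib

/-!
# The tower painter on words over a linear order with finitely many scales
-/

open List

namespace Pool.Agent.TJT1

/-- A finite table for the tower painter. -/
structure Tab where
  A : Type
  [grp : AddCommGroup A]
  Q : Type
  q0 : Q
  sg : Q → A → Q
  ta : Q → A
  De : A → Prop
  two : ∀ a : A, a + a = 0
  sg0 : ∀ q, sg q 0 = q
  inj : ∀ q q' a, sg q a = sg q' a → q = q'
  det : ∀ q a a', De (a' - a) → sg q a ≠ sg q a'
  tad : ∀ q q', q ≠ q' → De (ta q - ta q')
  hon : ∀ q, De (ta (sg q (ta q)))

attribute [instance] Tab.grp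

/-! ### Splitting a word at the last occurrence of its largest letter -/

section Split

variable {L : Type*} [LinearOrder L]

/-- `w = p ++ m :: s`, `m` the last occurrence of the largest letter -/
def spl : List L → Option (List L × L × List L)
  | [] => none
  | a :: w =>
    match spl w with
    | none => some ([], a, w)
    | some (p, m, s) => if m < a then some ([], a, w) else some (a :: p, m, s)

theorem spl_spec (w : List L) (p : List L) (m : L) (s : List L) (h : spl w = some (p, m, s)) :
    w = p ++ m :: s ∧ (∀ x ∈ p, x ≤ m) ∧ (∀ x ∈ s, x < m) := by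
  induction w generalizing p m s with
  | nil => simp [spl] at h
  | cons a w ih =>
    unfold spl at h
    cases hw : spl w with
    | none =>
      rw [hw] at h
      simp only [Option.some.injEq, Prod.mk.injEq] at h
      obtain ⟨rfl, rfl, rfl⟩ := h
      cases w with
      | nil => simp
      | cons b w =>
        exfalso
        unfold spl at hw
        cases h2 : spl w with
        | none => rw [h2] at hw; simp at hw
        | some q =>
          rw [h2] at hw
          simp only at hw
          split_ifs at hw
    | some q =>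
      obtain ⟨p', m', s'⟩ := q
      rw [hw] at h
      obtain ⟨e1, e2, e3⟩ := ih p' m' s' hw
      simp only at h
      split_ifs at h with hlt
      · simp only [Option.some.injEq, Prod.mk.injEq] at h
        obtain ⟨rfl, rfl, rfl⟩ := h
        refine ⟨rfl, by simp, fun x hx => ?_⟩
        rw [e1] at hx
        rcases List.mem_append.1 hx with hx | hx
        · exact (e2 x hx).trans_lt hlt
        · rcases List.mem_cons.1 hx with rfl | hx
          · exact hlt
          · exact (e3 x hx).trans hlt
      · simp only [Option.some.injEq, Prod.mk.injEq] at h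
        obtain ⟨rfl, rfl, rfl⟩ := h
        refine ⟨by rw [e1]; rfl, fun x hx => ?_, e3⟩
        rcases List.mem_cons.1 hx with rfl | hx
        · exact not_lt.1 hlt
        · exact e2 x hx

theorem spl_some (w : List L) (h : w ≠ []) : ∃ p m s, spl w = some (p, m, s) := by
  cases w with
  | nil => exact absurd rfl h
  | cons a w =>
    unfold spl
    cases hw : spl w with
    | none => exact ⟨[], a, w, rfl⟩
    | some q =>
      obtain ⟨p', m', s'⟩ := q
      simp only
      split_ifs
      · exact ⟨[], a, w, rfl⟩
      · exact ⟨a :: p', m', s', rfl⟩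

theorem spl_app (p : List L) (m : L) (s : List L) (hp : ∀ x ∈ p, x ≤ m) (hs : ∀ x ∈ s, x < m) :
    spl (p ++ m :: s) = some (p, m, s) := by
  induction p with
  | nil =>
    rw [List.nil_append]
    unfold spl
    cases hw : spl s with
    | none => rfl
    | some q =>
      obtain ⟨p', m', s'⟩ := q
      obtain ⟨e1, e2, e3⟩ := spl_spec s p' m' s' hw
      have : m' < m := hs m' (by rw [e1]; simp)
      simp only
      rw [if_pos this]
  | cons a p ih =>
    rw [List.cons_append]
    unfold spl
    rw [ih (fun x hx => hp x (List.mem_cons_of_mem _ hx))]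
    simp only
    rw [if_neg (not_lt.2 (hp a List.mem_cons_self))]

/-- the decomposition of a nonempty word -/
theorem decomp (w : List L) (h : w ≠ []) :
    ∃ p m s, w = p ++ m :: s ∧ (∀ x ∈ p, x ≤ m) ∧ (∀ x ∈ s, x < m) := by
  obtain ⟨p, m, s, hw⟩ := spl_some w h
  exact ⟨p, m, s, spl_spec w p m s hw⟩

/-- the part after the last occurrence of the largest letter -/
def suf (w : List L) : List L :=
  match spl w with
  | none => []
  | some (_, _, s) => s

theorem suf_app (p : List L) (m : L) (s : List L) (hp : ∀ x ∈ p, x ≤ m) (hs : ∀ x ∈ s, x < m) :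
    suf (p ++ m :: s) = s := by
  unfold suf
  rw [spl_app p m s hp hs]

end Split

/-! ### The painter -/

section Painter

variable (T : Tab) {L : Type*} [LinearOrder L] (sc : L → L → ℕ)

/-- read the coordinates `0, .., n - 1` from below -/
def rd : ℕ → (ℕ → T.A) → T.Q
  | 0, _ => T.q0
  | n + 1, v => T.sg (rd n v) (v n)

/-- the cut at `s` -/
def cut (s : ℕ) (v : ℕ → T.A) : ℕ → T.A := fun k =>
  if k < s then 0 else if k = s then v s - T.ta (rd T s v) else v k

theorem length_split {w p s : List L} {m : L} (h : spl w = some (p, m, s)) :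
    p.length < w.length ∧ s.length < w.length := by
  have := (spl_spec w p m s h).1
  rw [this, List.length_append, List.length_cons]
  omega

/-- value of a list of subtrees, with fuel -/
def Sf : ℕ → List L → (ℕ → T.A)
  | 0, _ => 0
  | n + 1, w =>
    match spl w with
    | none => 0
    | some (p, m, s) =>
      Sf n p + (match spl s with
        | none => 0
        | some (_, m', s') => cut T (sc m m') (Sf n s'))

/-- value of a list of subtrees -/
def S (w : List L) : ℕ → T.A := Sf T sc w.length w

/-- value of a marked node `a` with list of subtrees `w` -/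
def M (a : L) (w : List L) : ℕ → T.A :=
  match spl w with
  | none => 0
  | some (_, m, s) => cut T (sc a m) (S T sc s)

theorem Sf_fuel (n k : ℕ) (w : List L) (h : w.length ≤ n) (hk : w.length ≤ k) :
    Sf T sc n w = Sf T sc k w := by
  induction n generalizing k w with
  | zero =>
    have : w = [] := List.length_eq_zero_iff.1 (by omega)
    subst this
    cases k with
    | zero => rfl
    | succ k => simp [Sf, spl]
  | succ n ih =>
    cases k with
    | zero =>
      have : w = [] := List.length_eq_zero_iff.1 (by omega)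
      subst this
      simp [Sf, spl]
    | succ k =>
      unfold Sf
      cases hw : spl w with
      | none => rfl
      | some q =>
        obtain ⟨p, m, s⟩ := q
        obtain ⟨l1, l2⟩ := length_split hw
        simp only
        rw [ih k p (by omega) (by omega)]
        cases hs : spl s with
        | none => rfl
        | some q' =>
          obtain ⟨p', m', s'⟩ := q'
          obtain ⟨l3, l4⟩ := length_split hs
          simp only
          rw [ih k s' (by omega) (by omega)]

theorem S_nil : S T sc ([] : List L) = 0 := rfl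

theorem M_nil (a : L) : M T sc a [] = 0 := rfl

theorem S_app (p : List L) (m : L) (s : List L) (hp : ∀ x ∈ p, x ≤ m) (hs : ∀ x ∈ s, x < m) :
    S T sc (p ++ m :: s) = S T sc p + M T sc m s := by
  unfold S M
  have hl : (p ++ m :: s).length = (p.length + s.length) + 1 := by
    rw [List.length_append, List.length_cons]
    omega
  rw [hl]
  conv_lhs => unfold Sf
  rw [spl_app p m s hp hs]
  simp only
  rw [Sf_fuel T sc _ p.length p (by omega) le_rfl]
  cases h : spl s with
  | none => rfl
  | some q =>
    obtain ⟨p', m', s'⟩ := q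
    obtain ⟨l3, l4⟩ := length_split h
    simp only
    rw [Sf_fuel T sc (p.length + s.length) s'.length s' (by omega) le_rfl]
    rfl

theorem M_app (a : L) (p : List L) (m : L) (s : List L) (hp : ∀ x ∈ p, x ≤ m)
    (hs : ∀ x ∈ s, x < m) : M T sc a (p ++ m :: s) = cut T (sc a m) (S T sc s) := by
  unfold M
  rw [spl_app p m s hp hs]

/-- the colour -/
def V (N : ℕ) (w : List L) : T.Q × T.Q := (rd T N (S T sc w), rd T N (S T sc (suf w)))

end Painter

/-! ### Adjacency -/

section Adj

variable (T : Tab)

/-- adjacent vectors: one coordinate changes, by an element of `De` -/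
def Adj (N : ℕ) (v w : ℕ → T.A) : Prop := ∃ h < N, T.De (w h - v h) ∧ ∀ k, k ≠ h → w k = v k

theorem rd_congr (n : ℕ) (v w : ℕ → T.A) (h : ∀ k < n, w k = v k) : rd T n w = rd T n v := by
  induction n with
  | zero => rfl
  | succ n ih =>
    unfold rd
    rw [ih (fun k hk => h k (by omega)), h n (by omega)]

theorem rd_adj (n : ℕ) (v w : ℕ → T.A) (h : ℕ) (hn : h < n) (hd : T.De (w h - v h))
    (hk : ∀ k, k ≠ h → w k = v k) : rd T n w ≠ rd T n v := by
  induction n with
  | zero => omega
  | succ n ih =>
    unfold rd
    rcases Nat.lt_succ_iff_lt_or_eq.1 hn with h1 | h1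
    · rw [hk n (by omega)]
      intro he
      exact ih h1 (T.inj _ _ _ he)
    · subst h1
      rw [rd_congr T h v w (fun k hk' => hk k (by omega))]
      exact (T.det _ _ _ hd).symm

theorem Adj.rd_ne {N : ℕ} {v w : ℕ → T.A} (h : Adj T N v w) : rd T N w ≠ rd T N v := by
  obtain ⟨h, hN, hd, hk⟩ := h
  exact rd_adj T N v w h hN hd hk

theorem Adj.add_left {N : ℕ} {v w : ℕ → T.A} (h : Adj T N v w) (z : ℕ → T.A) :
    Adj T N (z + v) (z + w) := by
  obtain ⟨h, hN, hd, hk⟩ := h
  refine ⟨h, hN, ?_, fun k hkh => ?_⟩
  · simp only [Pi.add_apply, add_sub_add_left_eq_sub]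
    exact hd
  · simp only [Pi.add_apply]
    rw [hk k hkh]

theorem Adj.cut {N : ℕ} {v w : ℕ → T.A} (h : Adj T N v w) (s : ℕ) (hs : s < N) :
    Adj T N (TJT1.cut T s v) (TJT1.cut T s w) := by
  obtain ⟨h, hN, hd, hk⟩ := h
  rcases lt_trichotomy h s with h1 | h1 | h1
  · -- below the cut
    have hne := rd_adj T s v w h h1 hd hk
    refine ⟨s, hs, ?_, fun k hks => ?_⟩
    · simp only [TJT1.cut, lt_irrefl, if_false, if_true]
      rw [hk s (by omega)]
      have : v s - T.ta (rd T s w) - (v s - T.ta (rd T s v)) =
          T.ta (rd T s v) - T.ta (rd T s w) := by abel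
      rw [this]
      exact T.tad _ _ hne.symm
    · simp only [TJT1.cut, if_neg hks]
      split_ifs with h2
      · rfl
      · exact hk k (by omega)
  · subst h1
    have he := rd_congr T h v w (fun k hk' => hk k (by omega))
    refine ⟨h, hN, ?_, fun k hks => ?_⟩
    · simp only [TJT1.cut, lt_irrefl, if_false, if_true]
      rw [he, sub_sub_sub_cancel_right]
      exact hd
    · simp only [TJT1.cut, if_neg hks]
      split_ifs with h2
      · rfl
      · exact hk k hks
  · have he := rd_congr T s v w (fun k hk' => hk k (by omega))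
    refine ⟨h, hN, ?_, fun k hks => ?_⟩
    · simp only [TJT1.cut, if_neg (by omega : ¬ h < s), if_neg (by omega : ¬ h = s)]
      exact hd
    · simp only [TJT1.cut]
      rw [he]
      split_ifs with h2 h3
      · rfl
      · rw [hk s (by omega)]
      · exact hk k hks

end Adj

/-! ### The T side -/

section TSide

variable (T : Tab) {L : Type*} [LinearOrder L] (sc : L → L → ℕ)

/-- the number of visible letters larger than `c`, with fuel -/
def depf : ℕ → List L → L → ℕ
  | 0, _, _ => 0
  | n + 1, w, c =>
    match spl w with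
    | none => 0
    | some (_, m, s) => if c < m then depf n s c + 1 else 0

/-- the number of visible letters of `w` larger than `c` -/
def dep (w : List L) (c : L) : ℕ := depf w.length w c

theorem depf_fuel (n k : ℕ) (w : List L) (c : L) (h : w.length ≤ n) (hk : w.length ≤ k) :
    depf n w c = depf k w c := by
  induction n generalizing k w with
  | zero =>
    have : w = [] := List.length_eq_zero_iff.1 (by omega)
    subst this
    cases k with
    | zero => rfl
    | succ k => simp [depf, spl]
  | succ n ih =>
    cases k with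
    | zero =>
      have : w = [] := List.length_eq_zero_iff.1 (by omega)
      subst this
      simp [depf, spl]
    | succ k =>
      unfold depf
      cases hw : spl w with
      | none => rfl
      | some q =>
        obtain ⟨p, m, s⟩ := q
        obtain ⟨l1, l2⟩ := length_split hw
        simp only
        rw [ih k s (by omega) (by omega)]

theorem dep_le (w : List L) (c : L) (h : ∀ x ∈ w, x ≤ c) : dep w c = 0 := by
  by_cases hw : w = []
  · subst hw
    rfl
  · obtain ⟨p, m, s, rfl, hp, hs⟩ := decomp w hw
    unfold dep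
    rw [List.length_append, List.length_cons, ← Nat.add_assoc]
    unfold depf
    rw [spl_app p m s hp hs]
    simp only
    rw [if_neg (not_lt.2 (h m (by simp)))]

theorem dep_app (p : List L) (m : L) (s : List L) (c : L) (hp : ∀ x ∈ p, x ≤ m)
    (hs : ∀ x ∈ s, x < m) (hc : c < m) : dep (p ++ m :: s) c = dep s c + 1 := by
  unfold dep
  rw [List.length_append, List.length_cons, ← Nat.add_assoc]
  conv_lhs => unfold depf
  rw [spl_app p m s hp hs]
  simp only
  rw [if_pos hc, depf_fuel (p.length + s.length) s.length s c (by omega) le_rfl]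

/-- either `c` is on top, or there is a visible letter above it -/
theorem cases_top (w : List L) (c : L) :
    (∀ x ∈ w, x ≤ c) ∨ ∃ p m s, w = p ++ m :: s ∧ (∀ x ∈ p, x ≤ m) ∧ (∀ x ∈ s, x < m) ∧ c < m := by
  by_cases hw : w = []
  · subst hw
    simp
  · obtain ⟨p, m, s, rfl, hp, hs⟩ := decomp w hw
    rcases le_or_gt m c with h | h
    · left
      intro x hx
      rcases List.mem_append.1 hx with hx | hx
      · exact (hp x hx).trans h
      · rcases List.mem_cons.1 hx with rfl | hx
        · exact h
        · exact (hs x hx).le.trans h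
    · right
      exact ⟨p, m, s, rfl, hp, hs, h⟩

theorem S_even (N : ℕ) (hsc : ∀ a b, sc a b < N) (n : ℕ) (t : List L) (D : L) (X : List L)
    (hn : dep t D = 2 * n) (hX : ∀ x ∈ X, x < D) (hM : Adj T N 0 (M T sc D X)) :
    Adj T N (S T sc t) (S T sc (t ++ D :: X)) := by
  induction n generalizing t with
  | zero =>
    rcases cases_top t D with h | ⟨p, m, s, rfl, hp, hs, hD⟩
    · rw [S_app T sc t D X h hX]
      have := hM.add_left (T := T) (S T sc t)
      rwa [add_zero] at this
    · rw [dep_app p m s D hp hs hD] at hn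
      omega
  | succ n ih =>
    rcases cases_top t D with h | ⟨p, m, s, rfl, hp, hs, hD⟩
    · rw [dep_le t D h] at hn
      omega
    · rw [dep_app p m s D hp hs hD] at hn
      rcases cases_top s D with h | ⟨p', m', s', rfl, hp', hs', hD'⟩
      · rw [dep_le s D h] at hn
        omega
      · rw [dep_app p' m' s' D hp' hs' hD'] at hn
        have e1 : p ++ m :: (p' ++ m' :: s') ++ D :: X = p ++ m :: (p' ++ m' :: (s' ++ D :: X)) := by
          simp
        have hlt : ∀ x ∈ s' ++ D :: X, x < m' := by
          intro x hx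
          rcases List.mem_append.1 hx with hx | hx
          · exact hs' x hx
          · rcases List.mem_cons.1 hx with rfl | hx
            · exact hD'
            · exact (hX x hx).trans hD'
        have hlt' : ∀ x ∈ p' ++ m' :: (s' ++ D :: X), x < m := by
          intro x hx
          rcases List.mem_append.1 hx with hx | hx
          · exact hs x (by simp [hx])
          · rcases List.mem_cons.1 hx with rfl | hx
            · exact hs x (by simp)
            · exact (hlt x hx).trans (hs m' (by simp))
        rw [e1, S_app T sc p m _ hp hs, S_app T sc p m _ hp hlt', M_app T sc m p' m' s' hp' hs',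
          M_app T sc m p' m' _ hp' hlt]
        exact ((ih s' (by omega)).cut T _ (hsc _ _)).add_left T _

theorem suf_app_of_lt (p : List L) (m : L) (s : List L) (D : L) (X : List L)
    (hp : ∀ x ∈ p, x ≤ m) (hs : ∀ x ∈ s, x < m) (hD : D < m) (hX : ∀ x ∈ X, x < D) :
    suf (p ++ m :: s ++ D :: X) = s ++ D :: X := by
  have e1 : p ++ m :: s ++ D :: X = p ++ m :: (s ++ D :: X) := by simp
  rw [e1]
  apply suf_app p m _ hp
  intro x hx
  rcases List.mem_append.1 hx with hx | hx
  · exact hs x hx
  · rcases List.mem_cons.1 hx with rfl | hx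
    · exact hD
    · exact (hX x hx).trans hD

/-- The T side: if the new branch has an honest value, the colour changes. -/
theorem V_ne (N : ℕ) (hsc : ∀ a b, sc a b < N) (t : List L) (D : L) (X : List L)
    (hX : ∀ x ∈ X, x < D) (hM : Adj T N 0 (M T sc D X)) :
    V T sc N (t ++ D :: X) ≠ V T sc N t := by
  intro he
  rcases Nat.even_or_odd' (dep t D) with ⟨n, hn | hn⟩
  · exact (S_even T sc N hsc n t D X hn hX hM).rd_ne T (congrArg Prod.fst he)
  · rcases cases_top t D with h | ⟨p, m, s, rfl, hp, hs, hD⟩
    · rw [dep_le t D h] at hn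
      omega
    · rw [dep_app p m s D hp hs hD] at hn
      have h2 := congrArg Prod.snd he
      unfold V at h2
      simp only at h2
      rw [suf_app_of_lt p m s D X hp hs hD hX, suf_app p m s hp hs] at h2
      exact (S_even T sc N hsc n s D X (by omega) hX hM).rd_ne T h2

end TSide

/-! ### The family side -/

section Family

variable (T : Tab) {L : Type*} [LinearOrder L] (sc : L → L → ℕ)

theorem rd_add_high (s : ℕ) (v u : ℕ → T.A) (hu : ∀ k < s, u k = 0) :
    rd T s (v + u) = rd T s v := by
  apply rd_congr
  intro k hk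
  simp [hu k hk]

theorem cut_add (s : ℕ) (v u : ℕ → T.A) (hu : ∀ k < s, u k = 0) :
    cut T s (v + u) = cut T s v + u := by
  funext k
  simp only [cut, Pi.add_apply]
  rw [rd_add_high T s v u hu]
  split_ifs with h1 h2
  · rw [hu k h1, add_zero]
  · subst h2
    abel
  · rfl

theorem M_low (a : L) (w : List L) (i : ℕ) (h : ∀ x ∈ w, (∀ y ∈ w, y ≤ x) → sc a x = i)
    (k : ℕ) (hk : k < i) : M T sc a w k = 0 := by
  by_cases hw : w = []
  · subst hw
    rfl
  · obtain ⟨p, m, s, rfl, hp, hs⟩ := decomp w hw
    rw [M_app T sc a p m s hp hs]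
    have : sc a m = i := by
      apply h m (by simp)
      intro y hy
      rcases List.mem_append.1 hy with hy | hy
      · exact hp y hy
      · rcases List.mem_cons.1 hy with rfl | hy
        · exact le_rfl
        · exact (hs y hy).le
    rw [this]
    simp [cut, hk]

/-- appending a joint at an even place adds its value -/
theorem S_joint (i : ℕ) (n : ℕ) (w : List L) (c : L) (X : List L) (hn : dep w c = 2 * n)
    (hX : ∀ x ∈ X, x < c) (hu : ∀ k < i, M T sc c X k = 0)
    (hlab : ∀ x ∈ w, ∀ y ∈ w, c < y → y < x → sc x y ≤ i) :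
    S T sc (w ++ c :: X) = S T sc w + M T sc c X := by
  induction n generalizing w with
  | zero =>
    rcases cases_top w c with h | ⟨p, m, s, rfl, hp, hs, hD⟩
    · exact S_app T sc w c X h hX
    · rw [dep_app p m s c hp hs hD] at hn
      omega
  | succ n ih =>
    rcases cases_top w c with h | ⟨p, m, s, rfl, hp, hs, hD⟩
    · rw [dep_le w c h] at hn
      omega
    · rw [dep_app p m s c hp hs hD] at hn
      rcases cases_top s c with h | ⟨p', m', s', rfl, hp', hs', hD'⟩
      · rw [dep_le s c h] at hn
        omega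
      · rw [dep_app p' m' s' c hp' hs' hD'] at hn
        have e1 : p ++ m :: (p' ++ m' :: s') ++ c :: X = p ++ m :: (p' ++ m' :: (s' ++ c :: X)) := by
          simp
        have hlt : ∀ x ∈ s' ++ c :: X, x < m' := by
          intro x hx
          rcases List.mem_append.1 hx with hx | hx
          · exact hs' x hx
          · rcases List.mem_cons.1 hx with rfl | hx
            · exact hD'
            · exact (hX x hx).trans hD'
        have hlt' : ∀ x ∈ p' ++ m' :: (s' ++ c :: X), x < m := by
          intro x hx
          rcases List.mem_append.1 hx with hx | hx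
          · exact hs x (by simp [hx])
          · rcases List.mem_cons.1 hx with rfl | hx
            · exact hs x (by simp)
            · exact (hlt x hx).trans (hs m' (by simp))
        have hsub : ∀ x ∈ s', x ∈ p ++ m :: (p' ++ m' :: s') := by
          intro x hx
          simp [hx]
        have hmm : sc m m' ≤ i :=
          hlab m (by simp) m' (by simp) hD' (hs m' (by simp))
        rw [e1, S_app T sc p m _ hp hs, S_app T sc p m _ hp hlt', M_app T sc m p' m' s' hp' hs',
          M_app T sc m p' m' _ hp' hlt,
          ih s' (by omega) (fun x hx y hy => hlab x (hsub x hx) y (hsub y hy)),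
          cut_add T _ _ _ (fun k hk => hu k (by omega)), add_assoc]

/-- the value of a head with the list `w ++ c :: X`, `c` at an odd place -/
theorem M_head (i h : ℕ) (n : ℕ) (C : L) (w : List L) (c : L) (X : List L)
    (hn : dep w c = 2 * n + 1) (hX : ∀ x ∈ X, x < c) (hu : ∀ k < i, M T sc c X k = 0)
    (hlab : ∀ x ∈ w, ∀ y ∈ w, c < y → y < x → sc x y ≤ i)
    (hC : ∀ x ∈ w, c < x → sc C x = h) :
    M T sc C (w ++ c :: X) = cut T h (S T sc (suf w) + M T sc c X) := by
  rcases cases_top w c with h' | ⟨p, m, s, rfl, hp, hs, hD⟩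
  · rw [dep_le w c h'] at hn
    omega
  · rw [dep_app p m s c hp hs hD] at hn
    have e1 : p ++ m :: s ++ c :: X = p ++ m :: (s ++ c :: X) := by simp
    have hlt : ∀ x ∈ s ++ c :: X, x < m := by
      intro x hx
      rcases List.mem_append.1 hx with hx | hx
      · exact hs x hx
      · rcases List.mem_cons.1 hx with rfl | hx
        · exact hD
        · exact (hX x hx).trans hD
    have hsub : ∀ x ∈ s, x ∈ p ++ m :: s := by
      intro x hx
      simp [hx]
    rw [e1, M_app T sc C p m _ hp hlt, suf_app p m s hp hs, hC m (by simp) hD,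
      S_joint T sc i n s c X (by omega) hX hu (fun x hx y hy => hlab x (hsub x hx) y (hsub y hy))]

theorem M_last (h : ℕ) (n : ℕ) (C : L) (w : List L) (c : L) (hn : dep w c = 2 * n + 1)
    (hC : ∀ x ∈ w, c < x → sc C x = h) : M T sc C w = cut T h (S T sc (suf w)) := by
  rcases cases_top w c with h' | ⟨p, m, s, rfl, hp, hs, hD⟩
  · rw [dep_le w c h'] at hn
    omega
  · rw [M_app T sc C p m _ hp hs, suf_app p m s hp hs, hC m (by simp) hD]

/-- Two blocks with the same vector: the value of the opener is honest. -/
theorem M_two (N i j : ℕ) (hij : i < j) (hj : j < N) (g : ℕ → T.A) :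
    Adj T N 0 (cut T j (g + cut T i g)) := by
  set y : ℕ → T.A := g + cut T i g with hy
  have hlow : ∀ k < i, y k = g k := by
    intro k hk
    simp [hy, cut, hk]
  have hmid : y i = T.ta (rd T i g) := by
    have h1 : y i = g i + (g i - T.ta (rd T i g)) := by simp [hy, cut]
    rw [h1, ← add_sub_assoc, T.two, zero_sub]
    exact neg_eq_of_add_eq_zero_left (T.two _)
  have hhigh : ∀ k, i < k → y k = 0 := by
    intro k hk
    have h1 : y k = g k + g k := by
      simp only [hy, cut, Pi.add_apply]
      rw [if_neg (by omega), if_neg (by omega)]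
    rw [h1, T.two]
  have hr : ∀ m, rd T (i + 1 + m) y = T.sg (rd T i g) (T.ta (rd T i g)) := by
    intro m
    induction m with
    | zero =>
      have h0 : rd T (i + 1 + 0) y = T.sg (rd T i y) (y i) := rfl
      rw [h0, hmid, rd_congr T i g y hlow]
    | succ m ih =>
      have h1 : rd T (i + 1 + (m + 1)) y = T.sg (rd T (i + 1 + m) y) (y (i + 1 + m)) := rfl
      rw [h1, ih, hhigh _ (by omega), T.sg0]
  have hrj : rd T j y = T.sg (rd T i g) (T.ta (rd T i g)) := by
    have h1 := hr (j - (i + 1))
    have h2 : i + 1 + (j - (i + 1)) = j := by omega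
    rwa [h2] at h1
  refine ⟨j, hj, ?_, fun k hk => ?_⟩
  · have h1 : cut T j y j = - T.ta (T.sg (rd T i g) (T.ta (rd T i g))) := by
      simp only [cut, lt_irrefl, if_false, if_true]
      rw [hrj, hhigh j hij, zero_sub]
    rw [h1, Pi.zero_apply, sub_zero, neg_eq_of_add_eq_zero_left (T.two _)]
    exact T.hon _
  · simp only [cut, Pi.zero_apply]
    split_ifs with h1
    · rfl
    · exact hhigh k (by omega)

theorem S_high (N : ℕ) (hsc : ∀ a b, sc a b < N) (n : ℕ) (w : List L) (hw : w.length ≤ n) (k : ℕ)
    (hk : N ≤ k) : S T sc w k = 0 := by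
  induction n generalizing w with
  | zero =>
    have : w = [] := List.length_eq_zero_iff.1 (by omega)
    subst this
    rfl
  | succ n ih =>
    by_cases h : w = []
    · subst h
      rfl
    · obtain ⟨p, m, s, rfl, hp, hs⟩ := decomp w h
      rw [List.length_append, List.length_cons] at hw
      rw [S_app T sc p m s hp hs, Pi.add_apply, ih p (by omega), zero_add]
      by_cases h' : s = []
      · subst h'
        rfl
      · obtain ⟨p', m', s', rfl, hp', hs'⟩ := decomp s h'
        rw [List.length_append, List.length_cons] at hw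
        rw [M_app T sc m p' m' s' hp' hs']
        have := hsc m m'
        simp only [cut]
        rw [if_neg (by omega), if_neg (by omega)]
        exact ih s' (by omega)

end Family

/-! ### The theorem -/

section Main

variable {L : Type*} [LinearOrder L]

/-- the word `w b₁, c b₁, w b₂, c b₂, .., w bₙ` -/
def joinF (w : ℕ → List L) (c : ℕ → L) : List ℕ → List L
  | [] => []
  | [b] => w b
  | b :: b' :: F => w b ++ c b :: joinF w c (b' :: F)

theorem dep_append (n : ℕ) (w : List L) (hn : w.length ≤ n) (c : L) (w' : List L) (c' : L)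
    (hc : c' < c) (hw : ∀ x ∈ w', x < c) : dep (w ++ c :: w') c' = dep w c + 1 + dep w' c' := by
  induction n generalizing w with
  | zero =>
    have : w = [] := List.length_eq_zero_iff.1 (by omega)
    subst this
    rw [dep_app [] c w' c' (by simp) hw hc, dep_le [] c (by simp)]
    omega
  | succ n ih =>
    rcases cases_top w c with h | ⟨p, m, s, rfl, hp, hs, hD⟩
    · rw [dep_app w c w' c' h hw hc, dep_le w c h]
      omega
    · rw [List.length_append, List.length_cons] at hn
      have e1 : p ++ m :: s ++ c :: w' = p ++ m :: (s ++ c :: w') := by simp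
      have hlt : ∀ x ∈ s ++ c :: w', x < m := by
        intro x hx
        rcases List.mem_append.1 hx with hx | hx
        · exact hs x hx
        · rcases List.mem_cons.1 hx with rfl | hx
          · exact hD
          · exact (hw x hx).trans hD
      rw [e1, dep_app p m _ c' hp hlt (hc.trans hD), dep_app p m s c hp hs hD, ih s (by omega)]
      omega

variable (T : Tab) (sc : L → L → ℕ)

/-- two blocks with the same vector kill the colour -/
theorem V_two (N i j : ℕ) (hij : i < j) (hj : j < N) (hsc : ∀ a b, sc a b < N)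
    (tri : ∀ a b c, b < a → c < b → sc a c = max (sc a b) (sc b c))
    (t : List L) (D : L) (W₁ : List L) (C₁ : L) (W₂ : List L) (C₂ : L)
    (h1 : Odd (dep W₁ C₁)) (h2 : Odd (dep W₂ C₂)) (hC : C₁ < D) (hW1 : ∀ x ∈ W₁, x < D)
    (hW2 : ∀ x ∈ W₂, x < C₁) (h3 : ∀ x ∈ W₁, C₁ < x → sc x C₁ ≤ i)
    (h4 : ∀ x ∈ W₁, C₁ < x → sc D x = j) (h5 : ∀ x ∈ W₂, C₂ < x → sc C₁ x = i)
    (h6 : S T sc (suf W₁) = S T sc (suf W₂)) :
    V T sc N (t ++ D :: (W₁ ++ C₁ :: W₂)) ≠ V T sc N t := by
  obtain ⟨n, hn⟩ := h1
  obtain ⟨n', hn'⟩ := h2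
  have e2 := M_last T sc i n' C₁ W₂ C₂ hn' h5
  have hu : ∀ k < i, M T sc C₁ W₂ k = 0 := by
    intro k hk
    rw [e2]
    simp [cut, hk]
  have hlab : ∀ x ∈ W₁, ∀ y ∈ W₁, C₁ < y → y < x → sc x y ≤ i := by
    intro x hx y _ hy hyx
    have := h3 x hx (hy.trans hyx)
    rw [tri x y C₁ hyx hy] at this
    exact (le_max_left _ _).trans this
  have e1 := M_head T sc i j n D W₁ C₁ W₂ hn hW2 hu hlab h4
  rw [e2, ← h6] at e1
  apply V_ne T sc N hsc
  · intro x hx
    rcases List.mem_append.1 hx with hx | hx
    · exact hW1 x hx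
    · rcases List.mem_cons.1 hx with rfl | hx
      · exact hC
      · exact (hW2 x hx).trans hC
  · rw [e1]
    exact M_two T N i j hij hj _

/-- **Theorem T1.** The tower painter kills every legal decreasing family whose joints have constant
mutual scale `i`, smaller than the constant scale `j` of the opener and the joints; two or four
blocks suffice. -/
theorem T1 [Finite T.A] (N i j : ℕ) (hij : i < j) (hj : j < N) (hsc : ∀ a b, sc a b < N)
    (tri : ∀ a b c, b < a → c < b → sc a c = max (sc a b) (sc b c))
    (t : List L) (D : L) (w : ℕ → List L) (c : ℕ → L)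
    (hcD : ∀ b, c b < D) (hwD : ∀ b, ∀ x ∈ w b, x < D)
    (hc : ∀ a b, a < b → c b < c a) (hw : ∀ a b, a < b → ∀ x ∈ w b, x ≤ c a)
    (hD : ∀ b, sc D (c b) = j) (hcc : ∀ a b, a < b → sc (c a) (c b) = i) :
    ∃ F : List ℕ, F.Pairwise (· < ·) ∧ F ≠ [] ∧ F.length ≤ 4 ∧
      V T sc N (t ++ D :: joinF w c F) ≠ V T sc N t := by
  -- labels
  have lab1 : ∀ p b x, p < b → c b < x → x ≤ c p → sc x (c b) ≤ i := by
    intro p b x hp hx hxp
    rcases hxp.lt_or_eq with h | h
    · have h1 := hcc p b hp
      rw [tri (c p) x (c b) h hx] at h1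
      rw [← h1]
      exact le_max_right _ _
    · rw [h, hcc p b hp]
  have lab2 : ∀ p b x, p < b → c b < x → x ≤ c p → x < D → sc D x = j := by
    intro p b x hp hx hxp hxD
    have h1 := hD b
    rw [tri D x (c b) hxD hx] at h1
    have h2 := lab1 p b x hp hx hxp
    rcases le_total (sc D x) (sc x (c b)) with h3 | h3
    · rw [max_eq_right h3] at h1
      omega
    · rwa [max_eq_left h3] at h1
  have lab3 : ∀ a q b x, a < q → q < b → c b < x → x ≤ c q → sc (c a) x = i := by
    intro a q b x ha hq hx hxq
    rcases hxq.lt_or_eq with h | h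
    · rw [tri (c a) (c q) x (hc a q ha) h, hcc a q ha]
      have h1 := hcc q b hq
      rw [tri (c q) x (c b) h hx] at h1
      exact max_eq_left (by rw [← h1]; exact le_max_left _ _)
    · rw [h, hcc a q ha]
  -- equality of vectors
  have key : ∀ (W : ℕ → List L), ∃ k k', k < k' ∧ S T sc (suf (W k)) = S T sc (suf (W k')) := by
    intro W
    obtain ⟨k, k', hne, he⟩ := Finite.exists_ne_map_eq_of_infinite
      (fun k => fun x : Fin N => S T sc (suf (W k)) x)
    have he' : S T sc (suf (W k)) = S T sc (suf (W k')) := by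
      funext x
      by_cases hx : x < N
      · exact congrFun he ⟨x, hx⟩
      · rw [S_high T sc N hsc _ _ le_rfl x (by omega), S_high T sc N hsc _ _ le_rfl x (by omega)]
    rcases lt_or_gt_of_ne hne with h | h
    · exact ⟨k, k', h, he'⟩
    · exact ⟨k', k, h, he'.symm⟩
  by_cases hodd : ∀ n, ∃ b > n, Odd (dep (w b) (c b))
  · obtain ⟨φ, hφ, hP⟩ := Nat.exists_strictMono_subsequence hodd
    obtain ⟨k, k', hk, he⟩ := key (fun k => w (φ (2 * k + 1)))
    have l1 : φ (2 * k) < φ (2 * k + 1) := hφ (by omega)
    have l2 : φ (2 * k + 1) < φ (2 * k') := hφ (by omega)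
    have l3 : φ (2 * k') < φ (2 * k' + 1) := hφ (by omega)
    refine ⟨[φ (2 * k + 1), φ (2 * k' + 1)], ?_, by simp, by simp, ?_⟩
    · simp only [List.pairwise_cons, List.mem_singleton, forall_eq, List.not_mem_nil,
        false_imp_iff, implies_true, List.Pairwise.nil, and_true]
      exact l2.trans l3
    · apply V_two T sc N i j hij hj hsc tri t D _ _ _ (c (φ (2 * k' + 1))) (hP _) (hP _) (hcD _)
        (hwD _) ?_ ?_ ?_ ?_ he
      · intro x hx
        exact (hw _ _ l3 x hx).trans_lt (hc _ _ l2)
      · intro x hx hcx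
        exact lab1 _ _ x l1 hcx (hw _ _ l1 x hx)
      · intro x hx hcx
        exact lab2 _ _ x l1 hcx (hw _ _ l1 x hx) (hwD _ x hx)
      · intro x hx hcx
        exact lab3 _ _ _ x l2 l3 hcx (hw _ _ l3 x hx)
  · push Not at hodd
    obtain ⟨n₀, hn₀⟩ := hodd
    have hev : ∀ b > n₀, Even (dep (w b) (c b)) := fun b hb => Nat.not_odd_iff_even.1 (hn₀ b hb)
    -- superblocks `w a, c a, w b`, `a = n₀ + 4 k + 2`, `b = n₀ + 4 k + 4`
    obtain ⟨k, k', hk, he⟩ := key (fun k => w (n₀ + 4 * k + 2) ++ c (n₀ + 4 * k + 2) ::
      w (n₀ + 4 * k + 4))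
    have hsuper : ∀ k, Odd (dep (w (n₀ + 4 * k + 2) ++ c (n₀ + 4 * k + 2) ::
        w (n₀ + 4 * k + 4)) (c (n₀ + 4 * k + 4))) := by
      intro k
      rw [dep_append _ _ le_rfl _ _ _ (hc _ _ (by omega)) (fun x hx =>
        (hw (n₀ + 4 * k + 3) _ (by omega) x hx).trans_lt (hc _ _ (by omega)))]
      have h1 := hev (n₀ + 4 * k + 2) (by omega)
      have h2 := hev (n₀ + 4 * k + 4) (by omega)
      exact (h1.add_one).add_even h2
    have hmem : ∀ k, ∀ x ∈ w (n₀ + 4 * k + 2) ++ c (n₀ + 4 * k + 2) :: w (n₀ + 4 * k + 4),
        x ≤ c (n₀ + 4 * k + 1) := by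
      intro k x hx
      rcases List.mem_append.1 hx with hx | hx
      · exact hw _ _ (by omega) x hx
      · rcases List.mem_cons.1 hx with rfl | hx
        · exact (hc _ _ (by omega)).le
        · exact hw _ _ (by omega) x hx
    refine ⟨[n₀ + 4 * k + 2, n₀ + 4 * k + 4, n₀ + 4 * k' + 2, n₀ + 4 * k' + 4], ?_, by simp,
      by simp, ?_⟩
    · simp only [List.pairwise_cons, List.mem_cons, List.not_mem_nil, or_false,
        forall_eq_or_imp, forall_eq, false_imp_iff, implies_true, List.Pairwise.nil, and_true]
      omega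
    · have e1 : joinF w c [n₀ + 4 * k + 2, n₀ + 4 * k + 4, n₀ + 4 * k' + 2, n₀ + 4 * k' + 4] =
          (w (n₀ + 4 * k + 2) ++ c (n₀ + 4 * k + 2) :: w (n₀ + 4 * k + 4)) ++
            c (n₀ + 4 * k + 4) :: (w (n₀ + 4 * k' + 2) ++ c (n₀ + 4 * k' + 2) ::
              w (n₀ + 4 * k' + 4)) := by
        simp [joinF]
      rw [e1]
      apply V_two T sc N i j hij hj hsc tri t D _ _ _ (c (n₀ + 4 * k' + 4)) (hsuper k) (hsuper k')
        (hcD _) ?_ ?_ ?_ ?_ ?_ he
      · intro x hx
        exact (hmem k x hx).trans_lt (hcD _)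
      · intro x hx
        exact (hmem k' x hx).trans_lt (hc _ _ (by omega))
      · intro x hx hcx
        exact lab1 (n₀ + 4 * k + 1) _ x (by omega) hcx (hmem k x hx)
      · intro x hx hcx
        exact lab2 (n₀ + 4 * k + 1) _ x (by omega) hcx (hmem k x hx)
          ((hmem k x hx).trans_lt (hcD _))
      · intro x hx hcx
        exact lab3 _ (n₀ + 4 * k' + 1) _ x (by omega) (by omega) hcx (hmem k' x hx)

end Main

/-! ### The table -/

/-- index of an element of `Z_2^3` -/
def idx (a : ZMod 2 × ZMod 2 × ZMod 2) : ℕ := 4 * a.1.val + 2 * a.2.1.val + a.2.2.val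

/-- the readings -/
def sgt (q : Fin 4) (a : ZMod 2 × ZMod 2 × ZMod 2) : Fin 4 :=
  ((([[0, 3, 2, 1, 1, 0, 3, 2], [1, 0, 3, 2, 2, 3, 0, 1], [2, 1, 0, 3, 3, 2, 1, 0],
    [3, 2, 1, 0, 0, 1, 2, 3]] : List (List (Fin 4))).getD q.val []).getD (idx a) 0)

/-- the receipts -/
def tat (q : Fin 4) : ZMod 2 × ZMod 2 × ZMod 2 :=
  ([(1, 0, 0), (1, 1, 0), (1, 1, 1), (1, 0, 1)] : List (ZMod 2 × ZMod 2 × ZMod 2)).getD q.val 0

/-- the differences -/
def Det (a : ZMod 2 × ZMod 2 × ZMod 2) : Prop := idx a ∈ [1, 2, 3, 4, 6]

instance : DecidablePred Det := fun a => by unfold Det; infer_instance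

/-- helper84's table with four states -/
def tab : Tab where
  A := ZMod 2 × ZMod 2 × ZMod 2
  Q := Fin 4
  q0 := 0
  sg := sgt
  ta := tat
  De := Det
  two := by decide
  sg0 := by decide
  inj := by decide
  det := by decide
  tad := by decide
  hon := by decide

end Pool.Agent.TJT1
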