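import Pool.Agent.Work.MP_69fea5_lc.TJ.Stmts
import Pool.Agent.Work.MP_69fea5_lc.TJ.PrV2

set_option autoImplicit false

/-! The third jump with the painter with 16 colours (`Pool.Agent.TJT1`, `Pool.Agent.TJPr`). -/

namespace Pool.Agent.Work.MP_69fea5_lc.TJ

open Pool.Agent.Work.MP_69fea5_lc.DJ (bits lo hi S V Bl lam mu chi seg)

/-- The masks, as letters. -/
def Mk : Type := ℕ

instance : Inhabited Mk := ⟨(0 : ℕ)⟩

instance : Primcodable Mk := inferInstanceAs (Primcodable ℕ)

/-- The order of the letters. -/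
def leM (a b : Mk) : Bool := !(gt a b)

/-- The scale. -/
def scM (l : ℕ) (a b : Mk) : ℕ := l - dl a b

/-- The colour of a word, `l + 1` scales. -/
def colM (l : ℕ) (w : List ℕ) : Fin 4 × Fin 4 :=
  Pool.Agent.TJPr.VL (β := Mk) leM (scM l) (l + 1) w

/-- The colouring with 16 colours. -/
def colV (R : ℕ → ℕ → ℕ → Bool) (n : ℕ) : Fin 4 × Fin 4 :=
  colM (lo (bits n)) (word R (lo (bits n)) (bits n))

/-- The linear order. -/
@[reducible] def ordM (h : Good gt dl) : LinearOrder Mk where
  le a b := gt a b = false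
  lt a b := gt b a = true
  le_refl a := h.irrefl a
  le_trans a b c h1 h2 := by
    rw [Bool.eq_false_iff] at h1 h2 ⊢
    intro h3
    by_cases hab : a = b
    · exact h2 (hab ▸ h3)
    · rcases h.total a b hab with h4 | h4
      · exact h1 h4
      · exact h2 (h.trans b a c h4 h3)
  lt_iff_le_not_ge a b := by
    constructor
    · intro h1
      refine ⟨?_, by rw [h1]; simp⟩
      rw [Bool.eq_false_iff]
      intro h2
      exact absurd ((h.irrefl a).symm.trans (h.trans a b a h2 h1)) (by simp)
    · rintro ⟨-, h2⟩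
      simpa using h2
  le_antisymm a b h1 h2 := by
    by_contra hab
    rcases h.total a b hab with h3 | h3
    · exact absurd (h3.symm.trans h1) (by simp)
    · exact absurd (h3.symm.trans h2) (by simp)
  le_total a b := by
    by_cases h1 : gt a b = false
    · exact Or.inl h1
    · right
      rw [Bool.not_eq_false] at h1
      rw [Bool.eq_false_iff]
      intro h2
      exact absurd ((h.irrefl a).symm.trans (h.trans a b a h1 h2)) (by simp)
  toDecidableLE a b := inferInstanceAs (Decidable (gt a b = false))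

theorem join_eq (w : ℕ → List ℕ) (c : ℕ → ℕ) (s : List ℕ) :
    Pool.Agent.TJT1.joinF (L := Mk) (fun a => w (a + 1)) (fun a => c (a + 1)) s =
      join w c (s.map (· + 1)) := by
  induction s with
  | nil => rfl
  | cons a s ih =>
    cases s with
    | nil => rfl
    | cons b s =>
      show w (a + 1) ++ c (a + 1) :: Pool.Agent.TJT1.joinF (L := Mk) (fun a => w (a + 1))
        (fun a => c (a + 1)) (b :: s) = _
      rw [ih]
      rfl

instance : Finite Pool.Agent.TJT1.tab.A :=
  inferInstanceAs (Finite (ZMod 2 × ZMod 2 × ZMod 2))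

/-- T1 for the masks. -/
theorem T1V (h : Good gt dl) (l D j i : ℕ) (w : ℕ → List ℕ) (c : ℕ → ℕ) (hil : i ≤ l)
    (hF : FamS gt dl D j i w c) (t : List ℕ) :
    ∃ s : List ℕ, s ≠ [] ∧ s.length ≤ 4 ∧ s.Pairwise (· < ·) ∧
      colM l (t ++ D :: join w c s) ≠ colM l t := by
  let _ := ordM h
  have hle : ∀ a b : Mk, leM a b = true ↔ a ≤ b := by
    intro a b
    show (!(gt a b)) = true ↔ gt a b = false
    simp
  have hsc : ∀ a b : Mk, scM l a b < l + 1 := fun a b => by unfold scM; omega
  have hV : ∀ u : List ℕ, colM l u = Pool.Agent.TJT1.V Pool.Agent.TJT1.tab (L := Mk) (scM l) (l + 1) u :=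
    fun u => (Pool.Agent.TJPr.VL_eq leM hle (scM l) (l + 1) hsc u).symm
  have hji := hF.lt
  obtain ⟨s, h1, h2, h3, h4⟩ := Pool.Agent.TJT1.T1 Pool.Agent.TJT1.tab (L := Mk) (scM l) (l + 1)
    (l - i) (l - j) (by omega) (by omega) hsc (by
      intro a b d hab hbd
      have := h.scale a b d hab hbd
      unfold scM
      rw [this]
      omega) t D (fun a => w (a + 1)) (fun a => c (a + 1))
      (fun b => (hF.hD (b + 1)).1) (fun b x hx => by
        show gt D x = true
        exact h.trans D (c 0) x (hF.hD 0).1 (hF.hw 0 (b + 1) (by omega) x hx))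
      (fun a b hab => (hF.hc (a + 1) (b + 1) (by omega)).1) (fun a b hab x hx => by
        have := hF.hw (a + 1) (b + 1) (by omega) x hx
        have h5 : (x : Mk) < (c (a + 1) : ℕ) := this
        exact h5.le)
      (fun b => by
        show l - dl D (c (b + 1)) = l - j
        rw [(hF.hD (b + 1)).2])
      (fun a b hab => by
        show l - dl (c (a + 1)) (c (b + 1)) = l - i
        rw [(hF.hc (a + 1) (b + 1) (by omega)).2])
  refine ⟨s.map (· + 1), by simpa using h2, by simpa using h3, ?_, ?_⟩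
  · rw [List.pairwise_map]
    exact h1.imp (fun h => by omega)
  · rw [hV, hV, ← join_eq]
    exact h4

/-- The colouring is primitive recursive. -/
theorem pr_colV (h2 : StPR2) (R : ℕ → ℕ → ℕ → Bool)
    (hR : Primrec fun t : ℕ × ℕ × ℕ => R t.1 t.2.1 t.2.2) : Primrec (colV R) := by
  obtain ⟨hgt, hdl, hw⟩ := h2
  have hword := (hw R hR).2.2
  have hle : Primrec₂ leM := Primrec.not.comp hgt
  have hsc : Primrec fun t : ℕ × Mk × Mk => scM t.1 t.2.1 t.2.2 := by
    have h3 : Primrec fun t : ℕ × Mk × Mk => dl t.2.1 t.2.2 :=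
      hdl.comp (Primrec.fst.comp Primrec.snd) (Primrec.snd.comp Primrec.snd)
    exact Primrec.nat_sub.comp Primrec.fst h3
  have hV := Pool.Agent.TJPr.pr_VL (P := ℕ) (β := Mk) hle hsc (N := fun l => l + 1) Primrec.succ
  have hlo : Primrec fun n : ℕ => lo (bits n) :=
    Pool.Agent.Work.MP_69fea5_lc.DJ.pr_lo.comp Pool.Agent.Work.MP_69fea5_lc.DJ.pr_bits
  have h3 : Primrec fun n : ℕ => word R (lo (bits n)) (bits n) :=
    hword.comp hlo Pool.Agent.Work.MP_69fea5_lc.DJ.pr_bits
  have h5 : Primrec fun n : ℕ => (word R (lo (bits n)) (bits n) : List Mk) := h3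
  have h4 : Primrec fun n : ℕ => ((lo (bits n), word R (lo (bits n)) (bits n)) : ℕ × List Mk) :=
    Primrec.pair hlo h5
  have h6 := hV.comp h4
  exact h6

end Pool.Agent.Work.MP_69fea5_lc.TJ
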