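import Pool.Agent.Work.MP_69fea5_lc.TJ.V_CL
import Pool.Agent.Work.MP_69fea5_lc.S4.Main

set_option autoImplicit false

/-! The third jump, 96 colours: the theorem from the statements of the lemmas. -/

namespace Pool.Agent.Work.MP_69fea5_lc.TJ

open Pool.Agent.Work.MP_69fea5_lc.DJ (bits lo hi S V Bl lam mu chi seg Mono4)
open Pool.Agent.Work.MP_69fea5_lc.S4 (d6 d6_lt pr_d6 d6_inj Concl six)

/-- The colouring with 96 colours. -/
noncomputable def c96 (n : ℕ) : ℕ := 16 * d6 n + (4 * (colV R₀ n).1.val + (colV R₀ n).2.val)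

lemma c96_lt (n : ℕ) : c96 n < 96 := by
  have h1 := d6_lt n
  have h2 := (colV R₀ n).1.isLt
  have h3 := (colV R₀ n).2.isLt
  unfold c96
  omega

lemma c96_inj {n m : ℕ} (h : c96 n = c96 m) : d6 n = d6 m ∧ colV R₀ n = colV R₀ m := by
  have h2 := (colV R₀ n).1.isLt
  have h3 := (colV R₀ n).2.isLt
  have h4 := (colV R₀ m).1.isLt
  have h5 := (colV R₀ m).2.isLt
  unfold c96 at h
  refine ⟨by omega, Prod.ext (Fin.ext (by omega)) (Fin.ext (by omega))⟩

lemma pr_c96 (hP : StPR2) (h1 : StF1) : Primrec c96 := by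
  have h2 := pr_colV hP R₀ h1.2.1
  have h3 : Primrec fun n => ((colV R₀ n).1 : ℕ) := Primrec.fin_val.comp (Primrec.fst.comp h2)
  have h4 : Primrec fun n => ((colV R₀ n).2 : ℕ) := Primrec.fin_val.comp (Primrec.snd.comp h2)
  exact Primrec.nat_add.comp (Primrec.nat_mul.comp (Primrec.const 16) pr_d6)
    (Primrec.nat_add.comp (Primrec.nat_mul.comp (Primrec.const 4) h3) h4)

open Pool.Agent.Work.MP_69fea5_lc.DJ (col3 col A₀ fiber_finite) in
/-- The elements of a solution have pairwise different least digits, up to finitely many. -/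
lemma fib {X : Set ℕ} (hpos : ∀ x ∈ X, 0 < x) (hc : Mono4 d6 X) (l : ℕ) :
    {x ∈ X | lo (bits x) = l}.Finite := by
  obtain ⟨b, s1, s2, s3, s4⟩ := hc.sums
  rcases X.eq_empty_or_nonempty with rfl | ⟨x₀, hx₀⟩
  · simp
  have hb : d6 x₀ = b := s1 x₀ hx₀
  have g : ∀ n, d6 n = b → col3 (col A₀.WE) n = col3 (col A₀.WE) x₀ ∧
      Pool.Agent.Work.MP_69fea5_lc.S4.c4 n = Pool.Agent.Work.MP_69fea5_lc.S4.c4 x₀ := fun n hn =>
    d6_inj (hn.trans hb.symm)
  have h1 : ∀ x ∈ X, col3 (col A₀.WE) x = col3 (col A₀.WE) x₀ := fun x hx => (g _ (s1 x hx)).1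
  have h2 : ∀ x ∈ X, ∀ y ∈ X, x < y → col3 (col A₀.WE) (x + y) = col3 (col A₀.WE) x₀ :=
    fun x hx y hy hxy => (g _ (s2 x hx y hy hxy)).1
  have h4 : ∀ x ∈ X, ∀ y ∈ X, ∀ z ∈ X, ∀ w ∈ X, x < y → y < z → z < w →
      col3 (col A₀.WE) (x + y + z + w) = col3 (col A₀.WE) x₀ :=
    fun x hx y hy z hz w hw hxy hyz hzw => (g _ (s4 x hx y hy z hz w hw hxy hyz hzw)).1
  exact fiber_finite hpos h1 h2 h4 l

open Pool.Agent.Work.MP_69fea5_lc.DJ (lo_mem bits_ne_nil le_of_mem_bits mem_bits) in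
lemma lo_dvd {x B : ℕ} (hx : 0 < x) (h : B ≤ lo (bits x)) : 2 ^ B ∣ x := by
  have h1 : ∀ i < B, x.testBit i = false := by
    intro i hi
    rw [Bool.eq_false_iff]
    intro h2
    have h3 : i ∈ bits x := mem_bits.mpr h2
    have h4 : lo (bits x) ≤ i := by
      have hs : (bits x).Pairwise (· < ·) := by
        unfold bits
        exact List.Pairwise.filter _ List.pairwise_lt_range
      have hne := bits_ne_nil hx
      cases hb : bits x with
      | nil => exact absurd hb hne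
      | cons a L =>
        rw [hb] at h3 hs
        rw [List.pairwise_cons] at hs
        show a ≤ i
        rcases List.mem_cons.mp h3 with rfl | h5
        · exact le_rfl
        · exact (hs.1 i h5).le
    omega
  apply Nat.dvd_of_mod_eq_zero
  apply Nat.eq_of_testBit_eq
  intro i
  rw [Nat.testBit_mod_two_pow, Nat.zero_testBit]
  by_cases hi : i < B
  · simp [h1 i hi]
  · simp [hi]

lemma far_of {X : Set ℕ} (hX : X.Infinite) (hpos : ∀ x ∈ X, 0 < x)
    (hf : ∀ l, {x ∈ X | lo (bits x) = l}.Finite) (B : ℕ) : ∃ x ∈ X, B ≤ x ∧ 2 ^ B ∣ x := by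
  have h1 : (⋃ l ∈ Finset.range B, {x ∈ X | lo (bits x) = l}).Finite :=
    Set.Finite.biUnion (Finset.finite_toSet _) (fun l _ => hf l)
  obtain ⟨x, hx, hx'⟩ := (hX.sdiff h1).exists_gt B
  have hlo : B ≤ lo (bits x) := by
    by_contra h
    apply hx.2
    simp only [Set.mem_iUnion, Finset.mem_range]
    exact ⟨lo (bits x), by omega, hx.1, rfl⟩
  exact ⟨x, hx.1, by omega, lo_dvd (hpos x hx.1) hlo⟩

open Pool.Agent.Work.MP_69fea5_lc.DJ (nodup_bits bits_ne_nil comp_rec) in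
/-- The theorem. -/
theorem mainV (l1 : StL1) (l4 : StL4) (l5 : StL5) (hw : StW) (cs : StCS)
    (f1 : StF1) (f4 : StF4) (f5 : StF5) {X : Set ℕ} (hX : X.Infinite) (hpos : ∀ x ∈ X, 0 < x) :
    ((∃ b, ∀ F : Finset ℕ, F.Nonempty → F.card ≤ 6 → (↑F : Set ℕ) ⊆ X →
      c96 (∑ x ∈ F, x) = b) → ∀ (T : Set ℕ) (Q : ℕ → ℕ → ℕ → ℕ → Bool),
      (Computable fun t : ℕ × ℕ × ℕ × ℕ => Q t.1 t.2.1 t.2.2.1 t.2.2.2) →
      (∀ n, n ∈ T ↔ ∃ s, ∀ t, ∃ u, Q n s t u = true) → Nat.RecursiveIn {chi X} (chi T)) ∧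
    ((∃ b, ∀ F : Finset ℕ, F.Nonempty → F.card ≤ 4 → (↑F : Set ℕ) ⊆ X →
      c96 (∑ x ∈ F, x) = b) →
      (∀ S : Set ℕ, (∃ R : ℕ → ℕ → ℕ → Bool,
        (Computable fun t : ℕ × ℕ × ℕ => R t.1 t.2.1 t.2.2) ∧
        ∀ n, n ∈ S ↔ ∃ s, ∀ t, R n s t = true) → Nat.RecursiveIn {chi X} (chi S)) ∧
      Concl X) := by
  classical
  have key : (∃ b, ∀ F : Finset ℕ, F.Nonempty → F.card ≤ 4 → (↑F : Set ℕ) ⊆ X →
      c96 (∑ x ∈ F, x) = b) → Mono4 d6 X := by
    rintro ⟨b, hb⟩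
    obtain ⟨x₀, hx₀⟩ := hX.nonempty
    have hb₀ : c96 x₀ = b := by
      have := hb {x₀} (by simp) (by simp) (by simpa using hx₀)
      simpa using this
    exact ⟨d6 x₀, fun F h1 h2 h3 => (c96_inj ((hb F h1 h2 h3).trans hb₀.symm)).1⟩
  refine ⟨?_, fun h => six hX hpos (key h)⟩
  rintro ⟨b, hb⟩ T Q hQ hT
  have hm : Mono4 d6 X := key ⟨b, fun F h1 h2 h3 => hb F h1 (by omega) h3⟩
  have hS := six hX hpos hm
  have two : Two X := fun T Q hQ hT => hS.1 T ⟨Q, hQ, hT⟩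
  have far := far_of hX hpos (fib hpos hm)
  have h0 : 0 ∉ X := fun h => lt_irrefl _ (hpos 0 h)
  obtain ⟨x₀, hx₀⟩ := hX.nonempty
  have hb₀ : c96 x₀ = b := by
    have := hb {x₀} (by simp) (by simp) (by simpa using hx₀)
    simpa using this
  have hyp : HypV R₀ X := by
    refine ⟨h0, far, colV R₀ x₀, fun f hf hf6 => ?_⟩
    have e : ∑ x ∈ (bits f).toFinset, x = S f := by
      rw [List.sum_toFinset _ (nodup_bits f)]
      simp [S]
    have h1 := hb (bits f).toFinset (by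
      rw [List.toFinset_nonempty_iff]
      exact bits_ne_nil hf.1) (by
      rw [List.toFinset_card_of_nodup (nodup_bits f)]
      exact hf6) (by
      intro i hi
      rw [List.coe_toFinset] at hi
      exact hf.2 i hi)
    rw [e] at h1
    exact (c96_inj (h1.trans hb₀.symm)).2
  have hcl := iCLV l1 l4 l5 hw cs R₀ X f1.1 hyp
  have h5 := f5 X two (f4 R₀ X f1.1 h0 far (fun l σ hσ f hf hf2 hl e he =>
    hcl l σ hσ f hf hf2 hl e he))
  obtain ⟨e, he⟩ := f1.2.2 T Q hQ hT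
  have h6 := comp_rec h5 (g := fun n => Nat.pair e n + 1)
    (Primrec.succ.comp (Primrec₂.natPair.comp (Primrec.const e) Primrec.id))
  refine h6.of_eq (fun n => ?_)
  unfold chi
  simp only [he n, Set.mem_ofPred_eq]

end Pool.Agent.Work.MP_69fea5_lc.TJ
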